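import Pool.Agent.W920.NL.Core

/-!
# The verifier for readers which need no witnesses
-/

set_option autoImplicit false

namespace Pool.Agent.W920.NL

open Pool.Agent.NPC Pool.Agent.H251R5.PQ
open Pool.Agent.W920.LN (Tb lk lk_map)

theorem lk_nil (z : List Bool) : lk [] z = [] := rfl

section

variable {D : Ver} {F : Tc × List (List Bool) → List (List Bool)}
  {Ks : List (List Bool) → List (List Bool)} {W : Rd}

theorem ok_complete_nil {x : List Bool} {u : ℕ} (hu : 1 ≤ u) (hnu : D.n x ≤ u)
    (θ : List (List Bool))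
    (hlen : ∀ tc i s, i ≤ u ^ 3 + 1 → Good x u i s →
      32 * (Nat.log 2 (F (tc, qlist D s)).length + 1) ≤ u)
    (hno : ∀ w : List Bool, w.length = D.n x → D.V x w = false)
    (htot : ∀ i s, i ≤ u ^ 3 + 1 → Good x u i s →
      ∀ z ∈ Ks (qlist D s), valid W (θ, []) z = true) :
    ∀ (k i : ℕ) (s : St), Good x u i s → i + k ≤ u ^ 3 + 1 →
      ok D F Ks W θ (List.replicate k []) s = true := by
  intro k
  induction k with
  | zero => intro i s _ _; rfl
  | succ k ih =>
    intro i s hg hi
    have htb2 := htot i s (by omega) hg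
    have hg' := good_nxt D x u i hu hnu (fun qs => F ((θ, []), qs)) s hg
      (hlen (θ, []) i s (by omega) hg)
    have h3 := ih (i + 1) (nx D F (θ, []) s) hg' (by omega)
    rw [List.replicate_succ]
    unfold ok
    rw [h3, Bool.and_true]
    unfold chk
    rw [Bool.and_eq_true, List.all_eq_true, Bool.not_eq_true']
    refine ⟨htb2, ?_⟩
    by_contra hcon
    rw [Bool.not_eq_false] at hcon
    obtain ⟨w, hw1, hw2⟩ := cor_test D _ s hcon
    rw [hg.1] at hw1 hw2
    rw [hno w hw1] at hw2
    exact Bool.false_ne_true hw2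

end

/-- **The core theorem for readers which need no witnesses.** There is a polynomial-time search `V`
with a parameter: if the parameter is good then it finds a witness of every member, and it never
accepts nonmembers. -/
theorem core_det (A : Set (List Bool)) (hA : NPHard A) (D c : ℕ)
    {cs : List (List Bool) → List (List Bool)} (hcs : NPC.Poly cs) {W : Rd} (hW : NPC.Poly W)
    (rW : Polynomial ℕ) (hrW : ∀ θ z w l, W (θ, (z, w)) = some l → l.length ≤ rW.eval z.length)
    (L : Set (List Bool)) (hL : InNP L) :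
    ∃ (V : List Bool × List (List Bool) → Bool) (Nk : Polynomial ℕ), NPC.Poly V ∧
      (∀ x θ, SndOn A D c cs W θ (fun z => z.length ≤ Nk.eval x.length) → x ∈ L →
        V (x, θ) = true) ∧
      (∀ x θ, (∀ z : List Bool, z.length ≤ Nk.eval x.length →
        (W (θ, (z, []))).isSome = true) → x ∉ L → V (x, θ) = false) := by
  obtain ⟨Dv, hDv⟩ := t_PAD L hL
  obtain ⟨F, Ks, r, hF, hKs, hr, hans⟩ :=
    parallel_T A hA D c hcs hW rW hrW (lang (Qry Dv)) (c_NPQ Dv)
  obtain ⟨S, hS⟩ := good_size
  obtain ⟨pq, hpq⟩ := (c_PQL Dv).sz_le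
  obtain ⟨pK, hpK⟩ := hKs.sz_le
  obtain ⟨u1, hu1⟩ := t_LG (r.comp (pq.comp S))
  set u0 : ℕ := max 2 u1 with hu0
  have hsz : ∀ x i s, i ≤ par Dv u0 x ^ 3 + 1 → Good x (par Dv u0 x) i s →
      sz (qlist Dv s) ≤ (pq.comp S).eval (par Dv u0 x) := by
    intro x i s hi hg
    have h1 := hS x _ i s (by unfold par; omega) (by unfold par; omega) hi hg
    rw [Polynomial.eval_comp]
    exact (hpq s).trans (eval_mono pq h1)
  have hlen : ∀ x tc i s, i ≤ par Dv u0 x ^ 3 + 1 → Good x (par Dv u0 x) i s →
      32 * (Nat.log 2 (F (tc, qlist Dv s)).length + 1) ≤ par Dv u0 x := by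
    intro x tc i s hi hg
    have h1 := hsz x i s hi hg
    have h2 := (hr tc (qlist Dv s)).trans (eval_mono r h1)
    rw [← Polynomial.eval_comp] at h2
    exact le_trans (Nat.mul_le_mul_left _ (Nat.succ_le_succ (Nat.log_mono_right h2)))
      (hu1 _ (by unfold par; omega))
  have hpar := pac_par Dv u0
  obtain ⟨pp, hpp⟩ := Pool.Agent.W920.LN.upoly_bound hpar
  set M : Polynomial ℕ := (pK.comp (pq.comp S)).comp pp with hM
  have hKsz : ∀ x i s, i ≤ par Dv u0 x ^ 3 + 1 → Good x (par Dv u0 x) i s →
      sz (Ks (qlist Dv s)) ≤ M.eval x.length := by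
    intro x i s hi hg
    have h1 := (hpK (qlist Dv s)).trans (eval_mono pK (hsz x i s hi hg))
    rw [← Polynomial.eval_comp] at h1
    rw [hM, Polynomial.eval_comp]
    exact h1.trans (eval_mono _ (hpp x))
  have hKz : ∀ x i s, i ≤ par Dv u0 x ^ 3 + 1 → Good x (par Dv u0 x) i s →
      ∀ z ∈ Ks (qlist Dv s), z.length ≤ M.eval x.length := by
    intro x i s hi hg z hz
    have e1 := sz_le_of_mem hz
    have e2 := length_lt_sz z
    have e3 := hKsz x i s hi hg
    omega
  have hV := vrf_poly Dv hF hKs hW u0 (by omega) hlen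
  have hnum : UPoly (fun x => par Dv u0 x ^ 3 + 1) := by
    have := UPoly.eval hpar (Polynomial.X ^ 3 + 1)
    simpa only [Polynomial.eval_add, Polynomial.eval_pow, Polynomial.eval_X,
      Polynomial.eval_one] using this
  have e1 : NPC.Poly (fun q : List Bool × List (List Bool) => q.1) := NPC.Poly.fst NPC.Poly.id
  have hrep : NPC.Poly (fun q : List Bool × List (List Bool) =>
      List.replicate (par Dv u0 q.1 ^ 3 + 1) ([] : Tb)) := by
    refine (NPC.Poly.map (l := fun q : List Bool × List (List Bool) =>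
      List.range (par Dv u0 q.1 ^ 3 + 1)) (F := fun _ _ => ([] : Tb)) (hnum.comp e1).range
      (NPC.Poly.const [])).congr fun q => ?_
    rw [List.map_const', List.length_range]
  refine ⟨fun q => !(vrf Dv F Ks W u0 (q.1, (q.2,
    List.replicate (par Dv u0 q.1 ^ 3 + 1) ([] : Tb)))), M, ?_, ?_, ?_⟩
  · exact NPC.Poly.not (hV.comp (NPC.Poly.pair e1 (NPC.Poly.pair (NPC.Poly.snd NPC.Poly.id) hrep)))
  · intro x θ hs hx
    simp only
    rw [Bool.not_eq_true']
    by_contra hcon
    rw [Bool.not_eq_false] at hcon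
    set tbs : List Tb := List.replicate (par Dv u0 x ^ 3 + 1) ([] : Tb) with htbs
    unfold vrf at hcon
    rw [Bool.and_eq_true, decide_eq_true_eq] at hcon
    simp only at hcon
    obtain ⟨h1, h2⟩ := hcon
    rw [← h1, List.take_length, foldl_stp, Bool.true_and] at h2
    obtain ⟨w0, hw1, hw2⟩ := (hDv x).1 hx
    have h3 := ok_sound (D := Dv) (F := F) (Ks := Ks) (W := W) (x := x) (u := par Dv u0 x)
      (by unfold par; omega) (by unfold par; omega) θ (hlen x) (fun tb i s hi hg hv =>
        hans (θ, tb) (qlist Dv s) hv (hs.mono fun z hz => hKz x i s hi hg z hz))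
      tbs 0 (ini Dv u0 x) (good_ini Dv u0 x) ⟨w0, hw1, hw2, rfl⟩
      (by intro h; rw [h] at h1; simp at h1) (by omega)
    rw [h2] at h3
    exact Bool.false_ne_true h3.symm
  · intro x θ htot hx
    have hno : ∀ w : List Bool, w.length = Dv.n x → Dv.V x w = false := by
      intro w hw
      by_contra hcon
      rw [Bool.not_eq_false] at hcon
      exact hx ((hDv x).2 ⟨w, hw, hcon⟩)
    have h3 := ok_complete_nil (D := Dv) (F := F) (Ks := Ks) (W := W) (x := x)
      (u := par Dv u0 x) (by unfold par; omega) (by unfold par; omega) θ (hlen x) hno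
      (fun i s hi hg z hz => by
        unfold valid go
        rw [lk_nil]
        exact htot z (hKz x i s hi hg z hz))
      (par Dv u0 x ^ 3 + 1) 0 (ini Dv u0 x) (good_ini Dv u0 x) (by omega)
    simp only
    rw [Bool.not_eq_false']
    unfold vrf
    simp only
    have h1 : (List.replicate (par Dv u0 x ^ 3 + 1) ([] : Tb)).length = par Dv u0 x ^ 3 + 1 :=
      List.length_replicate
    rw [h1, decide_eq_true rfl, Bool.true_and]
    have h4 : (List.replicate (par Dv u0 x ^ 3 + 1) ([] : Tb)).take (par Dv u0 x ^ 3 + 1) =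
        List.replicate (par Dv u0 x ^ 3 + 1) ([] : Tb) := by
      rw [List.take_replicate, min_self]
    rw [h4, foldl_stp, h3]
    rfl

end Pool.Agent.W920.NL
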