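import Pool.Agent.W901.AT.DefsP

/-!
# `NP/poly` and nondeterministic predictions with advice

Polynomial time is Mathlib's `Turing.TM2ComputableInPolyTime` (through `Pool.Agent.NPC.PolyTime`);
`InNP` is that of `Pool.Agent.NPC.Defs`, `Beats` that of `Pool.Agent.W901.AT.DefsP`.
-/

set_option autoImplicit false

namespace Pool.Agent.W920.NL

open Pool.Agent.NPC Pool.Agent.W901.AT

/-- `S ∈ NP/poly`: there are a set `L` in `NP` and advice strings `a n` of polynomial length such
that `x ∈ S` if and only if `(x, a |x|) ∈ L`. -/
def InNPPoly (S : Set (List Bool)) : Prop :=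
  ∃ (L : Set (List Bool)) (a : ℕ → List Bool) (r : Polynomial ℕ), InNP L ∧
    (∀ n, (a n).length ≤ r.eval n) ∧ ∀ x, x ∈ S ↔ pairBits x (a x.length) ∈ L

/-- `h` is an output on the input `z` with the advice `a`: for some guess `w` of length at most
`p |z|`, `g ((z, a |z|), w) = some h`. -/
def AdvOutputs (g : List Bool → Option (List (Option Bool))) (a : ℕ → List Bool)
    (p : Polynomial ℕ) (z : List Bool) (h : List (Option Bool)) : Prop :=
  ∃ w : List Bool, w.length ≤ p.eval z.length ∧ g (pairBits (pairBits z (a z.length)) w) = some h

/-- `A` is nondeterministically `(δ, ε)`-predictable with advice: there are a total nondeterministic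
polynomial-time algorithm with advice of polynomial length (with its advice it has at least one
output for every input) which, given a nonempty list of `m` questions about membership in `A`, each
of length at most `m ^ ε`, and `b (⌊log₂ n⌋ + 1)` bits of information about the list from any source
(`n` is the length of the code of the list), has only outputs which beat random guessing by `m ^ δ`
standard deviations. -/
def AdvPredictable (δ ε : ℝ) (A : Set (List Bool)) : Prop :=
  ∃ (g : List Bool → Option (List (Option Bool))) (a : ℕ → List Bool) (p r : Polynomial ℕ)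
    (u : List (List Bool) → List Bool) (b : ℕ),
    PolyTime (fun z => bits (g z)) ∧ (∀ n, (a n).length ≤ r.eval n) ∧
    (∀ z, ∃ h, AdvOutputs g a p z h) ∧
    (∀ qs, (u qs).length = b * (Nat.log 2 (bits qs).length + 1)) ∧
      ∀ qs : List (List Bool), qs ≠ [] → (∀ y ∈ qs, (y.length : ℝ) ≤ (qs.length : ℝ) ^ ε) →
        ∀ h, AdvOutputs g a p (pairBits (bits qs) (u qs)) h → Beats δ A qs h

/-- `A` is nondeterministically fully `δ`-predictable with advice: the same with predictions for all
questions, and for all nonempty lists of questions of any length. -/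
def AdvFullyPredictable (δ : ℝ) (A : Set (List Bool)) : Prop :=
  ∃ (g : List Bool → Option (List (Option Bool))) (a : ℕ → List Bool) (p r : Polynomial ℕ)
    (u : List (List Bool) → List Bool) (b : ℕ),
    PolyTime (fun z => bits (g z)) ∧ (∀ n, (a n).length ≤ r.eval n) ∧
    (∀ z, ∃ h, AdvOutputs g a p z h) ∧
    (∀ qs, (u qs).length = b * (Nat.log 2 (bits qs).length + 1)) ∧
      ∀ qs : List (List Bool), qs ≠ [] →
        ∀ h, AdvOutputs g a p (pairBits (bits qs) (u qs)) h → Beats δ A qs h ∧ ∀ t ∈ h, t ≠ none

end Pool.Agent.W920.NL
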