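import Pool.Agent.W920.NL.LawAM
import Pool.Agent.W920.NL.DefsAdv

/-!
# Nondeterministic prediction of `NP`-hard sets with advice and `coNP ⊆ NP/poly`
-/

set_option autoImplicit false

namespace Pool.Agent.W920.NL

open Pool.Agent.NPC Pool.Agent.H251R5.PQ Pool.Agent.W901.AT Pool.Agent.H579R2.Spt
open Pool.Agent.W920.LN (Tb lk good_of_beats inNP_of)

/-- all advice strings for lengths up to `N` -/
def avs (a : ℕ → List Bool) (N : ℕ) : List (List Bool) := (List.range (N + 1)).map a

theorem avs_getD (a : ℕ → List Bool) {N i : ℕ} (hi : i ≤ N) : (avs a N).getD i [] = a i := by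
  unfold avs
  rw [List.getD_eq_getElem?_getD, List.getElem?_map, List.getElem?_range (by omega)]
  rfl

theorem avs_sz {a : ℕ → List Bool} {r : Polynomial ℕ} (ha : ∀ n, (a n).length ≤ r.eval n) (N : ℕ) :
    sz (avs a N) ≤ (N + 1) * (4 * r.eval N + 2) + 1 := by
  have h1 := sz_le_length_mul (avs a N) (4 * r.eval N + 1) (fun v hv => by
    obtain ⟨i, hi, rfl⟩ := List.mem_map.1 hv
    have h2 := List.mem_range.1 hi
    have h3 := sz_listBool_le (a i)
    have h4 := ha i
    have h5 := eval_mono r (show i ≤ N by omega)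
    omega)
  have h2 : (avs a N).length = N + 1 := by simp [avs]
  rw [h2] at h1
  have h3 : (N + 1) * (4 * r.eval N + 1 + 1) = (N + 1) * (4 * r.eval N + 2) := by ring
  omega

/-- the reader of a nondeterministic predictor with advice -/
def rdV (g : List Bool → Option (List (Option Bool))) (p : Polynomial ℕ) : Rd := fun q =>
  bif decide (q.2.2.length ≤ p.eval q.2.1.length) then
    (g (pairBits (pairBits q.2.1 (q.1.getD q.2.1.length [])) q.2.2)).elim none fun h => some [h]
  else none

theorem rdV_poly {g : List Bool → Option (List (Option Bool))} (hg : NPC.Poly g)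
    (p : Polynomial ℕ) : NPC.Poly (rdV g p) := by
  have e0 : NPC.Poly (fun q : List (List Bool) × (List Bool × List Bool) => q.1) :=
    NPC.Poly.fst NPC.Poly.id
  have e1 : NPC.Poly (fun q : List (List Bool) × (List Bool × List Bool) => q.2.1) :=
    NPC.Poly.fst (NPC.Poly.snd NPC.Poly.id)
  have e2 : NPC.Poly (fun q : List (List Bool) × (List Bool × List Bool) => q.2.2) :=
    NPC.Poly.snd (NPC.Poly.snd NPC.Poly.id)
  have ea : NPC.Poly (fun q : List (List Bool) × (List Bool × List Bool) =>
      q.1.getD q.2.1.length []) :=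
    NPC.Poly.getD e0 (NPC.Poly.length e1) (NPC.Poly.const [])
  have e3 : NPC.Poly (fun q : List (List Bool) × (List Bool × List Bool) =>
      (g (pairBits (pairBits q.2.1 (q.1.getD q.2.1.length [])) q.2.2)).elim none
        fun h => some [h]) :=
    (NPC.Poly.optCases (o := fun q : List (List Bool) × (List Bool × List Bool) =>
      g (pairBits (pairBits q.2.1 (q.1.getD q.2.1.length [])) q.2.2)) (g := fun _ => none)
      (h := fun _ h => some [h])
      (hg.comp (H622R2.poly_pairBits (H622R2.poly_pairBits e1 ea) e2)) (NPC.Poly.const none)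
      (NPC.Poly.some (NPC.Poly.cons (NPC.Poly.snd NPC.Poly.id) (NPC.Poly.const [])))).congr
      fun q => by
        cases g (pairBits (pairBits q.2.1 (q.1.getD q.2.1.length [])) q.2.2) <;> rfl
  exact NPC.Poly.cond (NPC.Poly.decide_le (NPC.Poly.length e2)
    ((UPoly.length e1).eval p).toPoly) e3 (NPC.Poly.const none)

theorem rdV_some {g : List Bool → Option (List (Option Bool))} {p : Polynomial ℕ}
    {θ : List (List Bool)} {z w : List Bool} {l : List (List (Option Bool))}
    (h : rdV g p (θ, (z, w)) = some l) :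
    ∃ h, l = [h] ∧ w.length ≤ p.eval z.length ∧
      g (pairBits (pairBits z (θ.getD z.length [])) w) = some h := by
  unfold rdV at h
  simp only at h
  by_cases hw : w.length ≤ p.eval z.length
  · rw [decide_eq_true hw, cond_true] at h
    cases hg : g (pairBits (pairBits z (θ.getD z.length [])) w) with
    | none => simp only [hg, Option.elim] at h; exact absurd h (by simp)
    | some h' =>
      simp only [hg, Option.elim] at h
      exact ⟨h', (Option.some.inj h).symm, hw, rfl⟩
  · rw [decide_eq_false hw, cond_false] at h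
    exact absurd h (by simp)

/-- A nondeterministic predictor with advice of an `NP`-hard set puts the complements of `NP` sets
in `NP/poly`. -/
theorem inNPPoly_of_advpredictable {δ ε : ℝ} (hδ : 0 < δ) (hε : 0 < ε) {A : Set (List Bool)}
    (hA : NPHard A) (h : AdvPredictable δ ε A) {L : Set (List Bool)} (hL : InNP L) :
    InNPPoly Lᶜ := by
  classical
  obtain ⟨g, a, p, r, u, b, hg, ha, hT, hu, hX⟩ := h
  obtain ⟨D, c, hD1, hlen⟩ := exists_consts hδ hε
  set cs : List (List Bool) → List (List Bool) :=
    fun qs => enuStep^[b * (Nat.log 2 (bits qs).length + 1)] [[]] with hcs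
  obtain ⟨V, Nk, q, hV, hs, hc⟩ := core A hA D c (cs := cs) (enu_poly_all b)
    (rdV_poly (poly_of_bits' hg) p) 1 (fun θ z w l h => by
      obtain ⟨h', rfl, -, -⟩ := rdV_some h
      simp) L hL p
  have hRp : NPC.Poly (fun y : List Bool × List Tb =>
      V ((unpair y.1).1, (dl (unpair y.1).2, y.2))) := by
    have e1 : NPC.Poly (fun y : List Bool × List Tb => (unpair y.1).1) :=
      NPC.Poly.fst (poly_unpair.comp (NPC.Poly.fst NPC.Poly.id))
    have e2 : NPC.Poly (fun y : List Bool × List Tb => dl (unpair y.1).2) :=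
      dl_poly.comp (NPC.Poly.snd (poly_unpair.comp (NPC.Poly.fst NPC.Poly.id)))
    exact hV.comp (NPC.Poly.pair e1 (NPC.Poly.pair e2 (NPC.Poly.snd NPC.Poly.id)))
  refine ⟨{y | ∃ tbs : List Tb, sz tbs ≤ q.eval y.length ∧
      V ((unpair y).1, (dl (unpair y).2, tbs)) = true},
    fun n => bits (avs a (Nk.eval n)), (Nk + 1) * (Polynomial.C 4 * r.comp Nk + 2) + 1,
    inNP_of (β := List Tb) hRp q fun y => Iff.rfl, fun n => ?_, fun x => ?_⟩
  · rw [bits_length]
    have h1 := avs_sz ha (Nk.eval n)
    simp only [Polynomial.eval_add, Polynomial.eval_mul, Polynomial.eval_C, Polynomial.eval_comp,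
      Polynomial.eval_one, Polynomial.eval_ofNat]
    exact h1
  · change x ∈ Lᶜ ↔ ∃ tbs : List Tb, sz tbs ≤ q.eval _ ∧ V ((unpair _).1, (dl (unpair _).2, tbs)) =
      true
    rw [unpair_pairBits]
    simp only [dl_bits]
    constructor
    · intro hx
      have htot : ∀ z : List Bool, z.length ≤ Nk.eval x.length → ∃ w : List Bool,
          w.length ≤ p.eval z.length ∧
            (rdV g p (avs a (Nk.eval x.length), (z, w))).isSome = true := by
        intro z hz
        obtain ⟨h', w, hw, hgw⟩ := hT z
        refine ⟨w, hw, ?_⟩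
        unfold rdV
        simp only
        rw [decide_eq_true hw, cond_true, avs_getD a hz, hgw]
        rfl
      obtain ⟨tbs, ht1, ht2⟩ := hc x (avs a (Nk.eval x.length)) htot hx
      refine ⟨tbs, ht1.trans (eval_mono q ?_), ht2⟩
      have h1 := unpair_fst_length (pairBits x (bits (avs a (Nk.eval x.length))))
      rwa [unpair_pairBits] at h1
    · rintro ⟨tbs, -, htbs⟩ hx
      have h1 := hs x (avs a (Nk.eval x.length)) ?_ hx tbs
      · rw [htbs] at h1
        exact Bool.false_ne_true h1.symm
      intro qs hq1 hq2 hq3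
      have hkey : pairBits (bits qs) (u qs) ∈ kys cs qs :=
        List.mem_map.2 ⟨u qs, enu_mem _ _ (hu qs), rfl⟩
      have hkN := hq3 _ hkey
      refine ⟨_, hkey, fun w l hl => ?_⟩
      obtain ⟨h', rfl, hw, hgw⟩ := rdV_some hl
      rw [avs_getD a hkN] at hgw
      exact ⟨h', List.mem_singleton_self _, good_of_beats hD1 hq1
        (hX qs hq1 (hlen qs hq1 hq2) h' ⟨w, hw, hgw⟩)⟩

/-- The checker for the second kind of certificates. -/
def ckV (V : List Bool → List Bool) (p : Polynomial ℕ) : Ck := fun q =>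
  ver V p (pairBits q.2.1 (q.1.getD q.2.1.length [])) q.2.2

theorem ckV_poly {V : List Bool → List Bool} (hV : PolyTime V) (p : Polynomial ℕ) :
    NPC.Poly (ckV V p) := by
  have e0 : NPC.Poly (fun q : List (List Bool) × (List Bool × List Bool) => q.1) :=
    NPC.Poly.fst NPC.Poly.id
  have e1 : NPC.Poly (fun q : List (List Bool) × (List Bool × List Bool) => q.2.1) :=
    NPC.Poly.fst (NPC.Poly.snd NPC.Poly.id)
  have e2 : NPC.Poly (fun q : List (List Bool) × (List Bool × List Bool) => q.2.2) :=
    NPC.Poly.snd (NPC.Poly.snd NPC.Poly.id)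
  have ea : NPC.Poly (fun q : List (List Bool) × (List Bool × List Bool) =>
      q.1.getD q.2.1.length []) :=
    NPC.Poly.getD e0 (NPC.Poly.length e1) (NPC.Poly.const [])
  exact (ver_poly hV p).comp (NPC.Poly.pair (H622R2.poly_pairBits e1 ea) e2)

theorem pairBits_len (x w : List Bool) : (pairBits x w).length = 2 * x.length + w.length + 1 := by
  unfold pairBits
  rw [List.length_append, List.length_flatMap, List.length_cons]
  simp
  ring

/-- If `A` is in `NP` and its complement is in `NP/poly` then `A` is nondeterministically fully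
predictable with advice. -/
theorem advfully_of_both {δ : ℝ} (hδ : δ ≤ 1 / 2) {A : Set (List Bool)} (hA : InNP A)
    (hA' : InNPPoly Aᶜ) : AdvFullyPredictable δ A := by
  classical
  obtain ⟨V1, p1, hV1, hA1⟩ := hA
  obtain ⟨L, a, r, ⟨V2, p2, hV2, hL⟩, ha, hA2⟩ := hA'
  set C1 : Ck := fun q => ver V1 p1 q.2.1 q.2.2 with hC1
  have hC1p : NPC.Poly C1 := (ver_poly hV1 p1).comp (NPC.Poly.snd NPC.Poly.id)
  have hC2p : NPC.Poly (ckV V2 p2) := ckV_poly hV2 p2
  have hgp : NPC.Poly (fun y : List Bool => gg C1 (ckV V2 p2)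
      (dl (unpair (unpair y).1).2, ((unpair (unpair y).1).1, (unpair y).2))) := by
    have e1 : NPC.Poly (fun y : List Bool => (unpair (unpair y).1).1) :=
      NPC.Poly.fst (poly_unpair.comp (NPC.Poly.fst poly_unpair))
    have e2 : NPC.Poly (fun y : List Bool => dl (unpair (unpair y).1).2) :=
      dl_poly.comp (NPC.Poly.snd (poly_unpair.comp (NPC.Poly.fst poly_unpair)))
    exact (gg_poly hC1p hC2p).comp (NPC.Poly.pair e2 (NPC.Poly.pair e1
      (NPC.Poly.snd poly_unpair)))
  set N0 : Polynomial ℕ := p2.comp (Polynomial.C 2 * Polynomial.X + r + 1) + p1 with hN0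
  have eN0 : ∀ n : ℕ, N0.eval n = p2.eval (2 * n + r.eval n + 1) + p1.eval n := fun n => by
    rw [hN0]; simp
  have hs1 : ∀ q w, ver V1 p1 q w = true → q ∈ A := fun q w h => (hA1 q).2 ⟨w, ver_iff.1 h⟩
  refine ⟨fun y => gg C1 (ckV V2 p2)
      (dl (unpair (unpair y).1).2, ((unpair (unpair y).1).1, (unpair y).2)),
    fun n => bits (avs a n),
    Polynomial.C 4 * Polynomial.X + Polynomial.X * (Polynomial.C 4 * N0 + 2) + 3,
    (Polynomial.X + 1) * (Polynomial.C 4 * r + 2) + 1,
    fun _ => [], 0, polyTime_bits hgp, fun n => ?_, fun z => ?_, fun qs => by simp, ?_⟩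
  · rw [bits_length]
    have h1 := avs_sz ha n
    simp only [Polynomial.eval_add, Polynomial.eval_mul, Polynomial.eval_C, Polynomial.eval_X,
      Polynomial.eval_one, Polynomial.eval_ofNat]
    exact h1
  · obtain ⟨hz1, hz2⟩ := lst_le z
    obtain ⟨w, hw1, hw2⟩ := gg_complete (V1 := C1) (V2 := ckV V2 p2) (A := A)
      (θ := avs a z.length) z (N0.eval z.length) (fun q hq hqA => by
        obtain ⟨w, hw⟩ := (hA1 q).1 hqA
        have h1 := eval_mono p1 (hz2 q hq)
        refine ⟨w, ?_, ver_iff.2 hw⟩
        rw [eN0]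
        have := hw.1
        omega) (fun q hq hqA => by
        have hql := hz2 q hq
        obtain ⟨w, hw⟩ := (hL _).1 ((hA2 q).1 hqA)
        refine ⟨w, ?_, ?_⟩
        · rw [eN0]
          have h1 := hw.1
          rw [pairBits_len] at h1
          have h2 := ha q.length
          have h3 := eval_mono r hql
          have h4 := eval_mono p2 (show 2 * q.length + (a q.length).length + 1 ≤
            2 * z.length + r.eval z.length + 1 by omega)
          omega
        · unfold ckV
          simp only
          rw [avs_getD a hql]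
          exact ver_iff.2 hw)
    refine ⟨(answers A (lst z)).map some, w, ?_, ?_⟩
    · simp only [Polynomial.eval_add, Polynomial.eval_mul, Polynomial.eval_C, Polynomial.eval_X,
        Polynomial.eval_ofNat]
      have h1 : (lst z).length * (4 * N0.eval z.length + 2) ≤
          z.length * (4 * N0.eval z.length + 2) := Nat.mul_le_mul_right _ hz1
      omega
    · simp only [unpair_pairBits, dl_bits]
      exact hw2
  · rintro qs hqs h ⟨w, -, hw⟩
    set z : List Bool := pairBits (bits qs) ([] : List Bool) with hz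
    simp only [unpair_pairBits, dl_bits] at hw
    have hlz : lst z = qs := by
      unfold lst
      rw [hz]
      simp only [unpair_pairBits, unbits_bits, Option.getD_some]
    obtain ⟨hz1, hz2⟩ := lst_le z
    have h4 := gg_sound (A := A) (fun q _ w h => hs1 q w h) (fun q hq w hC => ?_) hw
    · rw [hlz] at h4
      rw [h4]
      exact beats_self hδ hqs
    · have hql := hz2 q hq
      unfold ckV at hC
      simp only at hC
      rw [avs_getD a hql] at hC
      exact (hA2 q).2 ((hL _).2 ⟨w, ver_iff.1 hC⟩)

theorem AdvFullyPredictable.advpredictable {δ : ℝ} {A : Set (List Bool)}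
    (h : AdvFullyPredictable δ A) (ε : ℝ) : AdvPredictable δ ε A := by
  obtain ⟨g, a, p, r, u, b, hg, ha, hT, hu, hX⟩ := h
  exact ⟨g, a, p, r, u, b, hg, ha, hT, hu, fun qs hqs _ h hh => (hX qs hqs h hh).1⟩

/-- **The law of nondeterministic prediction with advice for `NP`-hard sets.** -/
theorem adv_law {δ ε : ℝ} (h1 : 0 < δ) (h2 : δ ≤ 1 / 2) (h3 : 0 < ε) : List.TFAE
    [∀ L : Set (List Bool), InNP L → InNPPoly Lᶜ,
      ∃ A : Set (List Bool), NPHard A ∧ AdvPredictable δ ε A,
      ∀ A : Set (List Bool), InNP A → AdvFullyPredictable δ A] := by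
  tfae_have 1 → 3 := fun h A hA => advfully_of_both h2 hA (h A hA)
  tfae_have 3 → 2 := fun h => by
    obtain ⟨hA1, hA2⟩ := Pool.Agent.NPC.H545KS.sat_complete
    exact ⟨_, hA2, (h _ hA1).advpredictable ε⟩
  tfae_have 2 → 1 := fun ⟨A, hA, h⟩ L hL => inNPPoly_of_advpredictable h1 h3 hA h hL
  tfae_finish

end Pool.Agent.W920.NL
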