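import Pool.Agent.W920.NL.Full
import Pool.Agent.W920.LN.Main

/-!
# Nondeterministic prediction of `NP`-hard sets and `NP = coNP`
-/

set_option autoImplicit false

namespace Pool.Agent.W920.NL

open Pool.Agent.NPC Pool.Agent.H251R5.PQ Pool.Agent.W901.AT Pool.Agent.H579R2.Spt
open Pool.Agent.W920.LN (Tb lk Outputs NPredictable NFullyPredictable nCor_of_npredictable
  inNP_of NFullyPredictable.npredictable)

/-- the reader of a nondeterministic predictor -/
def rd1 (g : List Bool → Option (List (Option Bool))) (p : Polynomial ℕ) : Rd := fun q =>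
  bif decide (q.2.2.length ≤ p.eval q.2.1.length) then
    (g (pairBits q.2.1 q.2.2)).elim none fun h => some [h] else none

theorem rd1_poly {g : List Bool → Option (List (Option Bool))} (hg : NPC.Poly g)
    (p : Polynomial ℕ) : NPC.Poly (rd1 g p) := by
  have e1 : NPC.Poly (fun q : List (List Bool) × (List Bool × List Bool) => q.2.1) :=
    NPC.Poly.fst (NPC.Poly.snd NPC.Poly.id)
  have e2 : NPC.Poly (fun q : List (List Bool) × (List Bool × List Bool) => q.2.2) :=
    NPC.Poly.snd (NPC.Poly.snd NPC.Poly.id)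
  have e3 : NPC.Poly (fun q : List (List Bool) × (List Bool × List Bool) =>
      (g (pairBits q.2.1 q.2.2)).elim none fun h => some [h]) :=
    (NPC.Poly.optCases (o := fun q : List (List Bool) × (List Bool × List Bool) =>
      g (pairBits q.2.1 q.2.2)) (g := fun _ => none) (h := fun _ h => some [h])
      (hg.comp (H622R2.poly_pairBits e1 e2)) (NPC.Poly.const none)
      (NPC.Poly.some (NPC.Poly.cons (NPC.Poly.snd NPC.Poly.id) (NPC.Poly.const [])))).congr
      fun q => by cases g (pairBits q.2.1 q.2.2) <;> rfl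
  exact NPC.Poly.cond (NPC.Poly.decide_le (NPC.Poly.length e2)
    ((UPoly.length e1).eval p).toPoly) e3 (NPC.Poly.const none)

theorem rd1_some {g : List Bool → Option (List (Option Bool))} {p : Polynomial ℕ}
    {θ : List (List Bool)} {z w : List Bool} {l : List (List (Option Bool))}
    (h : rd1 g p (θ, (z, w)) = some l) :
    ∃ h, l = [h] ∧ w.length ≤ p.eval z.length ∧ g (pairBits z w) = some h := by
  unfold rd1 at h
  simp only at h
  by_cases hw : w.length ≤ p.eval z.length
  · rw [decide_eq_true hw, cond_true] at h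
    cases hg : g (pairBits z w) with
    | none => simp only [hg, Option.elim] at h; exact absurd h (by simp)
    | some h' =>
      simp only [hg, Option.elim] at h
      exact ⟨h', (Option.some.inj h).symm, hw, rfl⟩
  · rw [decide_eq_false hw, cond_false] at h
    exact absurd h (by simp)

/-- A nondeterministic predictor of an `NP`-hard set puts the complements of `NP` sets in `NP`. -/
theorem compl_of_npredictable {δ ε : ℝ} (hδ : 0 < δ) (hε : 0 < ε) {A : Set (List Bool)}
    (hA : NPHard A) (h : NPredictable δ ε A) {L : Set (List Bool)} (hL : InNP L) : InNP Lᶜ := by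
  obtain ⟨D, c, cs, g, p, hcs, hg, hT, hX⟩ := nCor_of_npredictable hδ hε h
  obtain ⟨V, Nk, q, hV, hs, hc⟩ := core A hA D c hcs (rd1_poly hg p) 1 (fun θ z w l h => by
    obtain ⟨h', rfl, -, -⟩ := rd1_some h
    simp) L hL p
  have hsnd : ∀ K : List Bool → Prop, SndOn A D c cs (rd1 g p) [] K := by
    intro K qs h1 h2 _
    obtain ⟨t, ht, hgt⟩ := hX qs h1 h2
    refine ⟨_, List.mem_map.2 ⟨t, ht, rfl⟩, fun w l hl => ?_⟩
    obtain ⟨h', rfl, hw, hgw⟩ := rd1_some hl
    exact ⟨h', List.mem_singleton_self _, hgt h' ⟨w, hw, hgw⟩⟩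
  refine inNP_of (β := List Tb) (R := fun y => V (y.1, ([], y.2)))
    (hV.comp (NPC.Poly.pair (NPC.Poly.fst NPC.Poly.id) (NPC.Poly.pair (NPC.Poly.const [])
      (NPC.Poly.snd NPC.Poly.id)))) q fun x => ?_
  constructor
  · intro hx
    refine hc x [] (fun z _ => ?_) hx
    obtain ⟨h', w, hw, hgw⟩ := hT z
    refine ⟨w, hw, ?_⟩
    unfold rd1
    simp only
    rw [decide_eq_true hw, cond_true, hgw]
    rfl
  · rintro ⟨tbs, -, htbs⟩ hx
    have h1 := hs x [] (hsnd _) hx tbs
    simp only at htbs
    rw [htbs] at h1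
    exact Bool.false_ne_true h1.symm

theorem beats_self {δ : ℝ} (hδ : δ ≤ 1 / 2) {A : Set (List Bool)} {qs : List (List Bool)}
    (hqs : qs ≠ []) : Beats δ A qs ((answers A qs).map some) ∧
      ∀ a ∈ (answers A qs).map some, a ≠ none := by
  have hl : (answers A qs).length = qs.length := by simp [answers]
  have hm : 1 ≤ qs.length := length_pos hqs
  have hm1 : (1 : ℝ) ≤ qs.length := by exact_mod_cast hm
  refine ⟨⟨by rw [List.length_map, hl], by rw [made_eq_nans, nans_some, hl]; omega, ?_⟩,
    fun a ha => ?_⟩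
  · rw [excess_self, made_eq_nans, nans_some, hl, Int.cast_natCast,
      abs_of_nonneg (by positivity)]
    calc (qs.length : ℝ) ^ δ * Real.sqrt qs.length
        ≤ (qs.length : ℝ) ^ ((1 : ℝ) / 2) * Real.sqrt qs.length :=
          mul_le_mul_of_nonneg_right (Real.rpow_le_rpow_of_exponent_le hm1 hδ)
            (Real.sqrt_nonneg _)
      _ = Real.sqrt qs.length * Real.sqrt qs.length := by rw [← Real.sqrt_eq_rpow]
      _ = qs.length := Real.mul_self_sqrt (by positivity)
  · obtain ⟨i, _, rfl⟩ := List.mem_map.1 ha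
    simp

/-- If `A` and its complement are in `NP` then `A` is nondeterministically fully predictable. -/
theorem nfully_of_both {δ : ℝ} (hδ : δ ≤ 1 / 2) {A : Set (List Bool)} (hA : InNP A)
    (hA' : InNP Aᶜ) : NFullyPredictable δ A := by
  obtain ⟨V1, p1, hV1, hA1⟩ := hA
  obtain ⟨V2, p2, hV2, hA2⟩ := hA'
  set C1 : Ck := fun q => ver V1 p1 q.2.1 q.2.2 with hC1
  set C2 : Ck := fun q => ver V2 p2 q.2.1 q.2.2 with hC2
  have hC1p : NPC.Poly C1 := (ver_poly hV1 p1).comp (NPC.Poly.snd NPC.Poly.id)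
  have hC2p : NPC.Poly C2 := (ver_poly hV2 p2).comp (NPC.Poly.snd NPC.Poly.id)
  have hs1 : ∀ q w, C1 ([], (q, w)) = true → q ∈ A := fun q w h =>
    (hA1 q).2 ⟨w, ver_iff.1 h⟩
  have hs2 : ∀ q w, C2 ([], (q, w)) = true → q ∉ A := fun q w h =>
    (hA2 q).2 ⟨w, ver_iff.1 h⟩
  have hgp : NPC.Poly (fun y : List Bool => gg C1 C2 ([], unpair y)) :=
    (gg_poly hC1p hC2p).comp (NPC.Poly.pair (NPC.Poly.const []) poly_unpair)
  refine ⟨fun y => gg C1 C2 ([], unpair y),
    Polynomial.C 4 * Polynomial.X + Polynomial.X * (Polynomial.C 4 * (p1 + p2) + 2) + 3,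
    fun _ => [], 0, polyTime_bits hgp, fun z => ?_, fun qs => by simp, ?_⟩
  · obtain ⟨hz1, hz2⟩ := lst_le z
    obtain ⟨w, hw1, hw2⟩ := gg_complete (V1 := C1) (V2 := C2) (A := A) (θ := []) z
      (p1.eval z.length + p2.eval z.length) (fun q hq hqA => by
        obtain ⟨w, hw⟩ := (hA1 q).1 hqA
        have h1 := eval_mono p1 (hz2 q hq)
        exact ⟨w, by have := hw.1; omega, ver_iff.2 hw⟩) (fun q hq hqA => by
        obtain ⟨w, hw⟩ := (hA2 q).1 hqA
        have h1 := eval_mono p2 (hz2 q hq)
        exact ⟨w, by have := hw.1; omega, ver_iff.2 hw⟩)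
    refine ⟨(answers A (lst z)).map some, w, ?_, ?_⟩
    · simp only [Polynomial.eval_add, Polynomial.eval_mul, Polynomial.eval_C, Polynomial.eval_X,
        Polynomial.eval_ofNat]
      have h1 : (lst z).length * (4 * (p1.eval z.length + p2.eval z.length) + 2) ≤
          z.length * (4 * (p1.eval z.length + p2.eval z.length) + 2) :=
        Nat.mul_le_mul_right _ hz1
      omega
    · simp only [unpair_pairBits]
      exact hw2
  · rintro qs hqs h ⟨w, -, hw⟩
    simp only [unpair_pairBits] at hw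
    have hl : lst (pairBits (bits qs) ([] : List Bool)) = qs := by
      unfold lst
      simp only [unpair_pairBits, unbits_bits, Option.getD_some]
    have h1 := gg_sound (A := A) (fun q _ w => hs1 q w) (fun q _ w => hs2 q w) hw
    rw [hl] at h1
    rw [h1]
    exact beats_self hδ hqs

/-- **The law of nondeterministic prediction for `NP`-hard sets.** -/
theorem conp_law {δ ε : ℝ} (h1 : 0 < δ) (h2 : δ ≤ 1 / 2) (h3 : 0 < ε) : List.TFAE
    [∀ L : Set (List Bool), InNP L → InNP Lᶜ,
      ∃ A : Set (List Bool), NPHard A ∧ NPredictable δ ε A,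
      ∀ A : Set (List Bool), InNP A → NFullyPredictable δ A] := by
  tfae_have 1 → 3 := fun h A hA => nfully_of_both h2 hA (h A hA)
  tfae_have 3 → 2 := fun h => by
    obtain ⟨hA1, hA2⟩ := Pool.Agent.NPC.H545KS.sat_complete
    exact ⟨_, hA2, (h _ hA1).npredictable ε⟩
  tfae_have 2 → 1 := fun ⟨A, hA, h⟩ L hL => compl_of_npredictable h1 h3 hA h hL
  tfae_finish

end Pool.Agent.W920.NL
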