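import Pool.Agent.W920.LN.Cand
import Pool.Agent.W901.AT.ParA

/-!
# Candidate lists with the help of a parameter and a table of guessed witnesses
-/

set_option autoImplicit false

namespace Pool.Agent.W920.NL

open Pool.Agent.NPC Pool.Agent.H579R2.Spt Pool.Agent.H251R5.PQ Pool.Agent.W901.AT
open Pool.Agent.W920.LN (Tb lk lk_poly isSome_poly upoly_bound allc_length)

/-- a parameter (for each length a string) and a table of witnesses -/
abbrev Tc := List (List Bool) × Tb

/-- Readers: from the parameter, a key and a witness to a list of vectors of predictions. -/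
abbrev Rd := List (List Bool) × (List Bool × List Bool) → Option (List (List (Option Bool)))

/-- the output with the witness of the table -/
def go (W : Rd) (tc : Tc) (z : List Bool) : Option (List (List (Option Bool))) :=
  W (tc.1, (z, lk tc.2 z))

/-- The key `z` has a witness in the table. -/
def valid (W : Rd) (tc : Tc) (z : List Bool) : Bool := (go W tc z).isSome

/-- the keys of a session -/
def kys (cs : List (List Bool) → List (List Bool)) (qs : List (List Bool)) : List (List Bool) :=
  (cs qs).map fun t => pairBits (bits qs) t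

/-- all vectors for a session -/
def ET (W : Rd) (cs : List (List Bool) → List (List Bool)) (tc : Tc) (qs : List (List Bool)) :
    List (List (Option Bool)) :=
  (kys cs qs).flatMap fun z => (go W tc z).getD []

theorem go_poly {W : Rd} (hW : Poly W) {α : Type} [TEnc α] {tc : α → Tc} {z : α → List Bool}
    (ht : Poly tc) (hz : Poly z) : Poly (fun a => go W (tc a) (z a)) :=
  hW.comp (NPC.Poly.pair (NPC.Poly.fst ht) (NPC.Poly.pair hz (lk_poly (NPC.Poly.snd ht) hz)))

theorem valid_poly {W : Rd} (hW : Poly W) {α : Type} [TEnc α] {tc : α → Tc} {z : α → List Bool}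
    (ht : Poly tc) (hz : Poly z) : Poly (fun a => valid W (tc a) (z a)) :=
  isSome_poly (go_poly hW ht hz)

theorem kys_poly {cs : List (List Bool) → List (List Bool)} (hcs : Poly cs) : Poly (kys cs) := by
  unfold kys
  refine NPC.Poly.map (l := cs) (F := fun qs t => pairBits (bits qs) t) hcs ?_
  exact H622R2.poly_pairBits (bits_poly.comp (NPC.Poly.fst NPC.Poly.id))
    (NPC.Poly.snd NPC.Poly.id)

theorem eT_poly {W : Rd} (hW : Poly W) {cs : List (List Bool) → List (List Bool)} (hcs : Poly cs)
    {α : Type} [TEnc α] {tc : α → Tc} {qs : α → List (List Bool)} (ht : Poly tc) (hq : Poly qs) :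
    Poly (fun a => ET W cs (tc a) (qs a)) := by
  have e1 : Poly (fun q : α × List Bool => q.1) := NPC.Poly.fst NPC.Poly.id
  have e2 : Poly (fun q : α × List Bool => q.2) := NPC.Poly.snd NPC.Poly.id
  have h1 : Poly (fun a => kys cs (qs a)) := (kys_poly hcs).comp hq
  exact NPC.Poly.flatMap (l := fun a => kys cs (qs a))
    (F := fun a z => (go W (tc a) z).getD []) h1
    (NPC.Poly.optGetD (go_poly hW (ht.comp e1) e2) (NPC.Poly.const []))

/-- the parameter and table part of a session -/
def tbOf (qs : List (List Bool)) : Tc := (unbits Tc (unpair (qs.head?.getD [])).1).getD ([], [])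

/-- the vectors for a session with a table -/
def EP (W : Rd) (cs : List (List Bool) → List (List Bool)) (qs : List (List Bool)) :
    List (List (Option Bool)) :=
  ET W cs (tbOf qs) (qs.map fun y => (unpair y).2)

theorem eP_poly {W : Rd} (hW : Poly W) {cs : List (List Bool) → List (List Bool)}
    (hcs : Poly cs) : Poly (EP W cs) := by
  refine eT_poly hW hcs ?_ ?_
  · exact NPC.Poly.optGetD (poly_unbits.comp (NPC.Poly.fst (poly_unpair.comp
      (NPC.Poly.head?_getD NPC.Poly.id [])))) (NPC.Poly.const ([], []))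
  · exact NPC.Poly.map (l := fun qs : List (List Bool) => qs) (F := fun _ y => (unpair y).2)
      NPC.Poly.id (NPC.Poly.snd (poly_unpair.comp (NPC.Poly.snd NPC.Poly.id)))

/-- the queries with a table -/
def qT (f : List Bool → List Bool)
    (q : ((Tc × List Bool) × List Unit) × (ℕ × (ℕ × (ℕ × (ℕ × ℕ))))) : List Bool :=
  pairBits (bits q.1.1.1) (f (bits ((q.1.1.2, q.1.2), q.2)))

theorem eP_sess (W : Rd)
    (cs : List (List Bool) → List (List Bool)) (f : List Bool → List Bool) {p : ℕ} (hp : 1 ≤ p)
    (P : ℕ) (tc : Tc) (x : List Bool) (ks : List Unit) (j a : ℕ) :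
    EP W cs (sess (qT f) p P ((tc, x), ks) j a) =
      ET W cs tc (sess (fun q => f (bits q)) p P (x, ks) j a) := by
  have h1 : tbOf (sess (qT f) p P ((tc, x), ks) j a) = tc := by
    obtain ⟨p, rfl⟩ : ∃ p', p = p' + 1 := ⟨p - 1, by omega⟩
    unfold tbOf sess
    rw [List.range_succ_eq_map, List.map_cons]
    simp only [List.head?_cons, Option.getD_some, qT, unpair_pairBits, unbits_bits]
  have h2 : (sess (qT f) p P ((tc, x), ks) j a).map (fun y => (unpair y).2) =
      sess (fun q => f (bits q)) p P (x, ks) j a := by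
    unfold sess
    rw [List.map_map]
    refine List.map_congr_left fun i _ => ?_
    simp only [Function.comp, qT, unpair_pairBits]
  unfold EP
  rw [h1, h2]

/-- The soundness of a reader with parameter `θ`, for the sessions all whose keys satisfy `K`. -/
def SndOn (A : Set (List Bool)) (D c : ℕ) (cs : List (List Bool) → List (List Bool)) (W : Rd)
    (θ : List (List Bool)) (K : List Bool → Prop) : Prop :=
  ∀ qs : List (List Bool), qs ≠ [] → (∀ q ∈ qs, q.length ^ c ≤ qs.length) →
    (∀ z ∈ kys cs qs, K z) → ∃ z ∈ kys cs qs, ∀ w l, W (θ, (z, w)) = some l →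
      ∃ h ∈ l, good D h (answers A qs) = true

theorem SndOn.mono {A : Set (List Bool)} {D c : ℕ} {cs : List (List Bool) → List (List Bool)}
    {W : Rd} {θ : List (List Bool)} {K K' : List Bool → Prop} (h : SndOn A D c cs W θ K')
    (hK : ∀ z, K z → K' z) : SndOn A D c cs W θ K :=
  fun qs h1 h2 h3 => h qs h1 h2 fun z hz => hK z (h3 z hz)

theorem allcT_poly {f : List Bool → List Bool} (hf : Poly f)
    {cs : List (List Bool) → List (List Bool)} (hcs : Poly cs) {W : Rd} (hW : Poly W)
    (D k : ℕ) {p P n : List Bool → ℕ} (hp : UPoly p) (hP : UPoly P)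
    (hP1 : ∀ x, 1 ≤ P x) (hn : UPoly n) :
    Poly (fun q : Tc × List Bool => allc (EP W cs) (qT f) D k (p q.2) (P q.2) (n q.2)
      (q, List.replicate k ())) := by
  have hqTp : Poly (qT f) := by
    have e1 : Poly (fun q : ((Tc × List Bool) × List Unit) × (ℕ × (ℕ × (ℕ × (ℕ × ℕ)))) => q.1) :=
      NPC.Poly.fst NPC.Poly.id
    have e2 := NPC.Poly.snd (NPC.Poly.id (α := ((Tc × List Bool) × List Unit) ×
      (ℕ × (ℕ × (ℕ × (ℕ × ℕ))))))
    exact H622R2.poly_pairBits (bits_poly.comp (NPC.Poly.fst (NPC.Poly.fst e1)))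
      (hf.comp (bits_poly.comp (NPC.Poly.pair (NPC.Poly.pair (NPC.Poly.snd (NPC.Poly.fst e1))
        (NPC.Poly.snd e1)) e2)))
  have e0 : Poly (fun z : (Tc × List Bool) × List Unit => z.1.2) :=
    NPC.Poly.snd (NPC.Poly.fst NPC.Poly.id)
  have hG : Poly (fun z : (Tc × List Bool) × List Unit => allc (EP W cs) (qT f) D k
      (p z.1.2) (P z.1.2) (n z.1.2) z) :=
    allc_poly (eP_poly hW hcs) hqTp D k (hp.comp e0) (hP.comp e0) (fun z => hP1 z.1.2)
      (hn.comp e0)
  have h1 : Poly (fun q : Tc × List Bool =>
      ((q, List.replicate k ()) : (Tc × List Bool) × List Unit)) :=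
    NPC.Poly.pair NPC.Poly.id (NPC.Poly.const (List.replicate k ()))
  have h2 := hG.comp h1
  exact h2

/-- all keys used in the search -/
def keys (f : List Bool → List Bool) (cs : List (List Bool) → List (List Bool)) (k p P n : ℕ)
    (x : List Bool) : List (List Bool) :=
  (List.range (n + 1)).flatMap fun j => (List.range P).flatMap fun a =>
    kys cs (sess (fun q => f (bits q)) p P (x, List.replicate k ()) j a)

theorem keys_poly {f : List Bool → List Bool} (hf : Poly f)
    {cs : List (List Bool) → List (List Bool)} (hcs : Poly cs) (k : ℕ) {p P n : List Bool → ℕ}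
    (hp : UPoly p) (hP : UPoly P) (hn : UPoly n) :
    Poly (fun x => keys f cs k (p x) (P x) (n x) x) := by
  unfold keys
  refine NPC.Poly.flatMap (l := fun x : List Bool => List.range (n x + 1))
    (F := fun x j => (List.range (P x)).flatMap fun a =>
      kys cs (sess (fun q => f (bits q)) (p x) (P x) (x, List.replicate k ()) j a))
    (hn.add (UPoly.const 1)).range ?_
  have e1 : Poly (fun q : List Bool × ℕ => q.1) := NPC.Poly.fst NPC.Poly.id
  refine NPC.Poly.flatMap (l := fun q : List Bool × ℕ => List.range (P q.1))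
    (F := fun (q : List Bool × ℕ) a =>
      kys cs (sess (fun q => f (bits q)) (p q.1) (P q.1) (q.1, List.replicate k ()) q.2 a))
    (hP.comp e1).range ?_
  have c1 : Poly (fun q : (List Bool × ℕ) × ℕ => q.1.1) := NPC.Poly.fst (NPC.Poly.fst NPC.Poly.id)
  have c2 : Poly (fun q : (List Bool × ℕ) × ℕ => q.1.2) := NPC.Poly.snd (NPC.Poly.fst NPC.Poly.id)
  have c3 : Poly (fun q : (List Bool × ℕ) × ℕ => q.2) := NPC.Poly.snd NPC.Poly.id
  have hqf : Poly (fun q : (List Bool × List Unit) × (ℕ × (ℕ × (ℕ × (ℕ × ℕ)))) => f (bits q)) :=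
    hf.comp bits_poly
  have hs : Poly (fun q : (List Bool × ℕ) × ℕ => sess (fun q => f (bits q)) (p q.1.1)
      (P q.1.1) (q.1.1, List.replicate k ()) q.1.2 q.2) :=
    sess_poly hqf (hp.comp c1) (hP.comp c1).toPoly
      (NPC.Poly.pair c1 (NPC.Poly.const (List.replicate k ()))) c2 c3
  exact (kys_poly hcs).comp hs

end Pool.Agent.W920.NL
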