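import Pool.Agent.W920.NL.Approx

/-!
# Parallel `NP` queries, with a parameter and a table
-/

set_option autoImplicit false

namespace Pool.Agent.W920.NL

open Pool.Agent.NPC Finset Pool.Agent.H579R2.Spt Pool.Agent.H251R5.PQ Pool.Agent.W901.AT
open Pool.Agent.W920.LN (Tb lk lk_poly isSome_poly upoly_bound allc_length)

/-- the inputs of the searches: the queries and the number of positive answers -/
def inps (qs : List (List Bool)) : List (List Bool) :=
  (List.range (qs.length + 1)).map fun k => pairBits (bits qs) (List.replicate (min k qs.length) true)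

theorem inps_poly : Poly inps := by
  have uQ : UPoly (fun qs : List (List Bool) => qs.length) := UPoly.length NPC.Poly.id
  refine NPC.Poly.map (l := fun qs : List (List Bool) => List.range (qs.length + 1))
    (F := fun qs k => pairBits (bits qs) (List.replicate (min k qs.length) true))
    (uQ.add (UPoly.const 1)).range ?_
  have e1 : Poly (fun q : List (List Bool) × ℕ => q.1) := NPC.Poly.fst NPC.Poly.id
  have e2 : Poly (fun q : List (List Bool) × ℕ => q.2) := NPC.Poly.snd NPC.Poly.id
  have u3 : UPoly (fun q : List (List Bool) × ℕ => min q.2 q.1.length) :=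
    UPoly.of_le (NPC.Poly.min e2 (uQ.comp e1).toPoly) (uQ.comp e1) (fun _ => min_le_right _ _)
  exact H622R2.poly_pairBits (bits_poly.comp e1) (replicate_true_poly u3)

open Classical in
/-- **Parallel queries.** (This is the proof of `Pool.Agent.W901.AT.parallel_of_npsv`.) -/
theorem parallel_T (A : Set (List Bool)) (hA : NPHard A) (D c : ℕ)
    {cs : List (List Bool) → List (List Bool)} (hcs : Poly cs) {W : Rd} (hW : Poly W)
    (rW : Polynomial ℕ) (hrW : ∀ θ z w l, W (θ, (z, w)) = some l → l.length ≤ rW.eval z.length)
    (L : Set (List Bool)) (hL : InNP L) :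
    ∃ (F : Tc × List (List Bool) → List (List Bool)) (Ks : List (List Bool) → List (List Bool))
      (r : Polynomial ℕ), NPC.Poly F ∧ NPC.Poly Ks ∧
      (∀ tc qs, (F (tc, qs)).length ≤ r.eval (sz qs)) ∧
      ∀ tc qs, (∀ z ∈ Ks qs, valid W tc z = true) →
        SndOn A D c cs W tc.1 (fun z => z ∈ Ks qs) → answers L qs ∈ F (tc, qs) := by
  obtain ⟨V, p, hV, hLV⟩ := hL
  have hL2 : ∀ y, y ∈ L ↔ ∃ w, ver V p y w = true := by
    intro y
    rw [hLV y]
    exact exists_congr fun w => ver_iff.symm
  set Q : List Bool → List (List Bool) := dl with hQdef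
  have hQp : Poly Q := dl_poly
  obtain ⟨pQ, hpQ⟩ := hQp.sz_le
  set pQ' : Polynomial ℕ := pQ.comp (Polynomial.C 4 * Polynomial.X + 1) with hpQ'
  have epQ : ∀ n, pQ'.eval n = pQ.eval (4 * n + 1) := by
    intro n
    rw [hpQ', Polynomial.eval_comp]
    simp
  have hQsz : ∀ x, sz (Q x) ≤ pQ'.eval x.length := by
    intro x
    rw [epQ]
    exact (hpQ x).trans (eval_mono pQ (sz_listBool_le x))
  set P : Polynomial ℕ := Polynomial.C 4 * pQ' + pQ' * (Polynomial.C 4 * p.comp pQ' + 2) + 2 with hP
  have eP : ∀ n, P.eval n = 4 * pQ'.eval n + pQ'.eval n * (4 * p.eval (pQ'.eval n) + 2) + 2 := by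
    intro n
    rw [hP]
    simp [Polynomial.eval_comp]
  obtain ⟨G, Ks1, r1, hG, hKs1, hr1, hG2⟩ :=
    nt_approx A hA D c hcs hW rW hrW (par1_poly hQp hV p) P
  obtain ⟨pi, hpi⟩ := inps_poly.sz_le
  have hFp : Poly (fun q : Tc × List (List Bool) =>
      (inps q.2).flatMap fun x => (G (q.1, x)).map db) := by
    refine NPC.Poly.flatMap (l := fun q : Tc × List (List Bool) => inps q.2)
      (F := fun q x => (G (q.1, x)).map db) (inps_poly.comp (NPC.Poly.snd NPC.Poly.id)) ?_
    exact NPC.Poly.map (l := fun q : (Tc × List (List Bool)) × List Bool => G (q.1.1, q.2))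
      (F := fun _ y => db y) (hG.comp (NPC.Poly.pair (NPC.Poly.fst (NPC.Poly.fst NPC.Poly.id))
        (NPC.Poly.snd NPC.Poly.id))) (db_poly.comp (NPC.Poly.snd NPC.Poly.id))
  have hKp : Poly (fun qs : List (List Bool) => (inps qs).flatMap Ks1) :=
    NPC.Poly.flatMap (l := inps) (F := fun _ x => Ks1 x) inps_poly
      (hKs1.comp (NPC.Poly.snd NPC.Poly.id))
  refine ⟨fun q => (inps q.2).flatMap fun x => (G (q.1, x)).map db,
    fun qs => (inps qs).flatMap Ks1, pi * r1.comp pi, hFp, hKp, ?_, ?_⟩
  · intro tc qs
    rw [Polynomial.eval_mul, Polynomial.eval_comp]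
    refine (flatMap_length_le _ _ (r1.eval (pi.eval (sz qs))) fun x hx => ?_).trans
      (Nat.mul_le_mul_right _ ?_)
    · rw [List.length_map]
      refine (hr1 (tc, x)).trans (eval_mono r1 ?_)
      have e1 := sz_le_of_mem hx
      have e2 := length_lt_sz x
      have e3 := hpi qs
      change sz x < sz (inps qs) at e1
      change x.length ≤ _
      omega
    · have e1 := length_lt_sz (inps qs)
      have e2 := hpi qs
      change (inps qs).length ≤ _
      omega
  intro tc qs hval hsnd
  set x : List Bool := bits qs with hxdef
  have hQx : Q x = qs := dl_bits qs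
  set ys : List Bool := (Q x).map (fun q => decide (q ∈ L)) with hys
  have hyl : ys.length = (Q x).length := by rw [hys, List.length_map]
  set k : ℕ := (ys.filter (fun b => b)).length with hk
  have hkQ : k ≤ (Q x).length := by
    rw [← hyl, hk]
    exact List.length_filter_le _ _
  have hxl : x.length ≤ (pairBits x (List.replicate k true)).length := by
    unfold pairBits
    rw [List.length_append, List.length_flatMap]
    simp
    omega
  have hin : pairBits x (List.replicate k true) ∈ inps qs := by
    refine List.mem_map.2 ⟨k, List.mem_range.2 (by rw [← hQx]; omega), ?_⟩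
    rw [min_eq_left (by rw [← hQx]; exact hkQ)]
  have hmain : bits ys ∈ G (tc, pairBits x (List.replicate k true)) := by
    apply hG2
    · exact fun z hz => hval z (List.mem_flatMap.2 ⟨_, hin, hz⟩)
    · exact hsnd.mono fun z hz => List.mem_flatMap.2 ⟨_, hin, hz⟩
    · obtain ⟨ws, hw1, hw2, hw3⟩ : ∃ ws : List (List Bool), ws.length = (Q x).length ∧
          (∀ t ∈ ys.zip ((Q x).zip ws), t.1 = true → ver V p t.2.1 t.2.2 = true) ∧
          ∀ w ∈ ws, w = [] ∨ ∃ y ∈ Q x, w.length ≤ p.eval y.length := by
        rw [hys]
        generalize Q x = l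
        induction l with
        | nil => exact ⟨[], by simp⟩
        | cons y l ih =>
          obtain ⟨ws, h1, h2, h3⟩ := ih
          by_cases hy : y ∈ L
          · obtain ⟨w, hw⟩ := (hL2 y).1 hy
            refine ⟨w :: ws, by simp [h1], ?_, ?_⟩
            · intro t ht
              rw [List.map_cons, List.zip_cons_cons, List.zip_cons_cons] at ht
              rcases List.mem_cons.1 ht with rfl | ht
              · exact fun _ => hw
              · exact h2 t ht
            · intro w' hw'
              rcases List.mem_cons.1 hw' with rfl | hw'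
              · exact Or.inr ⟨y, List.mem_cons_self, (ver_iff.1 hw).1⟩
              · rcases h3 w' hw' with h4 | ⟨y', hy', h4⟩
                · exact Or.inl h4
                · exact Or.inr ⟨y', List.mem_cons_of_mem _ hy', h4⟩
          · refine ⟨[] :: ws, by simp [h1], ?_, ?_⟩
            · intro t ht
              rw [List.map_cons, List.zip_cons_cons, List.zip_cons_cons] at ht
              rcases List.mem_cons.1 ht with rfl | ht
              · intro h5
                simp [hy] at h5
              · exact h2 t ht
            · intro w' hw'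
              rcases List.mem_cons.1 hw' with rfl | hw'
              · exact Or.inl rfl
              · rcases h3 w' hw' with h4 | ⟨y', hy', h4⟩
                · exact Or.inl h4
                · exact Or.inr ⟨y', List.mem_cons_of_mem _ hy', h4⟩
      have hq1 := hQsz x
      have hq2 : (Q x).length < sz (Q x) := length_lt_sz (Q x)
      have hq3 : pQ'.eval x.length ≤ pQ'.eval (pairBits x (List.replicate k true)).length :=
        eval_mono pQ' hxl
      refine ⟨bits ws, ?_, ?_, ?_⟩
      · rw [bits_length, eP]
        have h1 := sz_listBool_le ys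
        have h2 : 0 ≤ pQ'.eval (pairBits x (List.replicate k true)).length *
          (4 * p.eval (pQ'.eval (pairBits x (List.replicate k true)).length) + 2) := Nat.zero_le _
        omega
      · rw [bits_length, eP]
        have h1 := sz_le_length_mul ws
          (4 * p.eval (pQ'.eval (pairBits x (List.replicate k true)).length) + 1) (fun u hu => by
            have h5 := sz_listBool_le u
            rcases hw3 u hu with h6 | ⟨y, hy, h6⟩
            · rw [h6]; simp
            · have h7 : y.length ≤ pQ'.eval (pairBits x (List.replicate k true)).length := by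
                have h8 := sz_le_of_mem hy
                have h9 := length_lt_sz y
                omega
              have h8 := eval_mono p h7
              omega)
        have h2 : ws.length * (4 * p.eval (pQ'.eval (pairBits x (List.replicate k true)).length) +
            1 + 1) ≤ pQ'.eval (pairBits x (List.replicate k true)).length *
            (4 * p.eval (pQ'.eval (pairBits x (List.replicate k true)).length) + 2) :=
          Nat.mul_le_mul (by omega) (by omega)
        omega
      · rw [par1_iff, db_bits, dl_bits]
        exact ⟨rfl, hyl, rfl, hw1, hw2⟩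
    · rintro y' w' ⟨_, _, h⟩
      rw [par1_iff] at h
      obtain ⟨h1, h2, h3, h4, h5⟩ := h
      rw [← h1]
      congr 1
      refine eq_of_imp_of_count _ _ (by omega) ?_ h3
      intro t ht ht1
      -- the entry of index `i`
      obtain ⟨i, hi, hti⟩ := List.getElem_of_mem ht
      rw [List.getElem_zip] at hti
      have hi1 : i < (db y').length := by
        rw [List.length_zip] at hi; omega
      have hi2 : i < ys.length := by
        rw [List.length_zip] at hi; omega
      have hi3 : i < (Q x).length := by omega
      have hi4 : i < (dl w').length := by omega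
      have h6 : ((db y')[i], ((Q x)[i], (dl w')[i])) ∈ (db y').zip ((Q x).zip (dl w')) := by
        have hlen : i < ((db y').zip ((Q x).zip (dl w'))).length := by
          rw [List.length_zip, List.length_zip]; omega
        have h7 := List.getElem_mem hlen
        rw [List.getElem_zip, List.getElem_zip] at h7
        exact h7
      have h7 := h5 _ h6
      subst hti
      have h8 := h7 ht1
      change ys[i] = true
      simp only [hys, List.getElem_map, decide_eq_true_eq]
      exact (hL2 _).2 ⟨_, h8⟩
  refine List.mem_flatMap.2 ⟨_, hin, List.mem_map.2 ⟨bits ys, hmain, ?_⟩⟩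
  rw [db_bits, hys, hQx]
  unfold answers
  refine List.map_congr_left fun y _ => ?_
  by_cases hy : y ∈ L <;> simp [hy]

end Pool.Agent.W920.NL
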