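import Pool.Agent.W920.NL.LawR3

/-!
# The law of random prediction: `BPP`
-/

set_option autoImplicit false

namespace Pool.Agent.W920.NL

open Pool.Agent.NPC Pool.Agent.H251R5.PQ Pool.Agent.W901.AT Pool.Agent.H579R2.Spt
open Pool.Agent.W920.LN (Tb lk good_of_beats)

/-- the number of right predictions -/
noncomputable def rgt (A : Set (List Bool)) (P : List Bool → Bool) (qs : List (List Bool)) : ℕ :=
  by classical exact qs.countP fun q => decide (P q = decide (q ∈ A))

theorem rgt_le (A : Set (List Bool)) (P : List Bool → Bool) (qs : List (List Bool)) :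
    rgt A P qs ≤ qs.length := by
  unfold rgt
  exact List.countP_le_length

theorem excess_map (A : Set (List Bool)) (P : List Bool → Bool) : ∀ qs : List (List Bool),
    excess (qs.map fun q => some (P q)) (answers A qs) = 2 * (rgt A P qs : ℤ) - qs.length := by
  classical
  intro qs
  induction qs with
  | nil => simp [excess, rgt, answers]
  | cons q qs ih =>
    have h1 : excess ((q :: qs).map fun q => some (P q)) (answers A (q :: qs)) =
        (if P q = decide (q ∈ A) then 1 else -1) +
          excess (qs.map fun q => some (P q)) (answers A qs) := by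
      unfold excess answers
      simp only [List.map_cons, List.zip_cons_cons, List.sum_cons]
      congr 1
      rw [if_neg (by simp)]
      by_cases hp : P q = decide (q ∈ A)
      · rw [if_pos (by rw [hp]), if_pos hp]
      · rw [if_neg (by simpa using hp), if_neg hp]
    have h2 : rgt A P (q :: qs) = (if P q = decide (q ∈ A) then 1 else 0) + rgt A P qs := by
      unfold rgt
      rw [List.countP_cons]
      by_cases hp : P q = decide (q ∈ A)
      · rw [if_pos (by simpa using hp), if_pos hp, add_comm]
      · rw [if_neg (by simpa using hp), if_neg hp, add_comm]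
    rw [h1, ih, h2, List.length_cons]
    split_ifs <;> push_cast <;> ring

/-- The sum over all coins of the numbers of right predictions is large. -/
theorem sum_rgt (A : Set (List Bool)) (R : Finset (List Bool)) (P : List Bool → List Bool → Bool) :
    ∀ qs : List (List Bool), (∀ q ∈ qs, 2 * R.card ≤
      3 * {r | r ∈ R ∧ (P r q = true ↔ q ∈ A)}.ncard) →
      2 * (qs.length * R.card) ≤ 3 * ∑ r ∈ R, rgt A (P r) qs := by
  classical
  intro qs
  induction qs with
  | nil => intro _; simp
  | cons q qs ih =>
    intro h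
    have h1 := ih fun q' hq' => h q' (List.mem_cons_of_mem _ hq')
    have h2 := h q List.mem_cons_self
    have h3 : ∑ r ∈ R, rgt A (P r) (q :: qs) =
        {r | r ∈ R ∧ (P r q = true ↔ q ∈ A)}.ncard + ∑ r ∈ R, rgt A (P r) qs := by
      have h4 : ∀ r, rgt A (P r) (q :: qs) =
          (if P r q = decide (q ∈ A) then 1 else 0) + rgt A (P r) qs := by
        intro r
        unfold rgt
        rw [List.countP_cons]
        by_cases hp : P r q = decide (q ∈ A)
        · rw [if_pos (by simpa using hp), if_pos hp, add_comm]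
        · rw [if_neg (by simpa using hp), if_neg hp, add_comm]
      rw [Finset.sum_congr rfl fun r _ => h4 r, Finset.sum_add_distrib]
      congr 1
      rw [← Finset.card_filter]
      have h5 : {r | r ∈ R ∧ (P r q = true ↔ q ∈ A)} =
          ((R.filter fun r => P r q = decide (q ∈ A) : Finset (List Bool)) :
            Set (List Bool)) := by
        ext r
        rw [Finset.coe_filter]
        simp only [Set.mem_ofPred_eq, and_congr_right_iff]
        intro _
        by_cases hq : q ∈ A
        · simp [hq]
        · simp [hq]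
      rw [h5, Set.ncard_coe_finset]
    rw [h3, List.length_cons]
    nlinarith

/-- With probability at least `1 / 5` there are many right predictions. -/
theorem many_right (A : Set (List Bool)) (R : Finset (List Bool))
    (P : List Bool → List Bool → Bool) (qs : List (List Bool)) (hqs : qs ≠ [])
    (h : ∀ q ∈ qs, 2 * R.card ≤ 3 * {r | r ∈ R ∧ (P r q = true ↔ q ∈ A)}.ncard) :
    R.card ≤ 5 * {r | r ∈ R ∧ 7 * qs.length ≤ 12 * rgt A (P r) qs}.ncard := by
  classical
  have h1 := sum_rgt A R P qs h
  set G : Finset (List Bool) := R.filter fun r => 7 * qs.length ≤ 12 * rgt A (P r) qs with hG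
  have h2 : {r | r ∈ R ∧ 7 * qs.length ≤ 12 * rgt A (P r) qs} = (G : Set (List Bool)) := by
    ext r
    simp [hG]
  rw [h2, Set.ncard_coe_finset]
  have h3 : ∀ r ∈ R, 12 * rgt A (P r) qs ≤
      7 * qs.length + (if 7 * qs.length ≤ 12 * rgt A (P r) qs then 5 * qs.length else 0) := by
    intro r _
    have := rgt_le A (P r) qs
    split_ifs with hr
    · omega
    · omega
  have h4 := Finset.sum_le_sum h3
  rw [← Finset.mul_sum, Finset.sum_add_distrib, Finset.sum_const, smul_eq_mul,
    ← Finset.sum_filter, Finset.sum_const, smul_eq_mul] at h4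
  have hm : 1 ≤ qs.length := length_pos hqs
  have h5 : qs.length * R.card ≤ qs.length * (5 * G.card) := by
    have e1 : 8 * (qs.length * R.card) ≤ 12 * ∑ r ∈ R, rgt A (P r) qs := by omega
    have e2 : R.card * (7 * qs.length) = 7 * (qs.length * R.card) := by ring
    have e3 : G.card * (5 * qs.length) = qs.length * (5 * G.card) := by ring
    rw [e2, e3] at h4
    omega
  exact Nat.le_of_mul_le_mul_left h5 hm

/-- extending strings -/
theorem ncard_take_ge {a b : ℕ} (hab : a ≤ b) (G : List Bool → Prop) :
    {r : List Bool | r.length = a ∧ G r}.ncard * 2 ^ (b - a) ≤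
      {r : List Bool | r.length = b ∧ G (r.take a)}.ncard := by
  rw [← str_ncard (b - a), ← Set.ncard_prod]
  refine Set.ncard_le_ncard_of_injOn (fun p => p.1 ++ p.2) ?_ ?_
    ((str_finite b).subset fun r hr => hr.1)
  · rintro ⟨r, s⟩ ⟨⟨hr1, hr2⟩, hs⟩
    have hs' : s.length = b - a := hs
    refine ⟨by rw [List.length_append, hr1, hs']; omega, ?_⟩
    rw [← hr1, List.take_left]
    exact hr2
  · rintro ⟨r, s⟩ ⟨⟨hr1, _⟩, _⟩ ⟨r', s'⟩ ⟨⟨hr1', _⟩, _⟩ hrr
    simp only at hrr
    have h1 := List.append_inj hrr (by rw [hr1, hr1'])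
    exact Prod.ext h1.1 h1.2

/-- the predictor from a `BPP` algorithm -/
def bpg (T : List (List Bool)) (V : List Bool → List Bool) (ρ : Polynomial ℕ) (z : List Bool) :
    List (Option Bool) :=
  bif decide ((lst z).length ≤ 1296) then (lst z).map fun q => some (decide (q ∈ T))
  else (lst z).map fun q =>
    some (decide (V (pairBits q ((unpair z).2.take (ρ.eval q.length))) = [true]))

theorem bpg_poly (T : List (List Bool)) {V : List Bool → List Bool} (hV : NPC.Poly V)
    (ρ : Polynomial ℕ) : NPC.Poly (bpg T V ρ) := by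
  have hl : NPC.Poly (fun z : List Bool => lst z) := listOf_poly
  refine NPC.Poly.cond (NPC.Poly.decide_le (NPC.Poly.length hl) (NPC.Poly.const 1296)) ?_ ?_
  · refine NPC.Poly.map (l := fun z : List Bool => lst z)
      (F := fun _ q => some (decide (q ∈ T))) hl (NPC.Poly.some ?_)
    refine (NPC.Poly.any (l := fun _ : List Bool × List Bool => T)
      (p := fun q t => decide (t = q.2)) (NPC.Poly.const T)
      (NPC.Poly.decide_eq (NPC.Poly.snd NPC.Poly.id)
        (NPC.Poly.snd (NPC.Poly.fst NPC.Poly.id)))).congr fun q => ?_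
    rw [Bool.eq_iff_iff, List.any_eq_true, decide_eq_true_eq]
    constructor
    · rintro ⟨t, ht, hq⟩
      rw [decide_eq_true_eq] at hq
      rw [← hq]
      exact ht
    · intro h
      exact ⟨q.2, h, by simp⟩
  · refine NPC.Poly.map (l := fun z : List Bool => lst z)
      (F := fun z q => some (decide (V (pairBits q ((unpair z).2.take (ρ.eval q.length))) =
        [true]))) hl (NPC.Poly.some ?_)
    have e1 : NPC.Poly (fun q : List Bool × List Bool => q.2) := NPC.Poly.snd NPC.Poly.id
    have e2 : NPC.Poly (fun q : List Bool × List Bool => (unpair q.1).2) :=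
      NPC.Poly.snd (poly_unpair.comp (NPC.Poly.fst NPC.Poly.id))
    exact NPC.Poly.decide_eq (hV.comp (H622R2.poly_pairBits e1 (take_poly' e2
      ((UPoly.length e1).eval ρ).toPoly))) (NPC.Poly.const [true])

theorem quarter_le {m : ℕ} (hm : 1296 ≤ m) :
    (m : ℝ) ^ ((1 : ℝ) / 4) * Real.sqrt m ≤ (m : ℝ) / 6 := by
  have hm0 : (0 : ℝ) ≤ m := by positivity
  set a : ℝ := (m : ℝ) ^ ((1 : ℝ) / 4) with ha
  have ha0 : 0 ≤ a := by positivity
  have ha4 : a ^ 4 = m := by
    rw [ha, ← Real.rpow_natCast, ← Real.rpow_mul hm0]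
    norm_num
  have hs : Real.sqrt m = a ^ 2 := by
    rw [← ha4, show a ^ 4 = (a ^ 2) ^ 2 by ring, Real.sqrt_sq (by positivity)]
  have h6 : 6 ≤ a := by
    by_contra hcon
    push Not at hcon
    have h1 : a ^ 4 < 6 ^ 4 := pow_lt_pow_left₀ hcon ha0 (by norm_num)
    rw [ha4] at h1
    have h2 : ((1296 : ℕ) : ℝ) ≤ m := by exact_mod_cast hm
    norm_num at h1 h2
    linarith
  rw [hs, ← ha4]
  nlinarith [pow_nonneg ha0 3, mul_le_mul_of_nonneg_left h6 (pow_nonneg ha0 3)]

theorem beats_map_self {δ : ℝ} (hδ : δ ≤ 1 / 2) {A : Set (List Bool)} {qs : List (List Bool)}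
    (hqs : qs ≠ []) {P : List Bool → Bool} (h : ∀ q ∈ qs, (P q = true ↔ q ∈ A)) :
    Beats δ A qs (qs.map fun q => some (P q)) := by
  classical
  have h4 : (qs.map fun q => some (P q)) = (answers A qs).map some := by
    unfold answers
    rw [List.map_map]
    refine List.map_congr_left fun q hq => ?_
    simp only [Function.comp_apply, Option.some.injEq]
    rw [Bool.eq_iff_iff, h q hq, decide_eq_true_eq]
  rw [h4]
  exact (beats_self hδ hqs).1

/-- Sets in `BPP` are randomly predictable. -/
theorem randPredictable_of_inBPP {A : Set (List Bool)} (hA : InBPP A) :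
    RandPredictable (1 / 4) 1 A := by
  classical
  obtain ⟨V, ρ, hV, hA⟩ := hA
  have hVp : NPC.Poly V := PIso.poly_iff.2 hV
  -- the short members
  have hfin : {y : List Bool | y.length ≤ 1296 ∧ y ∈ A}.Finite := by
    refine Set.Finite.subset (Set.Finite.biUnion (Finset.finite_toSet (Finset.range 1297))
      fun l _ => str_finite l) ?_
    rintro y ⟨hy, _⟩
    simp only [Set.mem_iUnion]
    exact ⟨y.length, Finset.mem_coe.2 (Finset.mem_range.2 (by omega)), rfl⟩
  set T : List (List Bool) := hfin.toFinset.toList with hT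
  have hTm : ∀ y : List Bool, y.length ≤ 1296 → (y ∈ T ↔ y ∈ A) := by
    intro y hy
    rw [hT, Finset.mem_toList, Set.Finite.mem_toFinset]
    exact ⟨fun h => h.2, fun h => ⟨hy, h⟩⟩
  refine ⟨bpg T V ρ, ρ, 5, polyTime_bits (bpg_poly T hVp ρ), fun qs hqs hlen => ?_⟩
  simp only [Polynomial.eval_ofNat]
  set n : ℕ := (bits qs).length with hn
  have hlst : ∀ r : List Bool, lst (pairBits (bits qs) r) = qs := by
    intro r
    unfold lst
    simp only [unpair_pairBits, unbits_bits, Option.getD_some]
  have hq : ∀ q ∈ qs, q.length ≤ n := by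
    intro q hq
    have h1 := sz_le_of_mem hq
    have h2 := length_lt_sz q
    rw [hn, bits_length]
    omega
  by_cases hm : qs.length ≤ 1296
  · have h1 : ∀ r : List Bool, Beats (1 / 4) A qs (bpg T V ρ (pairBits (bits qs) r)) := by
      intro r
      unfold bpg
      rw [hlst, decide_eq_true hm, cond_true]
      refine beats_map_self (by norm_num) hqs fun q hq' => ?_
      rw [decide_eq_true_eq]
      refine hTm q ?_
      have h2 := hlen q hq'
      rw [Real.rpow_one] at h2
      have h3 : q.length ≤ qs.length := by exact_mod_cast h2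
      omega
    have h2 : {r : List Bool | r.length = ρ.eval n ∧
        Beats (1 / 4) A qs (bpg T V ρ (pairBits (bits qs) r))} = Str (ρ.eval n) := by
      ext r
      exact ⟨fun h => h.1, fun h => ⟨h, h1 r⟩⟩
    rw [h2, str_ncard]
    omega
  · push Not at hm
    set R : Finset (List Bool) := (str_finite (ρ.eval n)).toFinset with hR
    have hRm : ∀ r, r ∈ R ↔ r.length = ρ.eval n := fun r => (str_finite (ρ.eval n)).mem_toFinset
    have hRc : R.card = 2 ^ ρ.eval n := by
      rw [hR, ← Set.ncard_eq_toFinset_card _ (str_finite _), str_ncard]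
    set P : List Bool → List Bool → Bool := fun r q =>
      decide (V (pairBits q (r.take (ρ.eval q.length))) = [true]) with hP
    have h1 : ∀ q ∈ qs, 2 * R.card ≤ 3 * {r | r ∈ R ∧ (P r q = true ↔ q ∈ A)}.ncard := by
      intro q hq'
      have h2 := hA q
      have hle := eval_mono ρ (hq q hq')
      have h3 := ncard_take_ge (a := ρ.eval q.length) (b := ρ.eval n) hle
        (fun r => V (pairBits q r) = [true] ↔ q ∈ A)
      have h4 : {r : List Bool | r.length = ρ.eval n ∧
          (V (pairBits q (r.take (ρ.eval q.length))) = [true] ↔ q ∈ A)} =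
          {r | r ∈ R ∧ (P r q = true ↔ q ∈ A)} := by
        ext r
        simp only [hRm, hP, Set.mem_ofPred_eq, decide_eq_true_eq]
      rw [h4] at h3
      calc 2 * R.card = 2 * 2 ^ ρ.eval q.length * 2 ^ (ρ.eval n - ρ.eval q.length) := by
            rw [hRc, mul_assoc, ← pow_add]
            congr 2
            omega
        _ ≤ 3 * {r : List Bool | r.length = ρ.eval q.length ∧
            (V (pairBits q r) = [true] ↔ q ∈ A)}.ncard *
              2 ^ (ρ.eval n - ρ.eval q.length) := Nat.mul_le_mul_right _ h2
        _ = 3 * ({r : List Bool | r.length = ρ.eval q.length ∧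
            (V (pairBits q r) = [true] ↔ q ∈ A)}.ncard *
              2 ^ (ρ.eval n - ρ.eval q.length)) := by rw [mul_assoc]
        _ ≤ _ := Nat.mul_le_mul_left _ h3
    have h2 := many_right A R P qs hqs h1
    rw [hRc] at h2
    refine h2.trans (Nat.mul_le_mul_left _ (Set.ncard_le_ncard ?_
      ((str_finite (ρ.eval n)).subset fun r hr => hr.1)))
    rintro r ⟨hr1, hr2⟩
    refine ⟨(hRm r).1 hr1, ?_⟩
    have hval : bpg T V ρ (pairBits (bits qs) r) = qs.map fun q => some (P r q) := by
      unfold bpg
      rw [hlst, decide_eq_false (by omega), cond_false]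
      simp only [unpair_pairBits, hP]
    rw [hval]
    have hmade : made (qs.map fun q => some (P r q)) = qs.length := by
      have e : (qs.map fun q => some (P r q)) = (qs.map (P r)).map some := by
        rw [List.map_map]
        rfl
      rw [e, made_eq_nans, nans_some, List.length_map]
    refine ⟨by rw [List.length_map], by rw [hmade]; exact length_pos hqs, ?_⟩
    rw [hmade, excess_map]
    refine (quarter_le (by omega)).trans (le_trans ?_ (le_abs_self _))
    have h3 : (7 : ℝ) * qs.length ≤ 12 * rgt A (P r) qs := by exact_mod_cast hr2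
    push_cast
    linarith

/-- `RP ⊆ BPP`. -/
theorem inBPP_of_inRP {A : Set (List Bool)} (hA : InRP A) : InBPP A := by
  classical
  obtain ⟨V, ρ, hV, hA1, hA2⟩ := hA
  have hVp : NPC.Poly V := PIso.poly_iff.2 hV
  set W : List Bool → Bool := fun y => (List.range 2).any fun i =>
    decide (V (pairBits (unpair y).1 (((unpair y).2.drop (i * ρ.eval (unpair y).1.length)).take
      (ρ.eval (unpair y).1.length))) = [true]) with hW
  have hWp : NPC.Poly W := by
    refine NPC.Poly.any (l := fun _ : List Bool => List.range 2)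
      (p := fun y i => decide (V (pairBits (unpair y).1 (((unpair y).2.drop
        (i * ρ.eval (unpair y).1.length)).take (ρ.eval (unpair y).1.length))) = [true]))
      (NPC.Poly.const _) ?_
    have e1 : NPC.Poly (fun q : List Bool × ℕ => (unpair q.1).1) :=
      NPC.Poly.fst (poly_unpair.comp (NPC.Poly.fst NPC.Poly.id))
    have e2 : NPC.Poly (fun q : List Bool × ℕ => (unpair q.1).2) :=
      NPC.Poly.snd (poly_unpair.comp (NPC.Poly.fst NPC.Poly.id))
    have e3 := ((UPoly.length e1).eval ρ).toPoly
    exact NPC.Poly.decide_eq (hVp.comp (H622R2.poly_pairBits e1 (take_poly' (drop_poly' e2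
      (NPC.Poly.mul (NPC.Poly.snd NPC.Poly.id) e3)) e3))) (NPC.Poly.const [true])
  have e2 : ∀ n : ℕ, (Polynomial.C 2 * ρ).eval n = 2 * ρ.eval n := fun n => by simp
  refine ⟨fun y => [W y], Polynomial.C 2 * ρ, PIso.poly_iff.1
    (NPC.Poly.cons hWp (NPC.Poly.const [])), fun x => ?_⟩
  rw [e2]
  set B : ℕ := ρ.eval x.length with hB
  have hval : ∀ r : List Bool, ([W (pairBits x r)] = [true] ↔
      ∃ i < 2, V (pairBits x ((r.drop (i * B)).take B)) = [true]) := by
    intro r
    simp only [hW, unpair_pairBits, List.cons.injEq, and_true]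
    rw [List.any_eq_true]
    constructor
    · rintro ⟨i, hi, h⟩
      exact ⟨i, List.mem_range.1 hi, by rwa [decide_eq_true_eq] at h⟩
    · rintro ⟨i, hi, h⟩
      exact ⟨i, List.mem_range.2 hi, by rwa [decide_eq_true_eq]⟩
  have hblk : ∀ r : List Bool, r.length = 2 * B → ∀ i < 2, ((r.drop (i * B)).take B).length = B := by
    intro r hr i hi
    have h6 : (i + 1) * B ≤ 2 * B := Nat.mul_le_mul_right _ hi
    have h7 : (i + 1) * B = i * B + B := by ring
    rw [List.length_take, List.length_drop, hr]
    omega
  by_cases hx : x ∈ A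
  · set X : Set (List Bool) := {r : List Bool | r.length = B ∧ ¬ V (pairBits x r) = [true]} with hX
    have hXc : 2 * X.ncard ≤ 2 ^ B := by
      have h1 := hA1 x hx
      rw [← hB] at h1
      have h2 : {r : List Bool | r.length = B ∧ V (pairBits x r) = [true]}.ncard +
          X.ncard = 2 ^ B := by
        rw [← str_ncard B, ← Set.ncard_union_eq _
          ((str_finite _).subset fun r hr => hr.1) ((str_finite _).subset fun r hr => hr.1)]
        · congr 1
          ext r
          simp only [hX, Str, Set.mem_union, Set.mem_ofPred_eq]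
          tauto
        · rw [Set.disjoint_left]
          rintro r ⟨_, hr⟩ ⟨_, hr'⟩
          exact hr' hr
      omega
    have h1 := blocks_le (X := X) (n := B) (B := B) (fun r hr => hr.1) le_rfl hXc 2 2 le_rfl
    set Bad : Set (List Bool) := {r : List Bool | r.length = 2 * B ∧
      ∀ i < 2, (r.drop (i * B)).take B ∈ X} with hBad
    have hsub : {r : List Bool | r.length = 2 * B} ⊆
        {r : List Bool | r.length = 2 * B ∧ ([W (pairBits x r)] = [true] ↔ x ∈ A)} ∪ Bad := by
      intro r hr
      have hr' : r.length = 2 * B := hr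
      by_cases hb : r ∈ Bad
      · exact Or.inr hb
      · refine Or.inl ⟨hr, fun _ => hx, fun _ => (hval r).2 ?_⟩
        by_contra hcon
        push Not at hcon
        exact hb ⟨hr, fun i hi => ⟨hblk r hr' i hi, hcon i hi⟩⟩
    have h3 := (Set.ncard_le_ncard hsub (((str_finite _).subset fun r hr => hr.1).union
      ((str_finite _).subset fun r hr => hr.1))).trans (Set.ncard_union_le _ _)
    have h4 : {r : List Bool | r.length = 2 * B}.ncard = 2 ^ (2 * B) := str_ncard _
    rw [h4] at h3
    change 2 * 2 ^ (2 * B) ≤ 3 * {r : List Bool | r.length = 2 * B ∧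
      ([W (pairBits x r)] = [true] ↔ x ∈ A)}.ncard
    omega
  · have h2 : {r : List Bool | r.length = 2 * B ∧
        ([W (pairBits x r)] = [true] ↔ x ∈ A)} = Str (2 * B) := by
      ext r
      refine ⟨fun h => h.1, fun h => ⟨h, fun h' => ?_, fun h' => absurd h' hx⟩⟩
      obtain ⟨i, hi, h5⟩ := (hval r).1 h'
      exact absurd h5 (hA2 x hx _ (hblk r h i hi))
    change 2 * 2 ^ (2 * B) ≤ 3 * {r : List Bool | r.length = 2 * B ∧
      ([W (pairBits x r)] = [true] ↔ x ∈ A)}.ncard
    rw [h2, str_ncard]
    omega

/-- **The law of random prediction for `NP`-hard sets.** -/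
theorem rand_law {δ ε : ℝ} (h1 : 0 < δ) (h2 : δ ≤ 1 / 2) (h3 : 0 < ε) : List.TFAE
    [∀ L : Set (List Bool), InNP L → InRP L,
      ∀ L : Set (List Bool), InNP L → InBPP L,
      ∃ A : Set (List Bool), NPHard A ∧ RandPredictable δ ε A,
      ∀ A : Set (List Bool), InNP A → RandFullyPredictable δ A] := by
  tfae_have 1 → 4 := fun h A hA => randFully_of_inRP h2 (h A hA)
  tfae_have 4 → 3 := fun h => by
    obtain ⟨hA1, hA2⟩ := Pool.Agent.NPC.H545KS.sat_complete
    exact ⟨_, hA2, (h _ hA1).randPredictable ε⟩
  tfae_have 3 → 1 := fun ⟨A, hA, h⟩ L hL => inRP_of_randPredictable h1 h3 hA h hL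
  tfae_have 2 → 1 := fun h L hL => by
    obtain ⟨hA1, hA2⟩ := Pool.Agent.NPC.H545KS.sat_complete
    exact inRP_of_randPredictable (by norm_num) (by norm_num) hA2
      (randPredictable_of_inBPP (h _ hA1)) hL
  tfae_have 1 → 2 := fun h L hL => inBPP_of_inRP (h L hL)
  tfae_finish

end Pool.Agent.W920.NL
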