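import Pool.Agent.W920.NL.Cand

/-!
# Candidate lists for single-valued `NP` functions, with a parameter and a table
-/

set_option autoImplicit false

namespace Pool.Agent.W920.NL

open Pool.Agent.NPC Pool.Agent.H579R2.Spt Pool.Agent.H251R5.PQ Pool.Agent.W901.AT
open Pool.Agent.W920.LN (Tb lk lk_poly isSome_poly upoly_bound allc_length)

theorem flatMap_length_le {α β : Type} (l : List α) (F : α → List β) (N : ℕ)
    (h : ∀ a ∈ l, (F a).length ≤ N) : (l.flatMap F).length ≤ l.length * N := by
  rw [List.length_flatMap]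
  refine (List.sum_le_card_nsmul _ N ?_).trans ?_
  · intro y hy
    obtain ⟨a, ha, rfl⟩ := List.mem_map.1 hy
    exact h a ha
  · rw [List.length_map, smul_eq_mul]

/-- **Candidate lists, with tables of guessed witnesses.** -/
theorem nt_approx (A : Set (List Bool)) (hA : NPHard A) (D c : ℕ)
    {cs : List (List Bool) → List (List Bool)} (hcs : Poly cs) {W : Rd} (hW : Poly W)
    (rW : Polynomial ℕ) (hrW : ∀ θ z w l, W (θ, (z, w)) = some l → l.length ≤ rW.eval z.length)
    {R : List Bool × (List Bool × List Bool) → Bool} (hR : Poly R) (pp : Polynomial ℕ) :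
    ∃ (G : Tc × List Bool → List (List Bool)) (Ks : List Bool → List (List Bool))
      (r : Polynomial ℕ), NPC.Poly G ∧ NPC.Poly Ks ∧
      (∀ q, (G q).length ≤ r.eval q.2.length) ∧
      ∀ tc x y, (∀ z ∈ Ks x, valid W tc z = true) →
        SndOn A D c cs W tc.1 (fun z => z ∈ Ks x) → (∃ w, Cert R pp x y w) →
        (∀ y' w', Cert R pp x y' w' → y' = y) → y ∈ G (tc, x) := by
  classical
  obtain ⟨f, hf, hfA⟩ := hA _ (lab4_inNP hR pp)
  set qf : (List Bool × List Unit) × (ℕ × (ℕ × (ℕ × (ℕ × ℕ)))) → List Bool :=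
    fun q => f (bits q) with hqf
  have hqfp : Poly qf := (PIso.poly_iff.2 hf).comp bits_poly
  obtain ⟨p1, hp1⟩ := hqfp.sz_le
  obtain ⟨p2', hp2'⟩ := (kys_poly hcs).sz_le
  set p2 : Polynomial ℕ := p2' * rW.comp p2' with hp2
  -- the size of a query, in terms of the parameter `b`
  set p3 : Polynomial ℕ := Polynomial.C 100 * Polynomial.X ^ 3 + 100 with hp3
  obtain ⟨e1, he1⟩ := exists_pow_bound (p1.comp p3)
  -- the number of queries is about `b ^ g`
  set g : ℕ := e1 * c + 1 with hg
  set p4 : Polynomial ℕ := Polynomial.C 2 * Polynomial.X ^ g * (p1.comp p3 + 1) + 1 with hp4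
  obtain ⟨e, he⟩ := exists_pow_bound (p2.comp p4)
  set B : ℕ := e + 2 with hB
  set k : ℕ := 2 * (D * B) with hk
  set C : ℕ := 4 * k.factorial + k + (g + 1) + 2 with hC
  set n : List Bool → ℕ := fun x => pp.eval x.length + 1 with hn
  set b : List Bool → ℕ := fun x => x.length + n x + C with hb
  have hnU : UPoly n := ((UPoly.length NPC.Poly.id).eval pp).add (UPoly.const 1)
  have hbU : UPoly b := ((UPoly.length NPC.Poly.id).add hnU).add (UPoly.const C)
  have hpowU : ∀ {u : List Bool → ℕ}, UPoly u → ∀ m : ℕ, UPoly (fun x => (u x) ^ m) := by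
    intro u hu m
    induction m with
    | zero => simpa using UPoly.const 1
    | succ m ih => simpa only [pow_succ] using ih.mul hu
  have hpU : UPoly (fun x => prm ((b x) ^ g)) := prm_poly (hpowU hbU g)
  have hPkU : UPoly (fun x => (prm ((b x) ^ g)) ^ k) := hpowU hpU k
  have hPU : UPoly (fun x => prm ((prm ((b x) ^ g)) ^ k)) := prm_poly hPkU
  have hbC : ∀ x, C ≤ b x := fun x => Nat.le_add_left _ _
  have hb0 : ∀ x, (b x) ^ g ≠ 0 := fun x => by
    have h1 := hbC x
    have h2 : 0 < b x := by omega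
    positivity
  have hpk0 : ∀ x, (prm ((b x) ^ g)) ^ k ≠ 0 := fun x => by
    have := (prm_spec (hb0 x)).1.pos
    positivity
  have hP1 : ∀ x, 1 ≤ prm ((prm ((b x) ^ g)) ^ k) := fun x => (prm_spec (hpk0 x)).1.pos
  obtain ⟨rn, hrn⟩ := upoly_bound hnU
  obtain ⟨rP, hrP⟩ := upoly_bound hPU
  have hf' : Poly f := PIso.poly_iff.2 hf
  refine ⟨fun q => allc (EP W cs) (qT f) D k (prm ((b q.2) ^ g))
      (prm ((prm ((b q.2) ^ g)) ^ k)) (n q.2) (q, List.replicate k ()),
    fun x => keys f cs k (prm ((b x) ^ g)) (prm ((prm ((b x) ^ g)) ^ k)) (n x) x,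
    (rn + 1) * rP, allcT_poly hf' hcs hW D k hpU hPU hP1 hnU,
    keys_poly hf' hcs k hpU hPU hnU, ?_, ?_⟩
  · intro q
    refine (allc_length _ _ _ _ _ _ _ (hP1 q.2) _).trans ?_
    rw [Polynomial.eval_mul, Polynomial.eval_add, Polynomial.eval_one]
    exact Nat.mul_le_mul (Nat.add_le_add_right (hrn q.2) 1) (hrP q.2)
  rintro tc x w hval hEA ⟨v0, hw⟩ huniq
  obtain ⟨hp, hpb1', hpb2⟩ := prm_spec (hb0 x)
  obtain ⟨hPp, hPb1, hPb2⟩ := prm_spec (hpk0 x)
  set p : ℕ := prm ((b x) ^ g) with hpdef
  have hbg : b x ≤ (b x) ^ g := Nat.le_self_pow (by omega) _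
  have hpb1 : b x < p := lt_of_le_of_lt hbg hpb1'
  set P : ℕ := prm (p ^ k) with hPdef
  have hbx := hbC x
  have hkb : k ≤ b x := by omega
  have hnb : n x ≤ b x := by simp only [hb]; omega
  have hxb : x.length ≤ b x := by simp only [hb]; omega
  have hkf : 0 < k.factorial := Nat.factorial_pos k
  have hb2 : 2 ≤ b x := by omega
  have hwn : w.length ≤ n x := by
    have := hw.1
    simp only [hn]
    omega
  -- sizes
  have hgb : g + 1 ≤ b x := by omega
  have hpsz : p < 2 ^ (b x * b x) := by
    have h1 : b x < 2 ^ b x := Nat.lt_two_pow_self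
    have h2 : (b x) ^ g < (2 ^ b x) ^ g := Nat.pow_lt_pow_left h1 (by omega)
    have h3 : 2 * (2 ^ b x) ^ g ≤ 2 ^ (b x * b x) := by
      calc 2 * (2 ^ b x) ^ g = 2 ^ (b x * g + 1) := by rw [← pow_mul, pow_succ]; ring
        _ ≤ 2 ^ (b x * b x) := Nat.pow_le_pow_right (by norm_num) (by
            have h4 : b x * (g + 1) ≤ b x * b x := Nat.mul_le_mul_left _ hgb
            have h5 : b x * (g + 1) = b x * g + b x := by ring
            omega)
    omega
  have hPsz : P < 2 ^ (b x * b x * b x + 2) := by
    have h1 : p ^ k ≤ 2 ^ (b x * b x * b x) := by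
      calc p ^ k ≤ (2 ^ (b x * b x)) ^ k := Nat.pow_le_pow_left hpsz.le _
        _ = 2 ^ (b x * b x * k) := by rw [← pow_mul]
        _ ≤ 2 ^ (b x * b x * b x) := Nat.pow_le_pow_right (by norm_num) (Nat.mul_le_mul_left _ hkb)
    have h2 : 0 < 2 ^ (b x * b x * b x) := by positivity
    rw [pow_add]
    omega
  have hsz : ∀ j ≤ n x, ∀ a < P, ∀ i < p,
      sz ((x, List.replicate k ()), (p, (P, (j, (a, i))))) ≤ p3.eval (b x) := by
    intro j hj a ha i hi
    have s1 := sz_listBool_le x
    have s2 : sz (List.replicate k ()) ≤ 2 * k + 1 := by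
      have := sz_le_length_mul (List.replicate k ()) 1 (fun u hu => by
        rw [List.eq_of_mem_replicate hu]; simp)
      rw [List.length_replicate] at this
      omega
    have s3 : sz p ≤ 4 * (b x * b x) + 1 := (sz_nat_le p).trans (by
      have := size_le_of_lt_two_pow hpsz; omega)
    have s4 : sz P ≤ 4 * (b x * b x * b x + 2) + 1 := (sz_nat_le P).trans (by
      have := size_le_of_lt_two_pow hPsz; omega)
    have s5 : sz j ≤ 4 * b x + 1 := (sz_nat_le j).trans (by
      have := NPC.Poly.size_le_self j; omega)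
    have s6 : sz a ≤ 4 * (b x * b x * b x + 2) + 1 := (sz_nat_le a).trans (by
      have := size_le_of_lt_two_pow (ha.trans hPsz); omega)
    have s7 : sz i ≤ 4 * (b x * b x) + 1 := (sz_nat_le i).trans (by
      have := size_le_of_lt_two_pow (hi.trans hpsz); omega)
    rw [sz_pair, sz_pair, sz_pair, sz_pair, sz_pair, sz_pair, hp3]
    simp only [Polynomial.eval_add, Polynomial.eval_mul, Polynomial.eval_C, Polynomial.eval_X,
      Polynomial.eval_pow, Polynomial.eval_ofNat]
    have h1 : 2 * b x ≤ b x * b x := Nat.mul_le_mul_right _ hb2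
    have h1' : 2 * (b x * b x) ≤ b x * b x * b x := by
      have := Nat.mul_le_mul_left (b x * b x) hb2
      omega
    have h2 : b x ^ 3 = b x * b x * b x := by ring
    rw [h2]
    omega
  have hqb : ∀ j ≤ n x, ∀ a < P, ∀ q ∈ sess qf p P (x, List.replicate k ()) j a,
      q.length ^ c ≤ (sess qf p P (x, List.replicate k ()) j a).length := by
    intro j hj a ha q hq
    obtain ⟨i, hi, rfl⟩ := List.mem_map.1 hq
    have h2 := hsz j hj a ha i (List.mem_range.1 hi)
    have h3 := (hp1 _).trans (eval_mono p1 h2)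
    have h4 := length_lt_sz (qf ((x, List.replicate k ()), (p, (P, (j, (a, i))))))
    have h5 := he1 (b x) hb2
    rw [Polynomial.eval_comp] at h5
    have h6 : (sess qf p P (x, List.replicate k ()) j a).length = p := by simp [sess]
    rw [h6]
    calc (qf ((x, List.replicate k ()), (p, (P, (j, (a, i)))))).length ^ c
        ≤ ((b x) ^ e1) ^ c := Nat.pow_le_pow_left (by omega) _
      _ = (b x) ^ (e1 * c) := by rw [← pow_mul]
      _ ≤ (b x) ^ g := Nat.pow_le_pow_right (by omega) (by omega)
      _ ≤ p := hpb1'.le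
  have hNb : ∀ j ≤ n x, ∀ a < P,
      (EP W cs (sess (qT f) p P ((tc, x), List.replicate k ()) j a)).length ≤ b x ^ e := by
    intro j hj a ha
    have h1 : ∀ q ∈ sess qf p P (x, List.replicate k ()) j a, sz q ≤ (p1.comp p3).eval (b x) := by
      intro q hq
      obtain ⟨i, hi, rfl⟩ := List.mem_map.1 hq
      have h2 := hsz j hj a ha i (List.mem_range.1 hi)
      rw [Polynomial.eval_comp]
      exact (hp1 _).trans (eval_mono p1 h2)
    have h2 := sz_le_length_mul _ _ h1
    have h3 : (sess qf p P (x, List.replicate k ()) j a).length = p := by simp [sess]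
    rw [h3] at h2
    have h4 : sz (sess qf p P (x, List.replicate k ()) j a) ≤ p4.eval (b x) := by
      refine h2.trans ?_
      rw [hp4]
      simp only [Polynomial.eval_add, Polynomial.eval_mul, Polynomial.eval_C, Polynomial.eval_X,
        Polynomial.eval_one, Polynomial.eval_pow]
      have := Nat.mul_le_mul_right ((p1.comp p3).eval (b x) + 1) hpb2
      omega
    have h5 := (hp2' (sess qf p P (x, List.replicate k ()) j a)).trans (eval_mono p2' h4)
    have h6 := length_lt_sz (kys cs (sess qf p P (x, List.replicate k ()) j a))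
    have h7 := he (b x) hb2
    rw [Polynomial.eval_comp, hp2, Polynomial.eval_mul, Polynomial.eval_comp] at h7
    rw [eP_sess W cs f hp.pos]
    unfold ET
    refine (flatMap_length_le _ _ (rW.eval (p2'.eval (p4.eval (b x)))) ?_).trans ?_
    · intro z hz
      cases hgz : go W tc z with
      | none => exact Nat.zero_le _
      | some l =>
        rw [Option.getD_some]
        refine (hrW _ _ _ _ hgz).trans (eval_mono rW ?_)
        have e1 := sz_le_of_mem hz
        have e2 := length_lt_sz z
        change sz z < sz (kys cs (sess qf p P (x, List.replicate k ()) j a)) at e1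
        omega
    · refine (Nat.mul_le_mul_right _ ?_).trans h7
      change (kys cs (sess qf p P (x, List.replicate k ()) j a)).length ≤ _
      omega
  have hbig : 4 * n x * (b x ^ e) * k.factorial < p ^ B := by
    have h1 : 4 * k.factorial ≤ b x := by omega
    have hp1 : b x < p := hpb1
    calc 4 * n x * (b x ^ e) * k.factorial = (4 * k.factorial) * n x * (b x ^ e) := by ring
      _ ≤ b x * b x * (b x ^ e) := Nat.mul_le_mul_right _ (Nat.mul_le_mul h1 hnb)
      _ = b x ^ B := by rw [hB]; ring
      _ < p ^ B := Nat.pow_lt_pow_left hp1 (by omega)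
  refine allc_correct hp hPp (hkb.trans hpb1.le) hPb1.le ((tc, x), List.replicate k ()) (n x) (b x ^ e)
    (by simp only [hn]; omega) hNb hbig w hwn ?_
  intro j hj a ha
  have hne : sess qf p P (x, List.replicate k ()) j a ≠ [] := by
    unfold sess
    rw [Ne, List.map_eq_nil_iff, List.range_eq_nil]
    exact hp.pos.ne'
  have hkin : ∀ z ∈ kys cs (sess qf p P (x, List.replicate k ()) j a),
      z ∈ keys f cs k p P (n x) x := fun z hz =>
    List.mem_flatMap.2 ⟨j, List.mem_range.2 (by omega), List.mem_flatMap.2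
      ⟨a, List.mem_range.2 ha, hz⟩⟩
  obtain ⟨z, hz, hgt⟩ := hEA _ hne (hqb j (hj.trans hwn) a ha) hkin
  have hkey : valid W tc z = true := hval _ (hkin z hz)
  obtain ⟨l, hl⟩ := Option.isSome_iff_exists.1 hkey
  obtain ⟨h, hhl, hh2⟩ := hgt _ _ hl
  refine ⟨h, ?_, ?_⟩
  · rw [eP_sess W cs f hp.pos]
    refine List.mem_flatMap.2 ⟨z, hz, ?_⟩
    rw [hl, Option.getD_some]
    exact hhl
  have hans : answers A (sess qf p P (x, List.replicate k ()) j a) =
      word p k (hv P a (w.take j)) := by
    unfold answers sess word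
    rw [List.map_map]
    refine List.map_congr_left fun i hi => ?_
    have hpp : p - 1 + 1 = p := by have := hp.pos; omega
    have h1 : (qf ((x, List.replicate k ()), (p, (P, (j, (a, i))))) ∈ A) ↔
        bit p k (hv P a (w.take j)) i = true := by
      rw [hqf]
      change f (bits ((x, List.replicate k ()), (p, (P, (j, (a, i)))))) ∈ A ↔ _
      rw [← hfA, bits_mem_lang]
      unfold Lab4
      simp only [List.length_replicate, hpp]
      constructor
      · rintro ⟨w', v', hw', h⟩
        rw [huniq w' v' hw'] at h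
        exact h
      · intro h
        exact ⟨w, v0, hw, h⟩
    change decide (qf ((x, List.replicate k ()), (p, (P, (j, (a, i))))) ∈ A) = _
    by_cases h2 : bit p k (hv P a (w.take j)) i = true
    · rw [h2]; exact decide_eq_true (h1.2 h2)
    · rw [Bool.not_eq_true] at h2
      rw [h2]
      refine decide_eq_false fun h3 => ?_
      rw [h1.1 h3] at h2
      exact absurd h2 (by simp)
  rw [hans] at hh2
  exact hh2

end Pool.Agent.W920.NL
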