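import Mathlib

/-!
# Counting strings
-/

set_option autoImplicit false

namespace Pool.Agent.W920.NL

/-- the strings of length `n` -/
def Str (n : ℕ) : Set (List Bool) := {r | r.length = n}

theorem str_finite (n : ℕ) : (Str n).Finite := List.finite_length_eq Bool n

theorem str_ncard (n : ℕ) : (Str n).ncard = 2 ^ n := by
  have h1 : (Str n).ncard = Nat.card (List.Vector Bool n) := by
    rw [← Nat.card_coe_set_eq]
    rfl
  rw [h1, Nat.card_eq_fintype_card, card_vector, Fintype.card_bool]

/-- Splitting. -/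
theorem ncard_split_le {a : ℕ} {S X Y : Set (List Bool)} (hX : X.Finite) (hY : Y.Finite)
    (h : ∀ r ∈ S, r.take a ∈ X ∧ r.drop a ∈ Y) : S.ncard ≤ X.ncard * Y.ncard := by
  rw [← Set.ncard_prod]
  refine Set.ncard_le_ncard_of_injOn (fun r => (r.take a, r.drop a)) (fun r hr => h r hr) ?_
    (hX.prod hY)
  intro r _ r' _ hrr
  simp only [Prod.mk.injEq] at hrr
  rw [← List.take_append_drop a r, ← List.take_append_drop a r', hrr.1, hrr.2]

/-- Few strings have all their blocks in a small set. -/
theorem blocks_le {X : Set (List Bool)} {n B : ℕ} (hX : X ⊆ Str n) (hn : n ≤ B)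
    (hc : 2 * X.ncard ≤ 2 ^ n) : ∀ (k T : ℕ), k ≤ T →
      2 ^ k * {r : List Bool | r.length = T * B ∧
        ∀ i < k, (r.drop (i * B)).take n ∈ X}.ncard ≤ 2 ^ (T * B) := by
  have hXf : X.Finite := (str_finite n).subset hX
  -- one block
  have h1 : 2 * {r : List Bool | r.length = B ∧ r.take n ∈ X}.ncard ≤ 2 ^ B := by
    have h2 : {r : List Bool | r.length = B ∧ r.take n ∈ X}.ncard ≤
        X.ncard * (Str (B - n)).ncard := by
      refine ncard_split_le (a := n) hXf (str_finite _) ?_
      rintro r ⟨hr1, hr2⟩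
      refine ⟨hr2, ?_⟩
      change (r.drop n).length = B - n
      rw [List.length_drop, hr1]
    rw [str_ncard] at h2
    calc 2 * {r : List Bool | r.length = B ∧ r.take n ∈ X}.ncard
        ≤ 2 * (X.ncard * 2 ^ (B - n)) := Nat.mul_le_mul_left _ h2
      _ = 2 * X.ncard * 2 ^ (B - n) := by ring
      _ ≤ 2 ^ n * 2 ^ (B - n) := Nat.mul_le_mul_right _ hc
      _ = 2 ^ B := by rw [← pow_add]; congr 1; omega
  intro k
  induction k with
  | zero =>
    intro T _
    have h2 : {r : List Bool | r.length = T * B ∧ ∀ i < 0, (r.drop (i * B)).take n ∈ X} =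
        Str (T * B) := by
      ext r
      simp [Str]
    rw [h2, str_ncard, pow_zero, one_mul]
  | succ k ih =>
    intro T hT
    obtain ⟨T, rfl⟩ : ∃ T', T = T' + 1 := ⟨T - 1, by omega⟩
    have h2 := ih T (by omega)
    have hf : {r : List Bool | r.length = T * B ∧
        ∀ i < k, (r.drop (i * B)).take n ∈ X}.Finite :=
      (str_finite (T * B)).subset fun r hr => hr.1
    have hf1 : {r : List Bool | r.length = B ∧ r.take n ∈ X}.Finite :=
      (str_finite B).subset fun r hr => hr.1
    have h3 : {r : List Bool | r.length = (T + 1) * B ∧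
        ∀ i < k + 1, (r.drop (i * B)).take n ∈ X}.ncard ≤
        {r : List Bool | r.length = B ∧ r.take n ∈ X}.ncard *
        {r : List Bool | r.length = T * B ∧ ∀ i < k, (r.drop (i * B)).take n ∈ X}.ncard := by
      refine ncard_split_le (a := B) hf1 hf ?_
      rintro r ⟨hr1, hr2⟩
      have hr3 : (T + 1) * B = B + T * B := by ring
      refine ⟨⟨?_, ?_⟩, ?_, ?_⟩
      · rw [List.length_take, hr1, hr3]; omega
      · have := hr2 0 (by omega)
        rw [zero_mul, List.drop_zero] at this
        rw [List.take_take, min_eq_left hn]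
        exact this
      · rw [List.length_drop, hr1, hr3]; omega
      · intro i hi
        have := hr2 (i + 1) (by omega)
        rw [List.drop_drop]
        have e : B + i * B = (i + 1) * B := by ring
        rw [e]
        exact this
    calc 2 ^ (k + 1) * {r : List Bool | r.length = (T + 1) * B ∧
        ∀ i < k + 1, (r.drop (i * B)).take n ∈ X}.ncard
        ≤ 2 ^ (k + 1) * ({r : List Bool | r.length = B ∧ r.take n ∈ X}.ncard *
        {r : List Bool | r.length = T * B ∧ ∀ i < k, (r.drop (i * B)).take n ∈ X}.ncard) :=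
          Nat.mul_le_mul_left _ h3
      _ = (2 * {r : List Bool | r.length = B ∧ r.take n ∈ X}.ncard) *
        (2 ^ k * {r : List Bool | r.length = T * B ∧
          ∀ i < k, (r.drop (i * B)).take n ∈ X}.ncard) := by ring
      _ ≤ 2 ^ B * 2 ^ (T * B) := Nat.mul_le_mul h1 h2
      _ = 2 ^ ((T + 1) * B) := by rw [← pow_add]; congr 1; ring

theorem half_sum (N : ℕ) : ∑ l ∈ Finset.range N, ((1 : ℝ) / 2) ^ (l + 2) ≤ 1 / 2 := by
  have h : ∀ N : ℕ, ∑ l ∈ Finset.range N, ((1 : ℝ) / 2) ^ (l + 2) =
      1 / 2 - (1 / 2) ^ (N + 1) := by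
    intro N
    induction N with
    | zero => norm_num
    | succ N ih =>
      rw [Finset.sum_range_succ, ih]
      ring
  rw [h]
  have : (0 : ℝ) < (1 / 2) ^ (N + 1) := by positivity
  linarith

/-- The union bound over all strings of length at most `N`. -/
theorem union_le {X : List Bool → Set (List Bool)} {nf : ℕ → ℕ} {N B T : ℕ}
    (hX : ∀ z, X z ⊆ Str (nf z.length)) (hn : ∀ l ≤ N, nf l ≤ B)
    (hc : ∀ z, 2 * (X z).ncard ≤ 2 ^ nf z.length) (hT : 2 * N + 2 ≤ T) :
    2 * {r : List Bool | r.length = T * B ∧ ∃ z : List Bool, z.length ≤ N ∧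
      ∀ i < 2 * z.length + 2, (r.drop (i * B)).take (nf z.length) ∈ X z}.ncard ≤ 2 ^ (T * B) := by
  classical
  set S : List Bool → Set (List Bool) := fun z => {r : List Bool | r.length = T * B ∧
    ∀ i < 2 * z.length + 2, (r.drop (i * B)).take (nf z.length) ∈ X z} with hS
  have hSf : ∀ z, (S z).Finite := fun z => (str_finite (T * B)).subset fun r hr => hr.1
  have h1 : ∀ z : List Bool, z.length ≤ N →
      ((S z).ncard : ℝ) ≤ 2 ^ (T * B) * (1 / 2) ^ (2 * z.length + 2) := by
    intro z hz
    have h2 := blocks_le (hX z) (hn _ hz) (hc z) (2 * z.length + 2) T (by omega)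
    have h3 : ((2 : ℝ) ^ (2 * z.length + 2)) * (S z).ncard ≤ 2 ^ (T * B) := by exact_mod_cast h2
    have h4 : (0 : ℝ) < 2 ^ (2 * z.length + 2) := by positivity
    rw [one_div, inv_pow, ← div_eq_mul_inv, le_div_iff₀ h4]
    linarith
  -- the strings of length at most `N`
  set Z : ℕ → Finset (List Bool) := fun l => (str_finite l).toFinset with hZ
  have hZc : ∀ l, (Z l).card = 2 ^ l := by
    intro l
    rw [hZ]
    simp only
    rw [← Set.ncard_eq_toFinset_card _ (str_finite l), str_ncard]
  have hsub : {r : List Bool | r.length = T * B ∧ ∃ z : List Bool, z.length ≤ N ∧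
      ∀ i < 2 * z.length + 2, (r.drop (i * B)).take (nf z.length) ∈ X z} ⊆
      ⋃ l ∈ Finset.range (N + 1), ⋃ z ∈ Z l, S z := by
    rintro r ⟨hr1, z, hz, hr2⟩
    simp only [Set.mem_iUnion]
    refine ⟨z.length, Finset.mem_range.2 (by omega), z, ?_, hr1, hr2⟩
    exact (str_finite _).mem_toFinset.2 rfl
  have hfin : (⋃ l ∈ Finset.range (N + 1), ⋃ z ∈ Z l, S z).Finite := by
    refine Set.Finite.biUnion (Finset.finite_toSet _) fun l _ => ?_
    exact Set.Finite.biUnion (Finset.finite_toSet _) fun z _ => hSf z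
  have h5 := Set.ncard_le_ncard hsub hfin
  have h6 : (⋃ l ∈ Finset.range (N + 1), ⋃ z ∈ Z l, S z).ncard ≤
      ∑ l ∈ Finset.range (N + 1), ∑ z ∈ Z l, (S z).ncard := by
    have key : ∀ {ι : Type} (s : Finset ι) (f : ι → Set (List Bool)), (∀ i ∈ s, (f i).Finite) →
        (⋃ i ∈ s, f i).ncard ≤ ∑ i ∈ s, (f i).ncard := by
      intro ι s f
      induction s using Finset.induction_on with
      | empty => intro _; simp
      | insert a s ha ih =>
        intro hf
        rw [Finset.set_biUnion_insert, Finset.sum_insert ha]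
        refine (Set.ncard_union_le _ _).trans (Nat.add_le_add_left ?_ _)
        exact ih fun i hi => hf i (Finset.mem_insert_of_mem hi)
    refine (key _ _ fun l _ => Set.Finite.biUnion (Finset.finite_toSet _) fun z _ => hSf z).trans ?_
    exact Finset.sum_le_sum fun l _ => key _ _ fun z _ => hSf z
  have h7 : ((∑ l ∈ Finset.range (N + 1), ∑ z ∈ Z l, (S z).ncard : ℕ) : ℝ) ≤
      2 ^ (T * B) * (1 / 2) := by
    push_cast
    calc ∑ l ∈ Finset.range (N + 1), ∑ z ∈ Z l, ((S z).ncard : ℝ)
        ≤ ∑ l ∈ Finset.range (N + 1), 2 ^ (T * B) * ((1 : ℝ) / 2) ^ (l + 2) := by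
          refine Finset.sum_le_sum fun l hl => ?_
          have hl' := Finset.mem_range.1 hl
          calc ∑ z ∈ Z l, ((S z).ncard : ℝ)
              ≤ ∑ _z ∈ Z l, 2 ^ (T * B) * ((1 : ℝ) / 2) ^ (2 * l + 2) := by
                refine Finset.sum_le_sum fun z hz => ?_
                have hz' : z.length = l := (str_finite l).mem_toFinset.1 hz
                have := h1 z (by omega)
                rwa [hz'] at this
            _ = 2 ^ (T * B) * (1 / 2) ^ (l + 2) := by
                rw [Finset.sum_const, hZc, nsmul_eq_mul]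
                push_cast
                have e : ((1 : ℝ) / 2) ^ (2 * l + 2) = (1 / 2) ^ l * (1 / 2) ^ (l + 2) := by
                  rw [← pow_add]; congr 1; ring
                rw [e]
                have e2 : (2 : ℝ) ^ l * (1 / 2) ^ l = 1 := by
                  rw [← mul_pow]; norm_num
                calc (2 : ℝ) ^ l * (2 ^ (T * B) * ((1 / 2) ^ l * (1 / 2) ^ (l + 2)))
                    = (2 ^ l * (1 / 2) ^ l) * (2 ^ (T * B) * (1 / 2) ^ (l + 2)) := by ring
                  _ = _ := by rw [e2, one_mul]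
      _ = 2 ^ (T * B) * ∑ l ∈ Finset.range (N + 1), ((1 : ℝ) / 2) ^ (l + 2) := by
          rw [Finset.mul_sum]
      _ ≤ 2 ^ (T * B) * (1 / 2) := by
          refine mul_le_mul_of_nonneg_left (half_sum (N + 1)) (by positivity)
  have h8 : ((2 * {r : List Bool | r.length = T * B ∧ ∃ z : List Bool, z.length ≤ N ∧
      ∀ i < 2 * z.length + 2, (r.drop (i * B)).take (nf z.length) ∈ X z}.ncard : ℕ) : ℝ) ≤
      ((2 ^ (T * B) : ℕ) : ℝ) := by
    have h9 : (({r : List Bool | r.length = T * B ∧ ∃ z : List Bool, z.length ≤ N ∧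
      ∀ i < 2 * z.length + 2, (r.drop (i * B)).take (nf z.length) ∈ X z}.ncard : ℕ) : ℝ) ≤
      2 ^ (T * B) * (1 / 2) := by
      refine le_trans ?_ h7
      exact_mod_cast h5.trans h6
    push_cast
    linarith
  exact_mod_cast h8

end Pool.Agent.W920.NL
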