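import Pool.Agent.W920.NL.Cnt

/-!
# Amplification of small success probabilities
-/

set_option autoImplicit false

namespace Pool.Agent.W920.NL

theorem bern (q : ℕ) (hq : 1 ≤ q) : 2 * (q - 1) ^ q ≤ q ^ q := by
  obtain ⟨p, rfl⟩ : ∃ p, q = p + 1 := ⟨q - 1, by omega⟩
  simp only [Nat.add_sub_cancel]
  have h : ∀ k : ℕ, p ^ k * (p + k) ≤ (p + 1) ^ k * p := by
    intro k
    induction k with
    | zero => simp
    | succ k ih =>
      have h1 : p * (p + (k + 1)) ≤ (p + 1) * (p + k) := by nlinarith [Nat.zero_le k]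
      calc p ^ (k + 1) * (p + (k + 1)) = p ^ k * (p * (p + (k + 1))) := by ring
        _ ≤ p ^ k * ((p + 1) * (p + k)) := Nat.mul_le_mul_left _ h1
        _ = (p + 1) * (p ^ k * (p + k)) := by ring
        _ ≤ (p + 1) * ((p + 1) ^ k * p) := Nat.mul_le_mul_left _ ih
        _ = (p + 1) ^ (k + 1) * p := by ring
  rcases Nat.eq_zero_or_pos p with rfl | hp
  · simp
  · have h1 := h (p + 1)
    have h2 : p ^ (p + 1) * (p + (p + 1)) = p ^ (p + 1) * (2 * p + 1) := by ring
    rw [h2] at h1
    have h3 : p ^ (p + 1) * (2 * p) ≤ (p + 1) ^ (p + 1) * p :=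
      le_trans (Nat.mul_le_mul_left _ (by omega)) h1
    have h4 : (2 * p ^ (p + 1)) * p ≤ (p + 1) ^ (p + 1) * p := by
      calc (2 * p ^ (p + 1)) * p = p ^ (p + 1) * (2 * p) := by ring
        _ ≤ _ := h3
    exact Nat.le_of_mul_le_mul_right h4 hp

theorem pow_blocks_le {X : Set (List Bool)} {n : ℕ} (hX : X ⊆ Str n) : ∀ k : ℕ,
    {r : List Bool | r.length = k * n ∧ ∀ j < k, (r.drop (j * n)).take n ∈ X}.ncard ≤
      X.ncard ^ k := by
  have hXf : X.Finite := (str_finite n).subset hX
  intro k
  induction k with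
  | zero =>
    have h2 : {r : List Bool | r.length = 0 * n ∧ ∀ j < 0, (r.drop (j * n)).take n ∈ X} =
        Str 0 := by
      ext r
      simp [Str]
    rw [h2, str_ncard]
    simp
  | succ k ih =>
    have hf : {r : List Bool | r.length = k * n ∧
        ∀ j < k, (r.drop (j * n)).take n ∈ X}.Finite :=
      (str_finite (k * n)).subset fun r hr => hr.1
    refine (ncard_split_le (a := n) hXf hf ?_).trans ?_
    · rintro r ⟨hr1, hr2⟩
      have hr3 : (k + 1) * n = n + k * n := by ring
      refine ⟨?_, ?_, ?_⟩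
      · have := hr2 0 (by omega)
        rwa [zero_mul, List.drop_zero] at this
      · rw [List.length_drop, hr1, hr3]; omega
      · intro j hj
        have := hr2 (j + 1) (by omega)
        rw [List.drop_drop]
        have e : n + j * n = (j + 1) * n := by ring
        rw [e]
        exact this
    · rw [pow_succ, mul_comm]
      exact Nat.mul_le_mul_right _ ih

/-- If the good strings have density at least `1 / q` then at least one half of the sequences of `q`
strings contain a good one. -/
theorem amp_le {G : List Bool → Prop} {n q : ℕ}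
    (h : 2 ^ n ≤ q * {r : List Bool | r.length = n ∧ G r}.ncard) :
    2 * {r : List Bool | r.length = q * n ∧ ∀ j < q, ¬ G ((r.drop (j * n)).take n)}.ncard ≤
      2 ^ (q * n) := by
  classical
  have hq : 1 ≤ q := by
    rcases Nat.eq_zero_or_pos q with rfl | hq
    · rw [zero_mul] at h
      have : 0 < 2 ^ n := by positivity
      omega
    · exact hq
  set X : Set (List Bool) := {r | r.length = n ∧ ¬ G r} with hXdef
  have hXs : X ⊆ Str n := fun r hr => hr.1
  have hsum : {r : List Bool | r.length = n ∧ G r}.ncard + X.ncard = 2 ^ n := by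
    rw [← str_ncard n, ← Set.ncard_union_eq _ ((str_finite n).subset fun r hr => hr.1)
      ((str_finite n).subset hXs)]
    · congr 1
      ext r
      simp only [hXdef, Str, Set.mem_union, Set.mem_ofPred_eq]
      tauto
    · rw [Set.disjoint_left]
      rintro r ⟨_, hr⟩ ⟨_, hr'⟩
      exact hr' hr
  have hX : q * X.ncard ≤ (q - 1) * 2 ^ n := by
    have h1 : q * {r : List Bool | r.length = n ∧ G r}.ncard + q * X.ncard = q * 2 ^ n := by
      rw [← Nat.mul_add, hsum]
    have h2 : (q - 1) * 2 ^ n = q * 2 ^ n - 2 ^ n := by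
      rw [Nat.sub_mul, one_mul]
    omega
  have h3 : {r : List Bool | r.length = q * n ∧ ∀ j < q, ¬ G ((r.drop (j * n)).take n)}.ncard ≤
      X.ncard ^ q := by
    refine le_trans (Set.ncard_le_ncard ?_ ?_) (pow_blocks_le hXs q)
    · rintro r ⟨hr1, hr2⟩
      refine ⟨hr1, fun j hj => ⟨?_, hr2 j hj⟩⟩
      rw [List.length_take, List.length_drop, hr1]
      have h4 : (j + 1) * n ≤ q * n := Nat.mul_le_mul_right _ hj
      have h5 : (j + 1) * n = j * n + n := by ring
      omega
    · exact (str_finite (q * n)).subset fun r hr => hr.1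
  have h4 : q ^ q * (2 * X.ncard ^ q) ≤ q ^ q * 2 ^ (q * n) := by
    calc q ^ q * (2 * X.ncard ^ q) = 2 * (q * X.ncard) ^ q := by rw [mul_pow]; ring
      _ ≤ 2 * ((q - 1) * 2 ^ n) ^ q := Nat.mul_le_mul_left _ (Nat.pow_le_pow_left hX q)
      _ = (2 * (q - 1) ^ q) * 2 ^ (q * n) := by rw [mul_pow, ← pow_mul, mul_comm n q]; ring
      _ ≤ q ^ q * 2 ^ (q * n) := Nat.mul_le_mul_right _ (bern q hq)
  have h5 : 2 * X.ncard ^ q ≤ 2 ^ (q * n) :=
    Nat.le_of_mul_le_mul_left h4 (Nat.pow_pos hq)
  exact (Nat.mul_le_mul_left _ h3).trans h5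

end Pool.Agent.W920.NL
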