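import Pool.Agent.W920.NL.Run

/-!
# The verifier
-/

set_option autoImplicit false

namespace Pool.Agent.W920.NL

open Pool.Agent.NPC Pool.Agent.H251R5.PQ
open Pool.Agent.W920.LN (Tb lk lk_map)

/-- the enumerator with a coded parameter and table -/
def FB (F : Tc × List (List Bool) → List (List Bool)) (q : List Bool × List (List Bool)) :
    List (List Bool) := F ((unbits Tc q.1).getD ([], []), q.2)

theorem fb_poly {F : Tc × List (List Bool) → List (List Bool)} (hF : NPC.Poly F) :
    NPC.Poly (FB F) :=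
  hF.comp (NPC.Poly.pair (NPC.Poly.optGetD (poly_unbits.comp (NPC.Poly.fst NPC.Poly.id))
    (NPC.Poly.const ([], []))) (NPC.Poly.snd NPC.Poly.id))

theorem fb_bits (F : Tc × List (List Bool) → List (List Bool)) (tc : Tc) :
    (fun qs => FB F (bits tc, qs)) = fun qs => F (tc, qs) := by
  funext qs
  unfold FB
  simp only [unbits_bits, Option.getD_some]

theorem stp_poly (D : Ver) {F : Tc × List (List Bool) → List (List Bool)} (hF : NPC.Poly F)
    {Ks : List (List Bool) → List (List Bool)} (hKs : NPC.Poly Ks) {W : Rd} (hW : NPC.Poly W) :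
    NPC.Poly (fun q : List (List Bool) × ((Bool × St) × Tb) => stp D F Ks W q.1 q.2.1 q.2.2) := by
  have eθ : NPC.Poly (fun q : List (List Bool) × ((Bool × St) × Tb) => q.1) :=
    NPC.Poly.fst NPC.Poly.id
  have e2 : NPC.Poly (fun q : List (List Bool) × ((Bool × St) × Tb) => q.2) :=
    NPC.Poly.snd NPC.Poly.id
  have eb := NPC.Poly.fst (NPC.Poly.fst e2)
  have es := NPC.Poly.snd (NPC.Poly.fst e2)
  have etb := NPC.Poly.snd e2
  have etc : NPC.Poly (fun q : List (List Bool) × ((Bool × St) × Tb) => ((q.1, q.2.2) : Tc)) :=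
    NPC.Poly.pair eθ etb
  have ht : NPC.Poly (fun q : List (List Bool) × ((Bool × St) × Tb) =>
      test D (fun qs => F ((q.1, q.2.2), qs)) q.2.1.2) := by
    refine ((testT_poly D (fb_poly hF)).comp (NPC.Poly.pair (pql_bits.comp etc) es)).congr
      fun q => ?_
    rw [fb_bits]
  have hb : NPC.Poly (fun q : List (List Bool) × ((Bool × St) × Tb) =>
      block D (fun qs => F ((q.1, q.2.2), qs)) q.2.1.2) := by
    refine ((blockT_poly D (fb_poly hF)).comp (NPC.Poly.pair (pql_bits.comp etc) es)).congr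
      fun q => ?_
    rw [fb_bits]
  have hk : NPC.Poly (fun q : List (List Bool) × ((Bool × St) × Tb) =>
      (Ks (qlist D q.2.1.2)).all (fun z => valid W (q.1, q.2.2) z)) := by
    refine NPC.Poly.all (l := fun q : List (List Bool) × ((Bool × St) × Tb) =>
      Ks (qlist D q.2.1.2)) (p := fun q z => valid W (q.1, q.2.2) z)
      (hKs.comp ((c_PQL D).comp es)) ?_
    exact valid_poly hW (etc.comp (NPC.Poly.fst NPC.Poly.id)) (NPC.Poly.snd NPC.Poly.id)
  have hc := NPC.Poly.and hk (NPC.Poly.not ht)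
  exact NPC.Poly.pair (NPC.Poly.and eb hc) (NPC.Poly.pair (NPC.Poly.fst es)
    (NPC.Poly.pair (NPC.Poly.fst (NPC.Poly.snd es)) (NPC.Poly.append
      (NPC.Poly.snd (NPC.Poly.snd es)) (NPC.Poly.cons hb (NPC.Poly.const [])))))

/-- The verifier. -/
def vrf (D : Ver) (F : Tc × List (List Bool) → List (List Bool))
    (Ks : List (List Bool) → List (List Bool)) (W : Rd) (u0 : ℕ)
    (q : List Bool × (List (List Bool) × List Tb)) : Bool :=
  decide (q.2.2.length = par D u0 q.1 ^ 3 + 1) &&
    ((q.2.2.take (par D u0 q.1 ^ 3 + 1)).foldl (stp D F Ks W q.2.1) (true, ini D u0 q.1)).1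

theorem foldl_good {D : Ver} {F : Tc × List (List Bool) → List (List Bool)}
    {Ks : List (List Bool) → List (List Bool)} {W : Rd} {x : List Bool} {u : ℕ} (hu : 1 ≤ u)
    (hnu : D.n x ≤ u)
    (hlen : ∀ tc i s, i ≤ u ^ 3 + 1 → Good x u i s →
      32 * (Nat.log 2 (F (tc, qlist D s)).length + 1) ≤ u) (θ : List (List Bool)) :
    ∀ (tbs : List Tb) (b : Bool) (i : ℕ) (s : St), Good x u i s → i + tbs.length ≤ u ^ 3 + 1 →
      Good x u (i + tbs.length) (tbs.foldl (stp D F Ks W θ) (b, s)).2 := by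
  intro tbs
  induction tbs with
  | nil => intro b i s h _; exact h
  | cons tb tbs ih =>
    intro b i s h hi
    rw [List.length_cons] at hi ⊢
    rw [List.foldl_cons]
    have hg' := good_nxt D x u i hu hnu (fun qs => F ((θ, tb), qs)) s h
      (hlen (θ, tb) i s (by omega) h)
    have h1 := ih (b && chk D F Ks W (θ, tb) s) (i + 1) (nx D F (θ, tb) s) hg' (by omega)
    have e : i + (tbs.length + 1) = i + 1 + tbs.length := by omega
    rw [e]
    exact h1

theorem vrf_poly (D : Ver) {F : Tc × List (List Bool) → List (List Bool)} (hF : NPC.Poly F)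
    {Ks : List (List Bool) → List (List Bool)} (hKs : NPC.Poly Ks) {W : Rd} (hW : NPC.Poly W)
    (u0 : ℕ) (hu0 : 1 ≤ u0)
    (hlen : ∀ x tc i s, i ≤ par D u0 x ^ 3 + 1 → Good x (par D u0 x) i s →
      32 * (Nat.log 2 (F (tc, qlist D s)).length + 1) ≤ par D u0 x) :
    NPC.Poly (vrf D F Ks W u0) := by
  have hpar := pac_par D u0
  have hnum : UPoly (fun x => par D u0 x ^ 3 + 1) := by
    have := UPoly.eval hpar (Polynomial.X ^ 3 + 1)
    simpa only [Polynomial.eval_add, Polynomial.eval_pow, Polynomial.eval_X,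
      Polynomial.eval_one] using this
  obtain ⟨S, hS⟩ := good_size
  obtain ⟨r, hr⟩ := hpar.sz_le
  have e1 : NPC.Poly (fun q : List Bool × (List (List Bool) × List Tb) => q.1) :=
    NPC.Poly.fst NPC.Poly.id
  have e2 : NPC.Poly (fun q : List Bool × (List (List Bool) × List Tb) => q.2.1) :=
    NPC.Poly.fst (NPC.Poly.snd NPC.Poly.id)
  have e3 : NPC.Poly (fun q : List Bool × (List (List Bool) × List Tb) => q.2.2) :=
    NPC.Poly.snd (NPC.Poly.snd NPC.Poly.id)
  have hini : NPC.Poly (fun q : List Bool × (List (List Bool) × List Tb) =>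
      ((true, ini D u0 q.1) : Bool × St)) :=
    Poly.pair (NPC.Poly.const true) (Poly.pair e1 (Poly.pair (hpar.comp e1) (NPC.Poly.const [])))
  have htk : NPC.Poly (fun q : List Bool × (List (List Bool) × List Tb) =>
      q.2.2.take (par D u0 q.1 ^ 3 + 1)) := Pool.Agent.H579R2.Spt.take_poly' e3 (hnum.comp e1).toPoly
  refine Poly.and (Poly.decide_eq (Poly.length e3) (hnum.comp e1).toPoly) ?_
  refine NPC.Poly.fst (NPC.Poly.foldl (l := fun q : List Bool × (List (List Bool) × List Tb) =>
      q.2.2.take (par D u0 q.1 ^ 3 + 1))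
    (s := fun q : List Bool × (List (List Bool) × List Tb) => ((true, ini D u0 q.1) : Bool × St))
    (F := fun q => stp D F Ks W q.2.1) htk hini ?_ (S.comp r + Polynomial.C 4) ?_)
  · exact (stp_poly D hF hKs hW).comp (NPC.Poly.pair (e2.comp (NPC.Poly.fst NPC.Poly.id))
      (NPC.Poly.snd NPC.Poly.id))
  · intro q k hk
    have hkl : k ≤ par D u0 q.1 ^ 3 + 1 := hk.trans (by rw [List.length_take]; exact min_le_left _ _)
    have hpos : 1 ≤ par D u0 q.1 := by
      unfold par
      omega
    have hlk : ((q.2.2.take (par D u0 q.1 ^ 3 + 1)).take k).length = k := by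
      rw [List.length_take, min_eq_left hk]
    have h1 := foldl_good (Ks := Ks) (W := W) hpos (by unfold par; omega) (hlen q.1) q.2.1
      ((q.2.2.take (par D u0 q.1 ^ 3 + 1)).take k) true 0 (ini D u0 q.1) (good_ini D u0 q.1)
      (by rw [hlk]; omega)
    rw [hlk, Nat.zero_add] at h1
    set st := ((q.2.2.take (par D u0 q.1 ^ 3 + 1)).take k).foldl (stp D F Ks W q.2.1)
      (true, ini D u0 q.1) with hst
    have h3 := hS q.1 _ k st.2 (by unfold par; omega) hpos hkl h1
    have h4 : par D u0 q.1 ≤ r.eval (sz q) := by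
      have h5 := hr q.1
      have h6 := length_lt_sz (List.replicate (par D u0 q.1) ())
      rw [List.length_replicate] at h6
      have h7 : sz q = sz q.1 + sz q.2 + 1 := sz_pair q.1 q.2
      have h8 := eval_mono r (show sz q.1 ≤ sz q by omega)
      omega
    have h5 := eval_mono S h4
    have h6 : sz st = sz st.1 + sz st.2 + 1 := sz_pair st.1 st.2
    rw [h6, Polynomial.eval_add, Polynomial.eval_comp, Polynomial.eval_C]
    have h7 := sz_bool_le st.1
    omega

/-- **The core theorem.** -/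
theorem core (A : Set (List Bool)) (hA : NPHard A) (D c : ℕ)
    {cs : List (List Bool) → List (List Bool)} (hcs : NPC.Poly cs) {W : Rd} (hW : NPC.Poly W)
    (rW : Polynomial ℕ) (hrW : ∀ θ z w l, W (θ, (z, w)) = some l → l.length ≤ rW.eval z.length)
    (L : Set (List Bool)) (hL : InNP L) (p0 : Polynomial ℕ) :
    ∃ (V : List Bool × (List (List Bool) × List Tb) → Bool) (Nk q : Polynomial ℕ), NPC.Poly V ∧
      (∀ x θ, SndOn A D c cs W θ (fun z => z.length ≤ Nk.eval x.length) → x ∈ L →
        ∀ tbs, V (x, (θ, tbs)) = false) ∧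
      (∀ x θ, (∀ z : List Bool, z.length ≤ Nk.eval x.length → ∃ w : List Bool,
        w.length ≤ p0.eval z.length ∧ (W (θ, (z, w))).isSome = true) → x ∉ L →
        ∃ tbs : List Tb, sz tbs ≤ q.eval x.length ∧ V (x, (θ, tbs)) = true) := by
  obtain ⟨Dv, hDv⟩ := t_PAD L hL
  obtain ⟨F, Ks, r, hF, hKs, hr, hans⟩ :=
    parallel_T A hA D c hcs hW rW hrW (lang (Qry Dv)) (c_NPQ Dv)
  obtain ⟨S, hS⟩ := good_size
  obtain ⟨pq, hpq⟩ := (c_PQL Dv).sz_le
  obtain ⟨pK, hpK⟩ := hKs.sz_le
  obtain ⟨u1, hu1⟩ := t_LG (r.comp (pq.comp S))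
  set u0 : ℕ := max 2 u1 with hu0
  have hsz : ∀ x i s, i ≤ par Dv u0 x ^ 3 + 1 → Good x (par Dv u0 x) i s →
      sz (qlist Dv s) ≤ (pq.comp S).eval (par Dv u0 x) := by
    intro x i s hi hg
    have h1 := hS x _ i s (by unfold par; omega) (by unfold par; omega) hi hg
    rw [Polynomial.eval_comp]
    exact (hpq s).trans (eval_mono pq h1)
  have hlen : ∀ x tc i s, i ≤ par Dv u0 x ^ 3 + 1 → Good x (par Dv u0 x) i s →
      32 * (Nat.log 2 (F (tc, qlist Dv s)).length + 1) ≤ par Dv u0 x := by
    intro x tc i s hi hg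
    have h1 := hsz x i s hi hg
    have h2 := (hr tc (qlist Dv s)).trans (eval_mono r h1)
    rw [← Polynomial.eval_comp] at h2
    exact le_trans (Nat.mul_le_mul_left _ (Nat.succ_le_succ (Nat.log_mono_right h2)))
      (hu1 _ (by unfold par; omega))
  have hpar := pac_par Dv u0
  obtain ⟨pp, hpp⟩ := Pool.Agent.W920.LN.upoly_bound hpar
  set M : Polynomial ℕ := (pK.comp (pq.comp S)).comp pp with hM
  have hKsz : ∀ x i s, i ≤ par Dv u0 x ^ 3 + 1 → Good x (par Dv u0 x) i s →
      sz (Ks (qlist Dv s)) ≤ M.eval x.length := by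
    intro x i s hi hg
    have h1 := (hpK (qlist Dv s)).trans (eval_mono pK (hsz x i s hi hg))
    rw [← Polynomial.eval_comp] at h1
    rw [hM, Polynomial.eval_comp]
    exact h1.trans (eval_mono _ (hpp x))
  refine ⟨vrf Dv F Ks W u0, M, (pp ^ 3 + 1) * (M * (M + Polynomial.C 4 * p0.comp M + 3) + 2) + 1,
    vrf_poly Dv hF hKs hW u0 (by omega) hlen, ?_, ?_⟩
  · intro x θ hs hx tbs
    by_contra hcon
    rw [Bool.not_eq_false] at hcon
    unfold vrf at hcon
    rw [Bool.and_eq_true, decide_eq_true_eq] at hcon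
    simp only at hcon
    obtain ⟨h1, h2⟩ := hcon
    rw [← h1, List.take_length, foldl_stp, Bool.true_and] at h2
    obtain ⟨w0, hw1, hw2⟩ := (hDv x).1 hx
    have h3 := ok_sound (D := Dv) (F := F) (Ks := Ks) (W := W) (x := x) (u := par Dv u0 x)
      (by unfold par; omega) (by unfold par; omega) θ (hlen x) (fun tb i s hi hg hv =>
        hans (θ, tb) (qlist Dv s) hv (hs.mono fun z hz => by
          have e1 := sz_le_of_mem hz
          have e2 := length_lt_sz z
          have e3 := hKsz x i s hi hg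
          omega)) tbs 0 (ini Dv u0 x) (good_ini Dv u0 x) ⟨w0, hw1, hw2, rfl⟩
      (by rintro rfl; simp at h1) (by omega)
    rw [h2] at h3
    exact Bool.false_ne_true h3.symm
  · intro x θ htot hx
    have hno : ∀ w : List Bool, w.length = Dv.n x → Dv.V x w = false := by
      intro w hw
      by_contra hcon
      rw [Bool.not_eq_false] at hcon
      exact hx ((hDv x).2 ⟨w, hw, hcon⟩)
    set m : ℕ := M.eval x.length with hm
    obtain ⟨tbs, h1, h2, h3⟩ := ok_complete (D := Dv) (F := F) (Ks := Ks) (W := W) (x := x)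
      (u := par Dv u0 x) (by unfold par; omega) (by unfold par; omega) θ (hlen x) hno
      (m * (m + 4 * p0.eval m + 3) + 1) (fun i s hi hg =>
        table_of_tot htot (Ks (qlist Dv s)) m (hKsz x i s hi hg) le_rfl)
      (par Dv u0 x ^ 3 + 1) 0 (ini Dv u0 x) (good_ini Dv u0 x) (by omega)
    refine ⟨tbs, ?_, ?_⟩
    · refine (sz_le_length_mul tbs _ h2).trans ?_
      rw [h1]
      simp only [Polynomial.eval_add, Polynomial.eval_mul, Polynomial.eval_pow,
        Polynomial.eval_one, Polynomial.eval_comp, Polynomial.eval_C, Polynomial.eval_ofNat]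
      rw [← hm]
      have h4 : par Dv u0 x ^ 3 ≤ (pp.eval x.length) ^ 3 := Nat.pow_le_pow_left (hpp x) 3
      exact Nat.add_le_add_right (Nat.mul_le_mul (by omega) le_rfl) 1
    · unfold vrf
      simp only
      rw [h1, decide_eq_true rfl, Bool.true_and, ← h1, List.take_length, foldl_stp, h3]
      rfl

end Pool.Agent.W920.NL
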