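import Pool.Agent.W901.AT.DefsP

/-!
# Two-message public-coin proofs and predictions

Polynomial time is Mathlib's `Turing.TM2ComputableInPolyTime` (through `Pool.Agent.NPC.PolyTime`);
`Beats` is the notion of `Pool.Agent.W901.AT.DefsP`.
-/

set_option autoImplicit false

namespace Pool.Agent.W920.NL

open Pool.Agent.NPC Pool.Agent.W901.AT

/-- `S` has two-message public-coin proofs (Arthur-Merlin proofs) with perfect completeness and
soundness error at most `1 / 2`: the verifier sends `ρ |x|` random bits `r`, gets a reply `w` of
length at most `p |x|` and accepts if `V ((x, r), w) = [true]`. -/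
def InAM (S : Set (List Bool)) : Prop :=
  ∃ (V : List Bool → List Bool) (ρ p : Polynomial ℕ), PolyTime V ∧
    (∀ x ∈ S, ∀ r : List Bool, r.length = ρ.eval x.length →
      ∃ w : List Bool, w.length ≤ p.eval x.length ∧ V (pairBits (pairBits x r) w) = [true]) ∧
    ∀ x, x ∉ S → 2 * {r : List Bool | r.length = ρ.eval x.length ∧
      ∃ w : List Bool, w.length ≤ p.eval x.length ∧
        V (pairBits (pairBits x r) w) = [true]}.ncard ≤ 2 ^ ρ.eval x.length

/-- `h` is an output on the input `z` with the random bits `r`: a string `w` of length at most
`p |z|` is received, and the output is `v` if `g ((z, r), w) = some v`; there is none if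
`g ((z, r), w) = none`. -/
def AMOutputs (g : List Bool → Option (List (Option Bool))) (p : Polynomial ℕ)
    (z r : List Bool) (h : List (Option Bool)) : Prop :=
  ∃ w : List Bool, w.length ≤ p.eval z.length ∧ g (pairBits (pairBits z r) w) = some h

/-- `A` is `(δ, ε)`-predictable with public coins: there is a polynomial-time algorithm which on
input `z` sends `ρ |z|` random bits to a prover and computes an output from the reply (or rejects
the reply), such that for every input and all random bits there is a reply which gives an output,
and, given a nonempty list of `m` questions about membership in `A`, each of length at most `m ^ ε`,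
and `b (⌊log₂ n⌋ + 1)` bits of information about the list from any source (`n` is the length of the
code of the list), for at least half of the random bits all replies give outputs which beat random
guessing by `m ^ δ` standard deviations. -/
def AMPredictable (δ ε : ℝ) (A : Set (List Bool)) : Prop :=
  ∃ (g : List Bool → Option (List (Option Bool))) (ρ p : Polynomial ℕ)
    (u : List (List Bool) → List Bool) (b : ℕ),
    PolyTime (fun z => bits (g z)) ∧
    (∀ z r : List Bool, r.length = ρ.eval z.length → ∃ h, AMOutputs g p z r h) ∧
    (∀ qs, (u qs).length = b * (Nat.log 2 (bits qs).length + 1)) ∧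
      ∀ qs : List (List Bool), qs ≠ [] → (∀ y ∈ qs, (y.length : ℝ) ≤ (qs.length : ℝ) ^ ε) →
        2 * {r : List Bool | r.length = ρ.eval (pairBits (bits qs) (u qs)).length ∧
          ∃ h, AMOutputs g p (pairBits (bits qs) (u qs)) r h ∧ ¬ Beats δ A qs h}.ncard ≤
            2 ^ ρ.eval (pairBits (bits qs) (u qs)).length

/-- `A` is fully `δ`-predictable with public coins: the same with predictions for all questions,
and for all nonempty lists of questions of any length. -/
def AMFullyPredictable (δ : ℝ) (A : Set (List Bool)) : Prop :=
  ∃ (g : List Bool → Option (List (Option Bool))) (ρ p : Polynomial ℕ)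
    (u : List (List Bool) → List Bool) (b : ℕ),
    PolyTime (fun z => bits (g z)) ∧
    (∀ z r : List Bool, r.length = ρ.eval z.length → ∃ h, AMOutputs g p z r h) ∧
    (∀ qs, (u qs).length = b * (Nat.log 2 (bits qs).length + 1)) ∧
      ∀ qs : List (List Bool), qs ≠ [] →
        2 * {r : List Bool | r.length = ρ.eval (pairBits (bits qs) (u qs)).length ∧
          ∃ h, AMOutputs g p (pairBits (bits qs) (u qs)) r h ∧
            ¬ (Beats δ A qs h ∧ ∀ a ∈ h, a ≠ none)}.ncard ≤
            2 ^ ρ.eval (pairBits (bits qs) (u qs)).length

end Pool.Agent.W920.NL
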