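import Pool.Agent.W901.AT.DefsP

/-!
# Predictions by probabilistic algorithms; the classes `RP` and `BPP`

Polynomial time is Mathlib's `Turing.TM2ComputableInPolyTime` (through `Pool.Agent.NPC.PolyTime`);
`Beats` is the notion of `Pool.Agent.W901.AT.DefsP`.
-/

set_option autoImplicit false

namespace Pool.Agent.W920.NL

open Pool.Agent.NPC Pool.Agent.W901.AT

/-- The class `RP`: a polynomial-time algorithm with `ρ |x|` random bits accepts every member with
probability at least `1 / 2` and never accepts a nonmember. -/
def InRP (S : Set (List Bool)) : Prop :=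
  ∃ (V : List Bool → List Bool) (ρ : Polynomial ℕ), PolyTime V ∧
    (∀ x ∈ S, 2 ^ ρ.eval x.length ≤ 2 * {r : List Bool | r.length = ρ.eval x.length ∧
      V (pairBits x r) = [true]}.ncard) ∧
    ∀ x, x ∉ S → ∀ r : List Bool, r.length = ρ.eval x.length → V (pairBits x r) ≠ [true]

/-- The class `BPP`: a polynomial-time algorithm with `ρ |x|` random bits is right with probability
at least `2 / 3`. -/
def InBPP (S : Set (List Bool)) : Prop :=
  ∃ (V : List Bool → List Bool) (ρ : Polynomial ℕ), PolyTime V ∧
    ∀ x, 2 * 2 ^ ρ.eval x.length ≤ 3 * {r : List Bool | r.length = ρ.eval x.length ∧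
      (V (pairBits x r) = [true] ↔ x ∈ S)}.ncard

/-- `A` is randomly `(δ, ε)`-predictable: there is a probabilistic polynomial-time algorithm which,
given a nonempty list of `m` questions about membership in `A`, each of length at most `m ^ ε`,
beats random guessing by `m ^ δ` standard deviations with probability at least `1 / q n`, where `q`
is a polynomial and `n` is the length of the code of the list. -/
def RandPredictable (δ ε : ℝ) (A : Set (List Bool)) : Prop :=
  ∃ (g : List Bool → List (Option Bool)) (ρ q : Polynomial ℕ), PolyTime (fun z => bits (g z)) ∧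
    ∀ qs : List (List Bool), qs ≠ [] → (∀ y ∈ qs, (y.length : ℝ) ≤ (qs.length : ℝ) ^ ε) →
      2 ^ ρ.eval (bits qs).length ≤ q.eval (bits qs).length *
        {r : List Bool | r.length = ρ.eval (bits qs).length ∧
          Beats δ A qs (g (pairBits (bits qs) r))}.ncard

/-- `A` is randomly fully `δ`-predictable: there is a probabilistic polynomial-time algorithm which,
given any nonempty list of questions about membership in `A`, with probability at least
`1 - 1 / 2 ^ n`, where `n` is the length of the code of the list, makes predictions for all
questions and beats random guessing by `m ^ δ` standard deviations. -/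
def RandFullyPredictable (δ : ℝ) (A : Set (List Bool)) : Prop :=
  ∃ (g : List Bool → List (Option Bool)) (ρ : Polynomial ℕ), PolyTime (fun z => bits (g z)) ∧
    ∀ qs : List (List Bool), qs ≠ [] →
      2 ^ (bits qs).length * {r : List Bool | r.length = ρ.eval (bits qs).length ∧
        ¬ (Beats δ A qs (g (pairBits (bits qs) r)) ∧
          ∀ a ∈ g (pairBits (bits qs) r), a ≠ none)}.ncard ≤ 2 ^ ρ.eval (bits qs).length

end Pool.Agent.W920.NL
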