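import Pool.Agent.W920.NL.Core
import Pool.Agent.W901.AT.Cov

/-!
# Full predictors from certificates for both answers
-/

set_option autoImplicit false

namespace Pool.Agent.W920.NL

open Pool.Agent.NPC Pool.Agent.H251R5.PQ Pool.Agent.W901.AT Pool.Agent.H579R2.Spt

/-- Certificate checkers: parameter, question, certificate. -/
abbrev Ck := List (List Bool) × (List Bool × List Bool) → Bool

/-- `v` is a vector of answers to `qs` certified by `ws`. -/
def chkV (V1 V2 : Ck) (θ : List (List Bool)) (qs : List (List Bool)) (v : List Bool)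
    (ws : List (List Bool)) : Bool :=
  decide (v.length = qs.length) && (decide (ws.length = qs.length) &&
    (v.zip (qs.zip ws)).all fun t => bif t.1 then V1 (θ, t.2) else V2 (θ, t.2))

theorem chkV_sound {V1 V2 : Ck} {A : Set (List Bool)} {θ : List (List Bool)} :
    ∀ {qs : List (List Bool)} {v : List Bool} {ws : List (List Bool)},
      (∀ q ∈ qs, ∀ w, V1 (θ, (q, w)) = true → q ∈ A) →
      (∀ q ∈ qs, ∀ w, V2 (θ, (q, w)) = true → q ∉ A) →
      chkV V1 V2 θ qs v ws = true → v = answers A qs := by
  classical
  intro qs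
  induction qs with
  | nil =>
    intro v ws _ _ h
    unfold chkV at h
    rw [Bool.and_eq_true, decide_eq_true_eq] at h
    simpa [answers] using h.1
  | cons q qs ih =>
    intro v ws h1 h2 h
    unfold chkV at h
    rw [Bool.and_eq_true, Bool.and_eq_true, decide_eq_true_eq, decide_eq_true_eq] at h
    obtain ⟨hv, hw, hall⟩ := h
    obtain ⟨b, v, rfl⟩ : ∃ b v', v = b :: v' := by
      cases v with
      | nil => simp at hv
      | cons b v => exact ⟨b, v, rfl⟩
    obtain ⟨w, ws, rfl⟩ : ∃ w ws', ws = w :: ws' := by
      cases ws with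
      | nil => simp at hw
      | cons b v => exact ⟨b, v, rfl⟩
    rw [List.zip_cons_cons, List.zip_cons_cons, List.all_cons, Bool.and_eq_true] at hall
    have h3 : v = answers A qs := by
      refine ih (ws := ws) (fun q hq => h1 q (List.mem_cons_of_mem _ hq))
        (fun q hq => h2 q (List.mem_cons_of_mem _ hq)) ?_
      unfold chkV
      rw [Bool.and_eq_true, Bool.and_eq_true, decide_eq_true_eq, decide_eq_true_eq]
      simp only [List.length_cons, add_left_inj] at hv hw
      exact ⟨hv, hw, hall.2⟩
    have h4 : b = decide (q ∈ A) := by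
      have h5 := hall.1
      cases b with
      | true =>
        exact (decide_eq_true (h1 q List.mem_cons_self w h5)).symm
      | false =>
        exact (decide_eq_false (h2 q List.mem_cons_self w h5)).symm
    rw [h3, h4]
    simp [answers]

theorem chkV_complete {V1 V2 : Ck} {A : Set (List Bool)} {θ : List (List Bool)} (N : ℕ) :
    ∀ {qs : List (List Bool)},
      (∀ q ∈ qs, q ∈ A → ∃ w : List Bool, w.length ≤ N ∧ V1 (θ, (q, w)) = true) →
      (∀ q ∈ qs, q ∉ A → ∃ w : List Bool, w.length ≤ N ∧ V2 (θ, (q, w)) = true) →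
      ∃ ws : List (List Bool), ws.length = qs.length ∧ (∀ w ∈ ws, w.length ≤ N) ∧
        chkV V1 V2 θ qs (answers A qs) ws = true := by
  classical
  intro qs
  induction qs with
  | nil => intro _ _; exact ⟨[], rfl, by simp, by simp [chkV, answers]⟩
  | cons q qs ih =>
    intro h1 h2
    obtain ⟨ws, e1, e2, e3⟩ := ih (fun q hq => h1 q (List.mem_cons_of_mem _ hq))
      (fun q hq => h2 q (List.mem_cons_of_mem _ hq))
    have h3 : ∃ w : List Bool, w.length ≤ N ∧
        (bif decide (q ∈ A) then V1 (θ, (q, w)) else V2 (θ, (q, w))) = true := by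
      by_cases hq : q ∈ A
      · obtain ⟨w, hw1, hw2⟩ := h1 q List.mem_cons_self hq
        exact ⟨w, hw1, by rw [decide_eq_true hq]; exact hw2⟩
      · obtain ⟨w, hw1, hw2⟩ := h2 q List.mem_cons_self hq
        exact ⟨w, hw1, by rw [decide_eq_false hq]; exact hw2⟩
    obtain ⟨w, hw1, hw2⟩ := h3
    refine ⟨w :: ws, by simp [e1], ?_, ?_⟩
    · intro w' hw'
      rcases List.mem_cons.1 hw' with rfl | h
      · exact hw1
      · exact e2 _ h
    · unfold chkV at e3 ⊢
      rw [Bool.and_eq_true, Bool.and_eq_true, decide_eq_true_eq, decide_eq_true_eq] at e3 ⊢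
      refine ⟨by simp [answers], by simp [e1], ?_⟩
      have h4 : answers A (q :: qs) = decide (q ∈ A) :: answers A qs := by simp [answers]
      rw [h4, List.zip_cons_cons, List.zip_cons_cons, List.all_cons, Bool.and_eq_true]
      exact ⟨hw2, e3.2.2⟩

/-- the list of questions coded in a key -/
def lst (z : List Bool) : List (List Bool) := (unbits (List (List Bool)) (unpair z).1).getD []

/-- The predictor: the guess `w` codes the answers with certificates. -/
def gg (V1 V2 : Ck) (q : List (List Bool) × (List Bool × List Bool)) :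
    Option (List (Option Bool)) :=
  (unbits (List Bool × List (List Bool)) q.2.2).elim none fun vw =>
    bif chkV V1 V2 q.1 (lst q.2.1) vw.1 vw.2 then some (vw.1.map some) else none

theorem zip_poly' {α β γ : Type} [TEnc α] [TEnc β] [TEnc γ] {l : α → List β} {m : α → List γ}
    (hl : NPC.Poly l) (hm : NPC.Poly m) : NPC.Poly (fun a => (l a).zip (m a)) :=
  NPC.Poly.zip hl hm

theorem gg_poly {V1 V2 : Ck} (h1 : NPC.Poly V1) (h2 : NPC.Poly V2) : NPC.Poly (gg V1 V2) := by
  have e1 : NPC.Poly (fun q : (List (List Bool) × (List Bool × List Bool)) ×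
      (List Bool × List (List Bool)) => q.1.1) := NPC.Poly.fst (NPC.Poly.fst NPC.Poly.id)
  have e2 : NPC.Poly (fun q : (List (List Bool) × (List Bool × List Bool)) ×
      (List Bool × List (List Bool)) => lst q.1.2.1) :=
    listOf_poly.comp (NPC.Poly.fst (NPC.Poly.snd (NPC.Poly.fst NPC.Poly.id)))
  have e3 : NPC.Poly (fun q : (List (List Bool) × (List Bool × List Bool)) ×
      (List Bool × List (List Bool)) => q.2.1) := NPC.Poly.fst (NPC.Poly.snd NPC.Poly.id)
  have e4 : NPC.Poly (fun q : (List (List Bool) × (List Bool × List Bool)) ×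
      (List Bool × List (List Bool)) => q.2.2) := NPC.Poly.snd (NPC.Poly.snd NPC.Poly.id)
  have hc : NPC.Poly (fun q : (List (List Bool) × (List Bool × List Bool)) ×
      (List Bool × List (List Bool)) => chkV V1 V2 q.1.1 (lst q.1.2.1) q.2.1 q.2.2) := by
    unfold chkV
    refine NPC.Poly.and (NPC.Poly.decide_eq (NPC.Poly.length e3) (NPC.Poly.length e2))
      (NPC.Poly.and (NPC.Poly.decide_eq (NPC.Poly.length e4) (NPC.Poly.length e2)) ?_)
    refine NPC.Poly.all (p := fun (q : (List (List Bool) × (List Bool × List Bool)) ×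
      (List Bool × List (List Bool))) (t : Bool × (List Bool × List Bool)) =>
        bif t.1 then V1 (q.1.1, t.2) else V2 (q.1.1, t.2)) (zip_poly' e3 (zip_poly' e2 e4)) ?_
    have c1 := NPC.Poly.pair (e1.comp (NPC.Poly.fst (NPC.Poly.id
      (α := ((List (List Bool) × (List Bool × List Bool)) × (List Bool × List (List Bool))) ×
        (Bool × (List Bool × List Bool)))))) (NPC.Poly.snd (NPC.Poly.snd NPC.Poly.id))
    exact NPC.Poly.cond (NPC.Poly.fst (NPC.Poly.snd NPC.Poly.id)) (h1.comp c1) (h2.comp c1)
  refine (NPC.Poly.optCases (o := fun q : List (List Bool) × (List Bool × List Bool) =>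
      unbits (List Bool × List (List Bool)) q.2.2) (g := fun _ => none)
    (h := fun q vw => bif chkV V1 V2 q.1 (lst q.2.1) vw.1 vw.2 then some (vw.1.map some) else none)
    (poly_unbits.comp (NPC.Poly.snd (NPC.Poly.snd NPC.Poly.id))) (NPC.Poly.const none)
    (NPC.Poly.cond hc (NPC.Poly.some (NPC.Poly.map (F := fun _ b => some b) e3
      (NPC.Poly.some (NPC.Poly.snd NPC.Poly.id)))) (NPC.Poly.const none))).congr fun q => ?_
  unfold gg
  cases unbits (List Bool × List (List Bool)) q.2.2 <;> rfl

theorem gg_sound {V1 V2 : Ck} {A : Set (List Bool)} {θ : List (List Bool)} {z w : List Bool}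
    {h : List (Option Bool)}
    (h1 : ∀ q ∈ lst z, ∀ w, V1 (θ, (q, w)) = true → q ∈ A)
    (h2 : ∀ q ∈ lst z, ∀ w, V2 (θ, (q, w)) = true → q ∉ A)
    (hg : gg V1 V2 (θ, (z, w)) = some h) : h = (answers A (lst z)).map some := by
  unfold gg at hg
  cases hu : unbits (List Bool × List (List Bool)) w with
  | none => simp only [hu, Option.elim] at hg; exact absurd hg (by simp)
  | some vw =>
    simp only [hu, Option.elim] at hg
    cases hc : chkV V1 V2 θ (lst z) vw.1 vw.2 with
    | false => rw [hc, cond_false] at hg; exact absurd hg (by simp)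
    | true =>
      rw [hc, cond_true] at hg
      rw [← chkV_sound h1 h2 hc]
      exact (Option.some.inj hg).symm

theorem gg_complete {V1 V2 : Ck} {A : Set (List Bool)} {θ : List (List Bool)} (z : List Bool)
    (N : ℕ)
    (h1 : ∀ q ∈ lst z, q ∈ A → ∃ w : List Bool, w.length ≤ N ∧ V1 (θ, (q, w)) = true)
    (h2 : ∀ q ∈ lst z, q ∉ A → ∃ w : List Bool, w.length ≤ N ∧ V2 (θ, (q, w)) = true) :
    ∃ w : List Bool, w.length ≤ 4 * (lst z).length + (lst z).length * (4 * N + 2) + 3 ∧
      gg V1 V2 (θ, (z, w)) = some ((answers A (lst z)).map some) := by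
  obtain ⟨ws, e1, e2, e3⟩ := chkV_complete N h1 h2
  refine ⟨bits (answers A (lst z), ws), ?_, ?_⟩
  · rw [bits_length, sz_pair]
    have f1 := sz_listBool_le (answers A (lst z))
    have f2 : (answers A (lst z)).length = (lst z).length := by simp [answers]
    have f3 := sz_le_length_mul ws (4 * N + 1) (fun w hw => by
      have := sz_listBool_le w
      have := e2 w hw
      omega)
    rw [e1] at f3
    have f4 : (lst z).length * (4 * N + 1 + 1) = (lst z).length * (4 * N + 2) := by ring
    omega
  · unfold gg
    simp only [unbits_bits, Option.elim]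
    rw [e3, cond_true]

theorem ustep_len (s : List Bool × List Bool × Bool) :
    (ustep s).1.length + (ustep s).2.1.length ≤ s.1.length + s.2.1.length := by
  obtain ⟨a, l, b⟩ := s
  unfold ustep
  cases b with
  | true => simp
  | false =>
    match l with
    | [] => simp
    | true :: [] => simp
    | true :: c :: l => simp; omega
    | false :: l => simp

theorem unpair_len (y : List Bool) : (unpair y).1.length + (unpair y).2.length ≤ y.length := by
  have h : ∀ k, (ustep^[k] ([], y, false)).1.length + (ustep^[k] ([], y, false)).2.1.length ≤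
      y.length := by
    intro k
    induction k with
    | zero => simp
    | succ k ih =>
      rw [Function.iterate_succ_apply']
      exact (ustep_len _).trans ih
  unfold unpair
  simp only [List.length_reverse]
  exact h _

theorem unpair_fst_length (y : List Bool) : (unpair y).1.length ≤ y.length :=
  (Nat.le_add_right _ _).trans (unpair_len y)

theorem lst_le (z : List Bool) : (lst z).length ≤ z.length ∧ ∀ q ∈ lst z, q.length ≤ z.length := by
  unfold lst
  have h0 : (unpair z).1.length ≤ z.length := unpair_fst_length z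
  cases hu : unbits (List (List Bool)) (unpair z).1 with
  | none => simp
  | some l =>
    rw [Option.getD_some]
    have h1 := bits_of_unbits hu
    have h2 : sz l = (unpair z).1.length := by rw [← bits_length, h1]
    have h3 := length_lt_sz l
    refine ⟨by omega, fun q hq => ?_⟩
    have h4 := sz_le_of_mem hq
    have h5 := length_lt_sz q
    omega

end Pool.Agent.W920.NL
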