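import Pool.Agent.W920.NL.Law1
import Pool.Agent.W920.NL.Cnt
import Pool.Agent.W920.NL.DefsAM
import Pool.Agent.H579R2.Spt.VV3

/-!
# Prediction of `NP`-hard sets with public coins and `coNP ⊆ AM`
-/

set_option autoImplicit false

namespace Pool.Agent.W920.NL

open Pool.Agent.NPC Pool.Agent.H251R5.PQ Pool.Agent.W901.AT Pool.Agent.H579R2.Spt
open Pool.Agent.W920.LN (Tb lk good_of_beats inNP_of)

/-- the blocks of random bits -/
def blk (B T : ℕ) (r : List Bool) : List (List Bool) :=
  (List.range T).map fun i => (r.drop (i * B)).take B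

theorem blk_length (B T : ℕ) (r : List Bool) : (blk B T r).length = T := by simp [blk]

theorem blk_getD {B T : ℕ} {r : List Bool} {i : ℕ} (hi : i < T) :
    (blk B T r).getD i [] = (r.drop (i * B)).take B := by
  unfold blk
  rw [List.getD_eq_getElem?_getD, List.getElem?_map, List.getElem?_range hi]
  rfl

theorem blk_take {B T : ℕ} {r : List Bool} {i n : ℕ} (hi : i < T) (hn : n ≤ B) :
    ((blk B T r).getD i []).take n = (r.drop (i * B)).take n := by
  rw [blk_getD hi, List.take_take, min_eq_left hn]

theorem blk_take_length {B T : ℕ} {r : List Bool} {i n : ℕ} (hr : r.length = T * B) (hi : i < T)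
    (hn : n ≤ B) : (((blk B T r).getD i []).take n).length = n := by
  rw [blk_take hi hn, List.length_take, List.length_drop, hr]
  have h1 : (i + 1) * B ≤ T * B := Nat.mul_le_mul_right _ hi
  have h2 : (i + 1) * B = i * B + B := by ring
  omega

theorem blk_poly {α : Type} [TEnc α] {B T : α → ℕ} {r : α → List Bool} (hB : UPoly B)
    (hT : UPoly T) (hr : NPC.Poly r) : NPC.Poly (fun a => blk (B a) (T a) (r a)) := by
  refine NPC.Poly.map (l := fun a => List.range (T a))
    (F := fun a i => ((r a).drop (i * B a)).take (B a)) hT.range ?_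
  have e1 : NPC.Poly (fun q : α × ℕ => q.1) := NPC.Poly.fst NPC.Poly.id
  have e2 : NPC.Poly (fun q : α × ℕ => q.2) := NPC.Poly.snd NPC.Poly.id
  exact take_poly' (drop_poly' (hr.comp e1) (NPC.Poly.mul e2 (hB.comp e1).toPoly))
    (hB.comp e1).toPoly

/-- the output number `i` -/
def oa (g : List Bool → Option (List (Option Bool))) (ρ p : Polynomial ℕ) (θ : List (List Bool))
    (z : List Bool) (ws : List (List Bool)) (i : ℕ) : Option (List (Option Bool)) :=
  bif decide ((ws.getD i []).length ≤ p.eval z.length) then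
    g (pairBits (pairBits z ((θ.getD i []).take (ρ.eval z.length))) (ws.getD i [])) else none

/-- the reader of a predictor with public coins -/
def rdA (g : List Bool → Option (List (Option Bool))) (ρ p : Polynomial ℕ) : Rd := fun q =>
  bif (List.range (2 * q.2.1.length + 2)).all
      (fun i => (oa g ρ p q.1 q.2.1 (dl q.2.2) i).isSome) then
    some ((List.range (2 * q.2.1.length + 2)).map
      fun i => (oa g ρ p q.1 q.2.1 (dl q.2.2) i).getD []) else none

theorem rdA_poly {g : List Bool → Option (List (Option Bool))} (hg : NPC.Poly g)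
    (ρ p : Polynomial ℕ) : NPC.Poly (rdA g ρ p) := by
  have hoa : NPC.Poly (fun a : (List (List Bool) × (List Bool × List Bool)) × ℕ =>
      oa g ρ p a.1.1 a.1.2.1 (dl a.1.2.2) a.2) := by
    have e1 : NPC.Poly (fun a : (List (List Bool) × (List Bool × List Bool)) × ℕ => a.1.1) :=
      NPC.Poly.fst (NPC.Poly.fst NPC.Poly.id)
    have e2 : NPC.Poly (fun a : (List (List Bool) × (List Bool × List Bool)) × ℕ => a.1.2.1) :=
      NPC.Poly.fst (NPC.Poly.snd (NPC.Poly.fst NPC.Poly.id))
    have e3 : NPC.Poly (fun a : (List (List Bool) × (List Bool × List Bool)) × ℕ =>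
        (dl a.1.2.2).getD a.2 []) :=
      NPC.Poly.getD (dl_poly.comp (NPC.Poly.snd (NPC.Poly.snd (NPC.Poly.fst NPC.Poly.id))))
        (NPC.Poly.snd NPC.Poly.id) (NPC.Poly.const [])
    have e4 : NPC.Poly (fun a : (List (List Bool) × (List Bool × List Bool)) × ℕ =>
        (a.1.1).getD a.2 []) :=
      NPC.Poly.getD e1 (NPC.Poly.snd NPC.Poly.id) (NPC.Poly.const [])
    exact NPC.Poly.cond (NPC.Poly.decide_le (NPC.Poly.length e3)
      ((UPoly.length e2).eval p).toPoly)
      (hg.comp (H622R2.poly_pairBits (H622R2.poly_pairBits e2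
        (take_poly' e4 ((UPoly.length e2).eval ρ).toPoly)) e3)) (NPC.Poly.const none)
  have hr : NPC.Poly (fun q : List (List Bool) × (List Bool × List Bool) =>
      List.range (2 * q.2.1.length + 2)) :=
    (((UPoly.const 2).mul (UPoly.length (NPC.Poly.fst (NPC.Poly.snd NPC.Poly.id)))).add
      (UPoly.const 2)).range
  refine NPC.Poly.cond (NPC.Poly.all (l := fun q : List (List Bool) × (List Bool × List Bool) =>
      List.range (2 * q.2.1.length + 2))
      (p := fun q i => (oa g ρ p q.1 q.2.1 (dl q.2.2) i).isSome) hr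
      (Pool.Agent.W920.LN.isSome_poly hoa)) ?_ (NPC.Poly.const none)
  exact NPC.Poly.some (NPC.Poly.map (l := fun q : List (List Bool) × (List Bool × List Bool) =>
      List.range (2 * q.2.1.length + 2))
      (F := fun q i => (oa g ρ p q.1 q.2.1 (dl q.2.2) i).getD []) hr
      (NPC.Poly.optGetD hoa (NPC.Poly.const [])))

theorem rdA_some {g : List Bool → Option (List (Option Bool))} {ρ p : Polynomial ℕ}
    {θ : List (List Bool)} {z w : List Bool} {l : List (List (Option Bool))}
    (h : rdA g ρ p (θ, (z, w)) = some l) :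
    l.length = 2 * z.length + 2 ∧ ∀ i < 2 * z.length + 2, ∃ h ∈ l,
      AMOutputs g p z ((θ.getD i []).take (ρ.eval z.length)) h := by
  unfold rdA at h
  simp only at h
  cases hc : (List.range (2 * z.length + 2)).all
      (fun i => (oa g ρ p θ z (dl w) i).isSome) with
  | false => rw [hc, cond_false] at h; exact absurd h (by simp)
  | true =>
    rw [hc, cond_true] at h
    have h1 := Option.some.inj h
    refine ⟨by rw [← h1]; simp, fun i hi => ?_⟩
    rw [List.all_eq_true] at hc
    obtain ⟨h', hh'⟩ := Option.isSome_iff_exists.1 (hc i (List.mem_range.2 hi))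
    refine ⟨h', ?_, ?_⟩
    · rw [← h1]
      refine List.mem_map.2 ⟨i, List.mem_range.2 hi, ?_⟩
      rw [hh', Option.getD_some]
    · unfold oa at hh'
      by_cases hw : ((dl w).getD i []).length ≤ p.eval z.length
      · rw [decide_eq_true hw, cond_true] at hh'
        exact ⟨_, hw, hh'⟩
      · rw [decide_eq_false hw, cond_false] at hh'
        exact absurd hh' (by simp)

theorem rdA_total {g : List Bool → Option (List (Option Bool))} {ρ p : Polynomial ℕ}
    (hT : ∀ z r : List Bool, r.length = ρ.eval z.length → ∃ h, AMOutputs g p z r h)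
    {θ : List (List Bool)} {z : List Bool}
    (hθ : ∀ i < 2 * z.length + 2, ((θ.getD i []).take (ρ.eval z.length)).length =
      ρ.eval z.length) :
    ∃ w : List Bool, w.length ≤ ((Polynomial.C 2 * Polynomial.X + 2) *
      (Polynomial.C 4 * p + 2) + 1).eval z.length ∧ (rdA g ρ p (θ, (z, w))).isSome = true := by
  classical
  have h1 : ∀ i, ∃ w : List Bool, w.length ≤ p.eval z.length ∧ (i < 2 * z.length + 2 →
      ∃ h, g (pairBits (pairBits z ((θ.getD i []).take (ρ.eval z.length))) w) = some h) := by
    intro i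
    by_cases hi : i < 2 * z.length + 2
    · obtain ⟨h, w, hw1, hw2⟩ := hT z _ (hθ i hi)
      exact ⟨w, hw1, fun _ => ⟨h, hw2⟩⟩
    · exact ⟨[], Nat.zero_le _, fun h => absurd h hi⟩
  choose w hw1 hw2 using h1
  set ws : List (List Bool) := (List.range (2 * z.length + 2)).map w with hws
  refine ⟨bits ws, ?_, ?_⟩
  · rw [bits_length]
    have h2 := sz_le_length_mul ws (4 * p.eval z.length + 1) (fun v hv => by
      obtain ⟨i, _, rfl⟩ := List.mem_map.1 hv
      have := sz_listBool_le (w i)
      have := hw1 i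
      omega)
    have h3 : ws.length = 2 * z.length + 2 := by simp [hws]
    rw [h3] at h2
    simp only [Polynomial.eval_add, Polynomial.eval_mul, Polynomial.eval_C, Polynomial.eval_X,
      Polynomial.eval_one, Polynomial.eval_ofNat]
    have h4 : (2 * z.length + 2) * (4 * p.eval z.length + 1 + 1) + 1 =
      (2 * z.length + 2) * (4 * p.eval z.length + 2) + 1 := by ring
    omega
  · unfold rdA
    simp only
    have h2 : (List.range (2 * z.length + 2)).all
        (fun i => (oa g ρ p θ z (dl (bits ws)) i).isSome) = true := by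
      rw [List.all_eq_true]
      intro i hi
      have hi' := List.mem_range.1 hi
      have h3 : (dl (bits ws)).getD i [] = w i := by
        rw [dl_bits, hws, List.getD_eq_getElem?_getD, List.getElem?_map,
          List.getElem?_range hi']
        rfl
      unfold oa
      rw [h3, decide_eq_true (hw1 i), cond_true]
      obtain ⟨h, hh⟩ := hw2 i hi'
      rw [hh]
      rfl
    rw [h2, cond_true]
    rfl

theorem exists_consts {δ ε : ℝ} (hδ : 0 < δ) (hε : 0 < ε) : ∃ D c : ℕ,
    1 ≤ (D : ℝ) * (2 * δ) ∧ ∀ qs : List (List Bool), qs ≠ [] →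
      (∀ y ∈ qs, y.length ^ c ≤ qs.length) →
      ∀ y ∈ qs, (y.length : ℝ) ≤ (qs.length : ℝ) ^ ε := by
  obtain ⟨D, hD⟩ := exists_nat_ge (1 / (2 * δ))
  have hD1 : 1 ≤ (D : ℝ) * (2 * δ) := by
    rwa [div_le_iff₀ (by linarith)] at hD
  obtain ⟨c, hc⟩ := exists_nat_ge (1 / ε)
  have hc1 : 1 ≤ (c : ℝ) * ε := by
    rwa [div_le_iff₀ hε] at hc
  refine ⟨D, c, hD1, fun qs hqs hlen y hy => ?_⟩
  have hm : 1 ≤ qs.length := length_pos hqs
  have hm1 : (1 : ℝ) ≤ qs.length := by exact_mod_cast hm
  have h3 : (y.length : ℝ) ^ c ≤ qs.length := by exact_mod_cast hlen y hy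
  have h4 : (qs.length : ℝ) ≤ ((qs.length : ℝ) ^ ε) ^ c := by
    rw [← Real.rpow_natCast, ← Real.rpow_mul (by positivity)]
    calc (qs.length : ℝ) = (qs.length : ℝ) ^ (1 : ℝ) := (Real.rpow_one _).symm
      _ ≤ _ := Real.rpow_le_rpow_of_exponent_le hm1 (by linarith)
  have hc0 : c ≠ 0 := by
    rintro rfl
    norm_num at hc1
  exact le_of_pow_le_pow_left₀ hc0 (by positivity) (h3.trans h4)

/-- **A predictor with public coins for an `NP`-hard set puts the complements of `NP` sets in
`AM`.** -/
theorem inAM_of_ampredictable {δ ε : ℝ} (hδ : 0 < δ) (hε : 0 < ε) {A : Set (List Bool)}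
    (hA : NPHard A) (h : AMPredictable δ ε A) {L : Set (List Bool)} (hL : InNP L) :
    InAM Lᶜ := by
  classical
  obtain ⟨g, ρ, p, u, b, hg, hT, hu, hX⟩ := h
  obtain ⟨D, c, hD1, hlen⟩ := exists_consts hδ hε
  set cs : List (List Bool) → List (List Bool) :=
    fun qs => enuStep^[b * (Nat.log 2 (bits qs).length + 1)] [[]] with hcs
  obtain ⟨V, Nk, q, hV, hs, hc⟩ := core A hA D c (cs := cs) (enu_poly_all b)
    (rdA_poly (poly_of_bits' hg) ρ p) (Polynomial.C 2 * Polynomial.X + 2) (fun θ z w l h => by
      rw [(rdA_some h).1]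
      simp) L hL ((Polynomial.C 2 * Polynomial.X + 2) * (Polynomial.C 4 * p + 2) + 1)
  have eB : ∀ n : ℕ, (ρ.comp Nk).eval n = ρ.eval (Nk.eval n) := fun n => Polynomial.eval_comp
  have eT : ∀ n : ℕ, (Polynomial.C 2 * Nk + 2).eval n = 2 * Nk.eval n + 2 := fun n => by simp
  have eρ : ∀ n : ℕ, ((Polynomial.C 2 * Nk + 2) * ρ.comp Nk).eval n =
      (2 * Nk.eval n + 2) * ρ.eval (Nk.eval n) := fun n => by
    rw [Polynomial.eval_mul, eT, eB]
  set Θ : List Bool → List Bool → List (List Bool) := fun x r =>
    blk (ρ.eval (Nk.eval x.length)) (2 * Nk.eval x.length + 2) r with hΘ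
  have hVp : NPC.Poly (fun y : List Bool => (unbits (List Tb) (unpair y).2).elim false fun tbs =>
      V ((unpair (unpair y).1).1, (Θ (unpair (unpair y).1).1 (unpair (unpair y).1).2, tbs))) := by
    have e1 : NPC.Poly (fun y : List Bool => (unpair (unpair y).1).1) :=
      NPC.Poly.fst (poly_unpair.comp (NPC.Poly.fst poly_unpair))
    have e2 : NPC.Poly (fun y : List Bool => (unpair (unpair y).1).2) :=
      NPC.Poly.snd (poly_unpair.comp (NPC.Poly.fst poly_unpair))
    have uN : UPoly (fun y : List Bool => Nk.eval (unpair (unpair y).1).1.length) :=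
      (UPoly.length e1).eval Nk
    have e3 : NPC.Poly (fun y : List Bool => Θ (unpair (unpair y).1).1
        (unpair (unpair y).1).2) :=
      blk_poly (uN.eval ρ) (((UPoly.const 2).mul uN).add (UPoly.const 2)) e2
    refine (NPC.Poly.optCases (o := fun y : List Bool => unbits (List Tb) (unpair y).2)
      (g := fun _ => false) (h := fun y tbs => V ((unpair (unpair y).1).1,
        (Θ (unpair (unpair y).1).1 (unpair (unpair y).1).2, tbs)))
      (poly_unbits.comp (NPC.Poly.snd poly_unpair)) (NPC.Poly.const false) ?_).congr fun y => ?_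
    · exact hV.comp (NPC.Poly.pair (e1.comp (NPC.Poly.fst NPC.Poly.id))
        (NPC.Poly.pair (e3.comp (NPC.Poly.fst NPC.Poly.id)) (NPC.Poly.snd NPC.Poly.id)))
    · cases unbits (List Tb) (unpair y).2 <;> rfl
  have hVe : ∀ x r w : List Bool, (unbits (List Tb) (unpair (pairBits (pairBits x r) w)).2).elim
      false (fun tbs => V ((unpair (unpair (pairBits (pairBits x r) w)).1).1,
        (Θ (unpair (unpair (pairBits (pairBits x r) w)).1).1
          (unpair (unpair (pairBits (pairBits x r) w)).1).2, tbs))) =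
      (unbits (List Tb) w).elim false fun tbs => V (x, (Θ x r, tbs)) := by
    intro x r w
    simp only [unpair_pairBits]
  refine ⟨fun y => [(unbits (List Tb) (unpair y).2).elim false fun tbs =>
      V ((unpair (unpair y).1).1, (Θ (unpair (unpair y).1).1 (unpair (unpair y).1).2, tbs))],
    (Polynomial.C 2 * Nk + 2) * ρ.comp Nk, q,
    PIso.poly_iff.1 (NPC.Poly.cons hVp (NPC.Poly.const [])), ?_, ?_⟩
  · intro x hx r hr
    rw [eρ] at hr
    obtain ⟨tbs, ht1, ht2⟩ := hc x (Θ x r) (fun z hz => rdA_total hT fun i hi =>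
      blk_take_length hr (by omega) (eval_mono ρ hz)) hx
    refine ⟨bits tbs, by rw [bits_length]; exact ht1, ?_⟩
    simp only
    rw [hVe, unbits_bits, Option.elim_some, ht2]
  · intro x hx
    have hxL : x ∈ L := by
      by_contra h
      exact hx h
    rw [eρ]
    set N : ℕ := Nk.eval x.length with hN
    set X : List Bool → Set (List Bool) := fun z => {r | r.length = ρ.eval z.length ∧
      ∃ qs : List (List Bool), qs ≠ [] ∧ (∀ y ∈ qs, (y.length : ℝ) ≤ (qs.length : ℝ) ^ ε) ∧
        z = pairBits (bits qs) (u qs) ∧ ∃ h, AMOutputs g p z r h ∧ ¬ Beats δ A qs h} with hXdef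
    have hXc : ∀ z, 2 * (X z).ncard ≤ 2 ^ ρ.eval z.length := by
      intro z
      by_cases hz : ∃ qs : List (List Bool), qs ≠ [] ∧
          (∀ y ∈ qs, (y.length : ℝ) ≤ (qs.length : ℝ) ^ ε) ∧ z = pairBits (bits qs) (u qs)
      · obtain ⟨qs, h1, h2, rfl⟩ := hz
        refine le_trans (Nat.mul_le_mul_left _ (Set.ncard_le_ncard ?_ ?_)) (hX qs h1 h2)
        · rintro r ⟨hr, qs', _, _, he, h, hh1, hh2⟩
          have h3 : unpair (pairBits (bits qs) (u qs)) = unpair (pairBits (bits qs') (u qs')) := by
            rw [he]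
          rw [unpair_pairBits, unpair_pairBits] at h3
          have h4 : qs = qs' := bits_injective (Prod.ext_iff.1 h3).1
          subst h4
          exact ⟨hr, h, hh1, hh2⟩
        · exact (str_finite _).subset fun r hr => hr.1
      · have h1 : X z = ∅ := by
          ext r
          simp only [hXdef, Set.mem_ofPred_eq, Set.mem_empty_iff_false, iff_false]
          rintro ⟨_, qs, h1, h2, h3, _⟩
          exact hz ⟨qs, h1, h2, h3⟩
        rw [h1]
        simp
    have hun := union_le (X := X) (nf := fun l => ρ.eval l) (N := N) (B := ρ.eval N)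
      (T := 2 * N + 2) (fun z r hr => hr.1) (fun l hl => eval_mono ρ hl) hXc le_rfl
    refine le_trans (Nat.mul_le_mul_left _ (Set.ncard_le_ncard ?_ ?_)) hun
    · rintro r ⟨hr, w, _, hw⟩
      refine ⟨hr, ?_⟩
      by_contra hcon
      push Not at hcon
      simp only at hw
      rw [hVe] at hw
      cases hw' : unbits (List Tb) w with
      | none => rw [hw', Option.elim_none] at hw; exact absurd hw (by simp)
      | some tbs =>
        rw [hw', Option.elim_some] at hw
        have h1 := hs x (Θ x r) ?_ hxL tbs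
        · rw [h1] at hw; exact absurd hw (by simp)
        intro qs hq1 hq2 hq3
        have hkey : pairBits (bits qs) (u qs) ∈ kys cs qs :=
          List.mem_map.2 ⟨u qs, enu_mem _ _ (hu qs), rfl⟩
        have hkN : (pairBits (bits qs) (u qs)).length ≤ N := hq3 _ hkey
        obtain ⟨i, hi1, hi2⟩ := hcon _ hkN
        refine ⟨_, hkey, fun w l hl => ?_⟩
        obtain ⟨h', hh1, hh2⟩ := (rdA_some hl).2 i hi1
        refine ⟨h', hh1, good_of_beats hD1 hq1 ?_⟩
        by_contra hb
        refine hi2 ⟨?_, qs, hq1, hlen qs hq1 hq2, rfl, h', ?_, hb⟩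
        · have h3 := blk_take_length (n := ρ.eval (pairBits (bits qs) (u qs)).length) hr
            (show i < 2 * N + 2 by omega) (eval_mono ρ hkN)
          rwa [blk_take (by omega) (eval_mono ρ hkN)] at h3
        · have h3 : ((Θ x r).getD i []).take (ρ.eval (pairBits (bits qs) (u qs)).length) =
              (r.drop (i * ρ.eval N)).take (ρ.eval (pairBits (bits qs) (u qs)).length) :=
            blk_take (show i < 2 * N + 2 by omega) (eval_mono ρ hkN)
          rw [h3] at hh2
          exact hh2
    · exact (str_finite ((2 * N + 2) * ρ.eval N)).subset fun r hr => hr.1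

end Pool.Agent.W920.NL
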