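import Pool.Agent.W920.NL.LawAM

/-!
# The law of prediction with public coins
-/

set_option autoImplicit false

namespace Pool.Agent.W920.NL

open Pool.Agent.NPC Pool.Agent.H251R5.PQ Pool.Agent.W901.AT Pool.Agent.H579R2.Spt
open Pool.Agent.W920.LN (Tb lk good_of_beats inNP_of)

/-- The checker for the second kind of certificates: one reply for each block of random bits. -/
def ckA (V : List Bool → List Bool) (ρ p : Polynomial ℕ) : Ck := fun q =>
  (List.range q.1.length).all fun i =>
    decide (((dl q.2.2).getD i []).length ≤ p.eval q.2.1.length) &&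
      decide (V (pairBits (pairBits q.2.1 ((q.1.getD i []).take (ρ.eval q.2.1.length)))
        ((dl q.2.2).getD i [])) = [true])

theorem ckA_poly {V : List Bool → List Bool} (hV : NPC.Poly V) (ρ p : Polynomial ℕ) :
    NPC.Poly (ckA V ρ p) := by
  refine NPC.Poly.all (l := fun q : List (List Bool) × (List Bool × List Bool) =>
    List.range q.1.length) (p := fun q i =>
      decide (((dl q.2.2).getD i []).length ≤ p.eval q.2.1.length) &&
      decide (V (pairBits (pairBits q.2.1 ((q.1.getD i []).take (ρ.eval q.2.1.length)))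
        ((dl q.2.2).getD i [])) = [true])) (UPoly.length (NPC.Poly.fst NPC.Poly.id)).range ?_
  have e1 : NPC.Poly (fun a : (List (List Bool) × (List Bool × List Bool)) × ℕ => a.1.1) :=
    NPC.Poly.fst (NPC.Poly.fst NPC.Poly.id)
  have e2 : NPC.Poly (fun a : (List (List Bool) × (List Bool × List Bool)) × ℕ => a.1.2.1) :=
    NPC.Poly.fst (NPC.Poly.snd (NPC.Poly.fst NPC.Poly.id))
  have e3 : NPC.Poly (fun a : (List (List Bool) × (List Bool × List Bool)) × ℕ =>
      (dl a.1.2.2).getD a.2 []) :=
    NPC.Poly.getD (dl_poly.comp (NPC.Poly.snd (NPC.Poly.snd (NPC.Poly.fst NPC.Poly.id))))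
      (NPC.Poly.snd NPC.Poly.id) (NPC.Poly.const [])
  have e4 : NPC.Poly (fun a : (List (List Bool) × (List Bool × List Bool)) × ℕ =>
      (a.1.1).getD a.2 []) :=
    NPC.Poly.getD e1 (NPC.Poly.snd NPC.Poly.id) (NPC.Poly.const [])
  exact NPC.Poly.and (NPC.Poly.decide_le (NPC.Poly.length e3)
    ((UPoly.length e2).eval p).toPoly) (NPC.Poly.decide_eq
      (hV.comp (H622R2.poly_pairBits (H622R2.poly_pairBits e2
        (take_poly' e4 ((UPoly.length e2).eval ρ).toPoly)) e3)) (NPC.Poly.const [true]))

theorem ncard_exists_list {T B : ℕ} {P : List Bool → List Bool → Prop} {k : ℕ} :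
    ∀ (qs : List (List Bool)), (∀ q ∈ qs,
      2 ^ k * {r : List Bool | r.length = T * B ∧ P q r}.ncard ≤ 2 ^ (T * B)) →
      2 ^ k * {r : List Bool | r.length = T * B ∧ ∃ q ∈ qs, P q r}.ncard ≤
        qs.length * 2 ^ (T * B) := by
  intro qs
  induction qs with
  | nil =>
    intro _
    have h : {r : List Bool | r.length = T * B ∧ ∃ q ∈ ([] : List (List Bool)), P q r} = ∅ := by
      ext r; simp
    rw [h]
    simp
  | cons q qs ih =>
    intro h
    have h1 := ih fun q' hq' => h q' (List.mem_cons_of_mem _ hq')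
    have h2 := h q List.mem_cons_self
    have h3 : {r : List Bool | r.length = T * B ∧ ∃ q' ∈ q :: qs, P q' r} ⊆
        {r : List Bool | r.length = T * B ∧ P q r} ∪
        {r : List Bool | r.length = T * B ∧ ∃ q' ∈ qs, P q' r} := by
      rintro r ⟨hr, q', hq', hP⟩
      rcases List.mem_cons.1 hq' with rfl | hq'
      · exact Or.inl ⟨hr, hP⟩
      · exact Or.inr ⟨hr, q', hq', hP⟩
    have h4 := (Set.ncard_le_ncard h3 (((str_finite (T * B)).subset fun r hr => hr.1).union
      ((str_finite (T * B)).subset fun r hr => hr.1))).trans (Set.ncard_union_le _ _)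
    calc _ ≤ 2 ^ k * ({r : List Bool | r.length = T * B ∧ P q r}.ncard +
        {r : List Bool | r.length = T * B ∧ ∃ q' ∈ qs, P q' r}.ncard) := Nat.mul_le_mul_left _ h4
      _ = 2 ^ k * {r : List Bool | r.length = T * B ∧ P q r}.ncard +
        2 ^ k * {r : List Bool | r.length = T * B ∧ ∃ q' ∈ qs, P q' r}.ncard := by ring
      _ ≤ 2 ^ (T * B) + qs.length * 2 ^ (T * B) := Nat.add_le_add h2 h1
      _ = (q :: qs).length * 2 ^ (T * B) := by rw [List.length_cons]; ring

/-- If `A` is in `NP` and its complement is in `AM` then `A` is fully predictable with public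
coins. -/
theorem amfully_of_both {δ : ℝ} (hδ : δ ≤ 1 / 2) {A : Set (List Bool)} (hA : InNP A)
    (hA' : InAM Aᶜ) : AMFullyPredictable δ A := by
  classical
  obtain ⟨V1, p1, hV1, hA1⟩ := hA
  obtain ⟨V2, ρ, p2, hV2, hA2, hA3⟩ := hA'
  set C1 : Ck := fun q => ver V1 p1 q.2.1 q.2.2 with hC1
  have hC1p : NPC.Poly C1 := (ver_poly hV1 p1).comp (NPC.Poly.snd NPC.Poly.id)
  have hC2p : NPC.Poly (ckA V2 ρ p2) := ckA_poly (PIso.poly_iff.2 hV2) ρ p2
  set Θ : List Bool → List Bool → List (List Bool) := fun z r =>
    blk (ρ.eval z.length) (z.length + 1) r with hΘ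
  have hgp : NPC.Poly (fun y : List Bool => gg C1 (ckA V2 ρ p2)
      (Θ (unpair (unpair y).1).1 (unpair (unpair y).1).2, ((unpair (unpair y).1).1,
        (unpair y).2))) := by
    have e1 : NPC.Poly (fun y : List Bool => (unpair (unpair y).1).1) :=
      NPC.Poly.fst (poly_unpair.comp (NPC.Poly.fst poly_unpair))
    have e2 : NPC.Poly (fun y : List Bool => (unpair (unpair y).1).2) :=
      NPC.Poly.snd (poly_unpair.comp (NPC.Poly.fst poly_unpair))
    have e3 : NPC.Poly (fun y : List Bool => Θ (unpair (unpair y).1).1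
        (unpair (unpair y).1).2) :=
      blk_poly ((UPoly.length e1).eval ρ) ((UPoly.length e1).add (UPoly.const 1)) e2
    exact (gg_poly hC1p hC2p).comp (NPC.Poly.pair e3 (NPC.Poly.pair e1
      (NPC.Poly.snd poly_unpair)))
  set N0 : Polynomial ℕ := (Polynomial.X + 1) * (Polynomial.C 4 * p2 + 2) + 1 + p1 with hN0
  have eN0 : ∀ n : ℕ, N0.eval n = (n + 1) * (4 * p2.eval n + 2) + 1 + p1.eval n := fun n => by
    rw [hN0]; simp
  have eρ : ∀ n : ℕ, ((Polynomial.X + 1) * ρ).eval n = (n + 1) * ρ.eval n := fun n => by simp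
  refine ⟨fun y => gg C1 (ckA V2 ρ p2)
      (Θ (unpair (unpair y).1).1 (unpair (unpair y).1).2, ((unpair (unpair y).1).1,
        (unpair y).2)), (Polynomial.X + 1) * ρ,
    Polynomial.C 4 * Polynomial.X + Polynomial.X * (Polynomial.C 4 * N0 + 2) + 3,
    fun _ => [], 0, polyTime_bits hgp, fun z r hr => ?_, fun qs => by simp, ?_⟩
  · rw [eρ] at hr
    obtain ⟨hz1, hz2⟩ := lst_le z
    obtain ⟨w, hw1, hw2⟩ := gg_complete (V1 := C1) (V2 := ckA V2 ρ p2) (A := A) (θ := Θ z r) z
      (N0.eval z.length) (fun q hq hqA => by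
        obtain ⟨w, hw⟩ := (hA1 q).1 hqA
        have h1 := eval_mono p1 (hz2 q hq)
        refine ⟨w, ?_, ver_iff.2 hw⟩
        rw [eN0]
        have := hw.1
        omega) (fun q hq hqA => by
        have hql := hz2 q hq
        have h1 : ∀ i, ∃ w : List Bool, w.length ≤ p2.eval q.length ∧ (i < z.length + 1 →
            V2 (pairBits (pairBits q (((Θ z r).getD i []).take (ρ.eval q.length))) w) =
              [true]) := by
          intro i
          by_cases hi : i < z.length + 1
          · obtain ⟨w, hw1, hw2⟩ := hA2 q hqA _ (blk_take_length (n := ρ.eval q.length) hr hi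
              (eval_mono ρ hql))
            exact ⟨w, hw1, fun _ => hw2⟩
          · exact ⟨[], Nat.zero_le _, fun h => absurd h hi⟩
        choose w hw1 hw2 using h1
        set ws : List (List Bool) := (List.range (z.length + 1)).map w with hws
        have hp2 := eval_mono p2 hql
        refine ⟨bits ws, ?_, ?_⟩
        · rw [bits_length, eN0]
          have h2 := sz_le_length_mul ws (4 * p2.eval z.length + 1) (fun v hv => by
            obtain ⟨i, _, rfl⟩ := List.mem_map.1 hv
            have := sz_listBool_le (w i)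
            have := hw1 i
            omega)
          have h3 : ws.length = z.length + 1 := by simp [hws]
          rw [h3] at h2
          have h4 : (z.length + 1) * (4 * p2.eval z.length + 1 + 1) =
            (z.length + 1) * (4 * p2.eval z.length + 2) := by ring
          omega
        · unfold ckA
          simp only
          rw [List.all_eq_true]
          intro i hi
          have hi' : i < z.length + 1 := by
            have := List.mem_range.1 hi
            rwa [hΘ, blk_length] at this
          have h3 : (dl (bits ws)).getD i [] = w i := by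
            rw [dl_bits, hws, List.getD_eq_getElem?_getD, List.getElem?_map,
              List.getElem?_range hi']
            rfl
          rw [h3, decide_eq_true (hw1 i), Bool.true_and, decide_eq_true_eq]
          exact hw2 i hi')
    refine ⟨(answers A (lst z)).map some, w, ?_, ?_⟩
    · simp only [Polynomial.eval_add, Polynomial.eval_mul, Polynomial.eval_C, Polynomial.eval_X,
        Polynomial.eval_ofNat]
      have h1 : (lst z).length * (4 * N0.eval z.length + 2) ≤
          z.length * (4 * N0.eval z.length + 2) := Nat.mul_le_mul_right _ hz1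
      omega
    · simp only [unpair_pairBits]
      exact hw2
  · intro qs hqs
    set z : List Bool := pairBits (bits qs) ([] : List Bool) with hz
    change 2 * {r : List Bool | r.length = ((Polynomial.X + 1) * ρ).eval z.length ∧ _}.ncard ≤ _
    rw [eρ]
    have hlz : lst z = qs := by
      unfold lst
      rw [hz]
      simp only [unpair_pairBits, unbits_bits, Option.getD_some]
    obtain ⟨hz1, hz2⟩ := lst_le z
    rw [hlz] at hz1 hz2
    set B : ℕ := ρ.eval z.length with hB
    set Y : List Bool → Set (List Bool) := fun q => {r : List Bool | r.length = ρ.eval q.length ∧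
      ∃ w : List Bool, w.length ≤ p2.eval q.length ∧
        V2 (pairBits (pairBits q r) w) = [true]} with hY
    have h1 : ∀ q ∈ qs, 2 ^ (z.length + 1) * {r : List Bool | r.length = (z.length + 1) * B ∧
        (q ∈ A ∧ ∀ i < z.length + 1, (r.drop (i * B)).take (ρ.eval q.length) ∈ Y q)}.ncard ≤
          2 ^ ((z.length + 1) * B) := by
      intro q hq
      by_cases hqA : q ∈ A
      · have h2 := blocks_le (X := Y q) (n := ρ.eval q.length) (B := B) (fun r hr => hr.1)
          (eval_mono ρ (hz2 q hq)) (hA3 q fun h => h hqA) (z.length + 1) (z.length + 1) le_rfl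
        refine le_trans (Nat.mul_le_mul_left _ (Set.ncard_le_ncard ?_ ?_)) h2
        · rintro r ⟨hr1, _, hr2⟩
          exact ⟨hr1, hr2⟩
        · exact (str_finite _).subset fun r hr => hr.1
      · have h2 : {r : List Bool | r.length = (z.length + 1) * B ∧
            (q ∈ A ∧ ∀ i < z.length + 1, (r.drop (i * B)).take (ρ.eval q.length) ∈ Y q)} = ∅ := by
          ext r
          simp [hqA]
        rw [h2]
        simp
    have h2 := ncard_exists_list (P := fun q r => q ∈ A ∧ ∀ i < z.length + 1,
      (r.drop (i * B)).take (ρ.eval q.length) ∈ Y q) qs h1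
    have h3 : 2 * {r : List Bool | r.length = (z.length + 1) * B ∧ ∃ q ∈ qs, q ∈ A ∧
        ∀ i < z.length + 1, (r.drop (i * B)).take (ρ.eval q.length) ∈ Y q}.ncard ≤
          2 ^ ((z.length + 1) * B) := by
      have h4 : qs.length ≤ 2 ^ z.length := hz1.trans Nat.lt_two_pow_self.le
      have h5 : 2 ^ z.length * (2 * {r : List Bool | r.length = (z.length + 1) * B ∧
          ∃ q ∈ qs, q ∈ A ∧ ∀ i < z.length + 1,
            (r.drop (i * B)).take (ρ.eval q.length) ∈ Y q}.ncard) ≤
          2 ^ z.length * 2 ^ ((z.length + 1) * B) := by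
        calc _ = 2 ^ (z.length + 1) * {r : List Bool | r.length = (z.length + 1) * B ∧
          ∃ q ∈ qs, q ∈ A ∧ ∀ i < z.length + 1,
            (r.drop (i * B)).take (ρ.eval q.length) ∈ Y q}.ncard := by rw [pow_succ]; ring
          _ ≤ qs.length * 2 ^ ((z.length + 1) * B) := h2
          _ ≤ _ := Nat.mul_le_mul_right _ h4
      exact Nat.le_of_mul_le_mul_left h5 (by positivity)
    refine le_trans (Nat.mul_le_mul_left _ (Set.ncard_le_ncard ?_ ?_)) h3
    · rintro r ⟨hr, h, ⟨w, _, hw⟩, hnb⟩
      refine ⟨hr, ?_⟩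
      by_contra hcon
      push Not at hcon
      simp only [unpair_pairBits] at hw
      refine hnb ?_
      have h4 := gg_sound (A := A) (fun q _ w h => (hA1 q).2 ⟨w, ver_iff.1 h⟩)
        (fun q hq w hC => ?_) hw
      · rw [hlz] at h4
        rw [h4]
        exact beats_self hδ hqs
      · rw [hlz] at hq
        intro hqA
        obtain ⟨i, hi1, hi2⟩ := hcon q hq hqA
        refine hi2 ?_
        unfold ckA at hC
        simp only at hC
        rw [List.all_eq_true] at hC
        have h5 := hC i (List.mem_range.2 (by rw [hΘ]; simp only; rw [blk_length]; exact hi1))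
        rw [Bool.and_eq_true, decide_eq_true_eq, decide_eq_true_eq] at h5
        have hqz := eval_mono ρ (hz2 q hq)
        have h6 : ((Θ z r).getD i []).take (ρ.eval q.length) =
            (r.drop (i * B)).take (ρ.eval q.length) := blk_take hi1 hqz
        rw [h6] at h5
        refine ⟨?_, _, h5.1, h5.2⟩
        have h7 := blk_take_length (n := ρ.eval q.length) hr hi1 hqz
        rwa [blk_take hi1 hqz] at h7
    · exact (str_finite ((z.length + 1) * B)).subset fun r hr => hr.1

theorem AMFullyPredictable.ampredictable {δ : ℝ} {A : Set (List Bool)}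
    (h : AMFullyPredictable δ A) (ε : ℝ) : AMPredictable δ ε A := by
  obtain ⟨g, ρ, p, u, b, hg, hT, hu, hX⟩ := h
  refine ⟨g, ρ, p, u, b, hg, hT, hu, fun qs hqs _ => ?_⟩
  refine le_trans (Nat.mul_le_mul_left _ (Set.ncard_le_ncard ?_ ?_)) (hX qs hqs)
  · rintro r ⟨hr, h, hh1, hh2⟩
    exact ⟨hr, h, hh1, fun h3 => hh2 h3.1⟩
  · exact (str_finite _).subset fun r hr => hr.1

/-- **The law of prediction with public coins for `NP`-hard sets.** -/
theorem am_law {δ ε : ℝ} (h1 : 0 < δ) (h2 : δ ≤ 1 / 2) (h3 : 0 < ε) : List.TFAE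
    [∀ L : Set (List Bool), InNP L → InAM Lᶜ,
      ∃ A : Set (List Bool), NPHard A ∧ AMPredictable δ ε A,
      ∀ A : Set (List Bool), InNP A → AMFullyPredictable δ A] := by
  tfae_have 1 → 3 := fun h A hA => amfully_of_both h2 hA (h A hA)
  tfae_have 3 → 2 := fun h => by
    obtain ⟨hA1, hA2⟩ := Pool.Agent.NPC.H545KS.sat_complete
    exact ⟨_, hA2, (h _ hA1).ampredictable ε⟩
  tfae_have 2 → 1 := fun ⟨A, hA, h⟩ L hL => inAM_of_ampredictable h1 h3 hA h hL
  tfae_finish

end Pool.Agent.W920.NL
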