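import Pool.Agent.W920.NL.LawAM2
import Pool.Agent.W920.NL.CoreR
import Pool.Agent.W920.NL.CntR
import Pool.Agent.W920.NL.DefsR

/-!
# Prediction of `NP`-hard sets by probabilistic algorithms
-/

set_option autoImplicit false

namespace Pool.Agent.W920.NL

open Pool.Agent.NPC Pool.Agent.H251R5.PQ Pool.Agent.W901.AT Pool.Agent.H579R2.Spt
open Pool.Agent.W920.LN (Tb lk good_of_beats)

/-- the key part of an input -/
def ky (z : List Bool) : List Bool := (unpair z).1

theorem ky_poly : NPC.Poly ky := NPC.Poly.fst poly_unpair

/-- the sub-block number `j` of a block -/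
def sb (n j : ℕ) (r : List Bool) : List Bool := (r.drop (j * n)).take n

/-- the reader of a probabilistic predictor -/
def rdR (g : List Bool → List (Option Bool)) (ρ q : Polynomial ℕ) : Rd := fun p =>
  some ((List.range (2 * (ky p.2.1).length + 2)).flatMap fun i =>
    (List.range (q.eval (ky p.2.1).length)).map fun j =>
      g (pairBits (ky p.2.1) (sb (ρ.eval (ky p.2.1).length) j (p.1.getD i []))))

theorem rdR_poly {g : List Bool → List (Option Bool)} (hg : NPC.Poly g) (ρ q : Polynomial ℕ) :
    NPC.Poly (rdR g ρ q) := by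
  have eθ : NPC.Poly (fun p : List (List Bool) × (List Bool × List Bool) => p.1) :=
    NPC.Poly.fst NPC.Poly.id
  have ez : NPC.Poly (fun p : List (List Bool) × (List Bool × List Bool) => ky p.2.1) :=
    ky_poly.comp (NPC.Poly.fst (NPC.Poly.snd NPC.Poly.id))
  refine NPC.Poly.some (NPC.Poly.flatMap
    (l := fun p : List (List Bool) × (List Bool × List Bool) =>
      List.range (2 * (ky p.2.1).length + 2))
    (F := fun p i => (List.range (q.eval (ky p.2.1).length)).map fun j =>
      g (pairBits (ky p.2.1) (sb (ρ.eval (ky p.2.1).length) j (p.1.getD i []))))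
    (((UPoly.const 2).mul (UPoly.length ez)).add (UPoly.const 2)).range ?_)
  refine NPC.Poly.map (l := fun a : (List (List Bool) × (List Bool × List Bool)) × ℕ =>
      List.range (q.eval (ky a.1.2.1).length))
    (F := fun a j => g (pairBits (ky a.1.2.1)
      (sb (ρ.eval (ky a.1.2.1).length) j (a.1.1.getD a.2 []))))
    (((UPoly.length ez).eval q).comp (NPC.Poly.fst NPC.Poly.id)).range ?_
  have e1 : NPC.Poly (fun b : ((List (List Bool) × (List Bool × List Bool)) × ℕ) × ℕ => b.1.1) :=
    NPC.Poly.fst (NPC.Poly.fst NPC.Poly.id)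
  have e2 : NPC.Poly (fun b : ((List (List Bool) × (List Bool × List Bool)) × ℕ) × ℕ => b.1.2) :=
    NPC.Poly.snd (NPC.Poly.fst NPC.Poly.id)
  have e3 : NPC.Poly (fun b : ((List (List Bool) × (List Bool × List Bool)) × ℕ) × ℕ => b.2) :=
    NPC.Poly.snd NPC.Poly.id
  have e4 := NPC.Poly.getD (eθ.comp e1) e2 (NPC.Poly.const ([] : List Bool))
  have e5 := ((UPoly.length ez).eval ρ).comp e1
  have e6 := take_poly' (drop_poly' e4 (NPC.Poly.mul e3 e5.toPoly)) e5.toPoly
  exact hg.comp (H622R2.poly_pairBits (ez.comp e1) e6)

/-- the coins for the reader -/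
def coins (N B : ℕ) (r : List Bool) : List (List Bool) := blk B (2 * N + 2) r

/-- **A probabilistic predictor of an `NP`-hard set puts `NP` in `RP`.** -/
theorem inRP_of_randPredictable {δ ε : ℝ} (hδ : 0 < δ) (hε : 0 < ε) {A : Set (List Bool)}
    (hA : NPHard A) (h : RandPredictable δ ε A) {L : Set (List Bool)} (hL : InNP L) :
    InRP L := by
  classical
  obtain ⟨g, ρ, q, hg, hX⟩ := h
  obtain ⟨D, c, hD1, hlen⟩ := exists_consts hδ hε
  have hgp := poly_of_bits' hg
  obtain ⟨V, Nk, hV, hs, hc⟩ := core_det A hA D c
    (cs := fun _ => [[]]) (NPC.Poly.const [[]]) (rdR_poly hgp ρ q)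
    ((Polynomial.C 2 * Polynomial.X + 2) * q) (fun θ z w l h => by
      unfold rdR at h
      rw [← Option.some.inj h, List.length_flatMap]
      simp only [List.length_map, List.length_range, List.map_const', List.sum_replicate,
        smul_eq_mul, Polynomial.eval_mul, Polynomial.eval_add, Polynomial.eval_C,
        Polynomial.eval_X, Polynomial.eval_ofNat]
      have h1 : (ky z).length ≤ z.length := unpair_fst_length z
      exact Nat.mul_le_mul (by omega) (eval_mono q h1)) L hL
  have eB : ∀ n : ℕ, (q * ρ).eval n = q.eval n * ρ.eval n := fun n => Polynomial.eval_mul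
  have eρ : ∀ n : ℕ, ((Polynomial.C 2 * Nk + 2) * (q * ρ).comp Nk).eval n =
      (2 * Nk.eval n + 2) * (q * ρ).eval (Nk.eval n) := fun n => by
    rw [Polynomial.eval_mul, Polynomial.eval_comp]
    simp
  have hVp : NPC.Poly (fun y : List Bool => V ((unpair y).1,
      coins (Nk.eval (unpair y).1.length) ((q * ρ).eval (Nk.eval (unpair y).1.length))
        (unpair y).2)) := by
    have e1 : NPC.Poly (fun y : List Bool => (unpair y).1) := NPC.Poly.fst poly_unpair
    have e2 : NPC.Poly (fun y : List Bool => (unpair y).2) := NPC.Poly.snd poly_unpair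
    have uN : UPoly (fun y : List Bool => Nk.eval (unpair y).1.length) := (UPoly.length e1).eval Nk
    exact hV.comp (NPC.Poly.pair e1 (blk_poly (uN.eval (q * ρ))
      (((UPoly.const 2).mul uN).add (UPoly.const 2)) e2))
  refine ⟨fun y => [V ((unpair y).1,
      coins (Nk.eval (unpair y).1.length) ((q * ρ).eval (Nk.eval (unpair y).1.length))
        (unpair y).2)], (Polynomial.C 2 * Nk + 2) * (q * ρ).comp Nk,
    PIso.poly_iff.1 (NPC.Poly.cons hVp (NPC.Poly.const [])), ?_, ?_⟩
  · intro x hx
    rw [eρ]
    simp only [unpair_pairBits]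
    set N : ℕ := Nk.eval x.length with hN
    set B : ℕ := (q * ρ).eval N with hB
    -- the bad blocks for a key
    set X : List Bool → Set (List Bool) := fun z => {r | r.length = (q * ρ).eval z.length ∧
      ∃ qs : List (List Bool), qs ≠ [] ∧ (∀ y ∈ qs, (y.length : ℝ) ≤ (qs.length : ℝ) ^ ε) ∧
        z = bits qs ∧ ∀ j < q.eval z.length,
          ¬ Beats δ A qs (g (pairBits z (sb (ρ.eval z.length) j r)))} with hXdef
    have hXc : ∀ z, 2 * (X z).ncard ≤ 2 ^ (q * ρ).eval z.length := by
      intro z
      by_cases hz : ∃ qs : List (List Bool), qs ≠ [] ∧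
          (∀ y ∈ qs, (y.length : ℝ) ≤ (qs.length : ℝ) ^ ε) ∧ z = bits qs
      · obtain ⟨qs, h1, h2, rfl⟩ := hz
        have h3 := amp_le (hX qs h1 h2)
        rw [← eB] at h3
        refine le_trans (Nat.mul_le_mul_left _ (Set.ncard_le_ncard ?_ ?_)) h3
        · rintro r ⟨hr, qs', _, _, he, hj⟩
          have h4 : qs = qs' := bits_injective he
          subst h4
          exact ⟨hr, hj⟩
        · exact (str_finite _).subset fun r hr => hr.1
      · have h1 : X z = ∅ := by
          ext r
          simp only [hXdef, Set.mem_ofPred_eq, Set.mem_empty_iff_false, iff_false]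
          rintro ⟨_, qs, h1, h2, h3, _⟩
          exact hz ⟨qs, h1, h2, h3⟩
        rw [h1]
        simp
    have hun := union_le (X := X) (nf := fun l => (q * ρ).eval l) (N := N) (B := B)
      (T := 2 * N + 2) (fun z r hr => hr.1) (fun l hl => eval_mono (q * ρ) hl) hXc le_rfl
    set Bad : Set (List Bool) := {r : List Bool | r.length = (2 * N + 2) * B ∧
      ∃ z : List Bool, z.length ≤ N ∧ ∀ i < 2 * z.length + 2,
        (r.drop (i * B)).take ((q * ρ).eval z.length) ∈ X z} with hBad
    have hgood : ∀ r : List Bool, r.length = (2 * N + 2) * B → r ∉ Bad →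
        V (x, coins N B r) = true := by
      intro r hr hnb
      refine hs x (coins N B r) ?_ hx
      intro qs hq1 hq2 hq3
      have hkey : pairBits (bits qs) [] ∈ kys (fun _ => [[]]) qs :=
        List.mem_map.2 ⟨[], List.mem_singleton_self _, rfl⟩
      have hkN : (pairBits (bits qs) ([] : List Bool)).length ≤ N := hq3 _ hkey
      have hbN : (bits qs).length ≤ N := by
        have h1 := unpair_fst_length (pairBits (bits qs) ([] : List Bool))
        rw [unpair_pairBits] at h1
        exact h1.trans hkN
      have hky : ky (pairBits (bits qs) ([] : List Bool)) = bits qs := by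
        unfold ky
        rw [unpair_pairBits]
      refine ⟨_, hkey, fun w l hl => ?_⟩
      have hl' := Option.some.inj hl
      rw [← hl']
      simp only [hky]
      by_contra hcon
      refine hnb ⟨hr, bits qs, hbN, fun i hi => ?_⟩
      have hle : (q * ρ).eval (bits qs).length ≤ B := eval_mono (q * ρ) hbN
      have hi' : i < 2 * N + 2 := by omega
      refine ⟨?_, qs, hq1, hlen qs hq1 hq2, rfl, fun j hj hb => hcon ?_⟩
      · have h3 := blk_take_length (n := (q * ρ).eval (bits qs).length) hr hi' hle
        rwa [blk_take hi' hle] at h3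
      · refine ⟨g (pairBits (bits qs) (sb (ρ.eval (bits qs).length) j
          ((coins N B r).getD i []))), List.mem_flatMap.2 ⟨i, List.mem_range.2 hi,
            List.mem_map.2 ⟨j, List.mem_range.2 hj, rfl⟩⟩, ?_⟩
        have h4 : sb (ρ.eval (bits qs).length) j ((coins N B r).getD i []) =
            sb (ρ.eval (bits qs).length) j
              ((r.drop (i * B)).take ((q * ρ).eval (bits qs).length)) := by
          unfold sb coins
          rw [blk_getD hi']
          have h5 : (j + 1) * ρ.eval (bits qs).length ≤ (q * ρ).eval (bits qs).length := by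
            rw [eB]
            exact Nat.mul_le_mul_right _ hj
          have h6 : (j + 1) * ρ.eval (bits qs).length =
            j * ρ.eval (bits qs).length + ρ.eval (bits qs).length := by ring
          rw [List.drop_take, List.drop_take, List.take_take, List.take_take,
            min_eq_left (by omega), min_eq_left (by omega)]
        rw [h4]
        exact good_of_beats hD1 hq1 hb
    have hsub : {r : List Bool | r.length = (2 * N + 2) * B} ⊆
        {r : List Bool | r.length = (2 * N + 2) * B ∧ [V (x, coins N B r)] = [true]} ∪ Bad := by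
      intro r hr
      by_cases hb : r ∈ Bad
      · exact Or.inr hb
      · exact Or.inl ⟨hr, by rw [hgood r hr hb]⟩
    have hf1 : {r : List Bool | r.length = (2 * N + 2) * B ∧
        [V (x, coins N B r)] = [true]}.Finite := (str_finite _).subset fun r hr => hr.1
    have hf2 : Bad.Finite := (str_finite ((2 * N + 2) * B)).subset fun r hr => hr.1
    have h1 := (Set.ncard_le_ncard hsub (hf1.union hf2)).trans (Set.ncard_union_le _ _)
    have h2 : {r : List Bool | r.length = (2 * N + 2) * B}.ncard = 2 ^ ((2 * N + 2) * B) :=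
      str_ncard _
    rw [h2] at h1
    omega
  · intro x hx r _ hr
    simp only [unpair_pairBits, List.cons.injEq, and_true] at hr
    rw [hc x _ (fun z _ => rfl) hx] at hr
    exact Bool.false_ne_true hr

end Pool.Agent.W920.NL
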