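import Pool.Agent.W920.NL.LawR

/-!
# The law of random prediction
-/

set_option autoImplicit false

namespace Pool.Agent.W920.NL

open Pool.Agent.NPC Pool.Agent.H251R5.PQ Pool.Agent.W901.AT Pool.Agent.H579R2.Spt
open Pool.Agent.W920.LN (Tb lk good_of_beats)

/-- the answer to one question by an `RP` algorithm, repeated -/
def rpa (V : List Bool → List Bool) (ρ : Polynomial ℕ) (n : ℕ) (r q : List Bool) : Bool :=
  (List.range (2 * n)).any fun i =>
    decide (V (pairBits q ((r.drop (i * ρ.eval n)).take (ρ.eval q.length))) = [true])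

/-- the predictor from an `RP` algorithm -/
def rpg (V : List Bool → List Bool) (ρ : Polynomial ℕ) (z : List Bool) : List (Option Bool) :=
  (lst z).map fun q => some (rpa V ρ (ky z).length (unpair z).2 q)

theorem rpg_poly {V : List Bool → List Bool} (hV : NPC.Poly V) (ρ : Polynomial ℕ) :
    NPC.Poly (rpg V ρ) := by
  refine NPC.Poly.map (l := fun z : List Bool => lst z)
    (F := fun z q => some (rpa V ρ (ky z).length (unpair z).2 q)) listOf_poly ?_
  refine NPC.Poly.some ?_
  have u1 : UPoly (fun q : List Bool × List Bool => (ky q.1).length) :=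
    UPoly.length (ky_poly.comp (NPC.Poly.fst NPC.Poly.id))
  refine NPC.Poly.any (l := fun q : List Bool × List Bool => List.range (2 * (ky q.1).length))
    (p := fun q i => decide (V (pairBits q.2 (((unpair q.1).2.drop
      (i * ρ.eval (ky q.1).length)).take (ρ.eval q.2.length))) = [true]))
    ((UPoly.const 2).mul u1).range ?_
  have e1 : NPC.Poly (fun a : (List Bool × List Bool) × ℕ => a.1.2) :=
    NPC.Poly.snd (NPC.Poly.fst NPC.Poly.id)
  have e2 : NPC.Poly (fun a : (List Bool × List Bool) × ℕ => (unpair a.1.1).2) :=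
    NPC.Poly.snd (poly_unpair.comp (NPC.Poly.fst (NPC.Poly.fst NPC.Poly.id)))
  have e3 : NPC.Poly (fun a : (List Bool × List Bool) × ℕ => a.2) := NPC.Poly.snd NPC.Poly.id
  have e4 := ((u1.eval ρ).comp (NPC.Poly.fst NPC.Poly.id (α := (List Bool × List Bool) × ℕ))).toPoly
  exact NPC.Poly.decide_eq (hV.comp (H622R2.poly_pairBits e1 (take_poly' (drop_poly' e2
    (NPC.Poly.mul e3 e4)) ((UPoly.length e1).eval ρ).toPoly))) (NPC.Poly.const [true])

/-- If `A` is in `RP` then it is randomly fully predictable. -/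
theorem randFully_of_inRP {δ : ℝ} (hδ : δ ≤ 1 / 2) {A : Set (List Bool)} (hA : InRP A) :
    RandFullyPredictable δ A := by
  classical
  obtain ⟨V, ρ, hV, hA1, hA2⟩ := hA
  have hVp : NPC.Poly V := PIso.poly_iff.2 hV
  have eρ : ∀ n : ℕ, (Polynomial.C 2 * Polynomial.X * ρ).eval n = 2 * n * ρ.eval n :=
    fun n => by simp
  refine ⟨rpg V ρ, Polynomial.C 2 * Polynomial.X * ρ, polyTime_bits (rpg_poly hVp ρ),
    fun qs hqs => ?_⟩
  rw [eρ]
  set n : ℕ := (bits qs).length with hn
  set B : ℕ := ρ.eval n with hB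
  have hlen : ∀ q ∈ qs, q.length ≤ n := by
    intro q hq
    have h1 := sz_le_of_mem hq
    have h2 := length_lt_sz q
    rw [hn, bits_length]
    omega
  have hnum : qs.length ≤ n := by
    rw [hn, bits_length]
    exact (length_lt_sz qs).le
  have hlst : ∀ r : List Bool, lst (pairBits (bits qs) r) = qs := by
    intro r
    unfold lst
    simp only [unpair_pairBits, unbits_bits, Option.getD_some]
  have hval : ∀ r : List Bool, rpg V ρ (pairBits (bits qs) r) =
      qs.map fun q => some (rpa V ρ n r q) := by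
    intro r
    unfold rpg ky
    rw [hlst, unpair_pairBits]
  -- the bad strings for one question
  set Y : List Bool → Set (List Bool) := fun q => {r : List Bool | r.length = ρ.eval q.length ∧
    ¬ V (pairBits q r) = [true]} with hY
  have hYc : ∀ q ∈ A, 2 * (Y q).ncard ≤ 2 ^ ρ.eval q.length := by
    intro q hq
    have h1 := hA1 q hq
    have h2 : {r : List Bool | r.length = ρ.eval q.length ∧ V (pairBits q r) = [true]}.ncard +
        (Y q).ncard = 2 ^ ρ.eval q.length := by
      rw [← str_ncard (ρ.eval q.length), ← Set.ncard_union_eq _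
        ((str_finite _).subset fun r hr => hr.1) ((str_finite _).subset fun r hr => hr.1)]
      · congr 1
        ext r
        simp only [hY, Str, Set.mem_union, Set.mem_ofPred_eq]
        tauto
      · rw [Set.disjoint_left]
        rintro r ⟨_, hr⟩ ⟨_, hr'⟩
        exact hr' hr
    omega
  have h1 : ∀ q ∈ qs, 2 ^ (2 * n) * {r : List Bool | r.length = 2 * n * B ∧
      (q ∈ A ∧ ∀ i < 2 * n, (r.drop (i * B)).take (ρ.eval q.length) ∈ Y q)}.ncard ≤
        2 ^ (2 * n * B) := by
    intro q hq
    by_cases hqA : q ∈ A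
    · have h2 := blocks_le (X := Y q) (n := ρ.eval q.length) (B := B) (fun r hr => hr.1)
        (eval_mono ρ (hlen q hq)) (hYc q hqA) (2 * n) (2 * n) le_rfl
      refine le_trans (Nat.mul_le_mul_left _ (Set.ncard_le_ncard ?_ ?_)) h2
      · rintro r ⟨hr1, _, hr2⟩
        exact ⟨hr1, hr2⟩
      · exact (str_finite _).subset fun r hr => hr.1
    · have h2 : {r : List Bool | r.length = 2 * n * B ∧
          (q ∈ A ∧ ∀ i < 2 * n, (r.drop (i * B)).take (ρ.eval q.length) ∈ Y q)} = ∅ := by
        ext r
        simp [hqA]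
      rw [h2]
      simp
  have h2 := ncard_exists_list (P := fun q r => q ∈ A ∧ ∀ i < 2 * n,
    (r.drop (i * B)).take (ρ.eval q.length) ∈ Y q) qs h1
  have h3 : 2 ^ n * {r : List Bool | r.length = 2 * n * B ∧ ∃ q ∈ qs, q ∈ A ∧
      ∀ i < 2 * n, (r.drop (i * B)).take (ρ.eval q.length) ∈ Y q}.ncard ≤ 2 ^ (2 * n * B) := by
    have h4 : qs.length ≤ 2 ^ n := hnum.trans Nat.lt_two_pow_self.le
    have h5 : 2 ^ n * (2 ^ n * {r : List Bool | r.length = 2 * n * B ∧
        ∃ q ∈ qs, q ∈ A ∧ ∀ i < 2 * n,
          (r.drop (i * B)).take (ρ.eval q.length) ∈ Y q}.ncard) ≤ 2 ^ n * 2 ^ (2 * n * B) := by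
      calc _ = 2 ^ (2 * n) * {r : List Bool | r.length = 2 * n * B ∧
        ∃ q ∈ qs, q ∈ A ∧ ∀ i < 2 * n,
          (r.drop (i * B)).take (ρ.eval q.length) ∈ Y q}.ncard := by
            rw [two_mul n, pow_add]; ring
        _ ≤ qs.length * 2 ^ (2 * n * B) := h2
        _ ≤ _ := Nat.mul_le_mul_right _ h4
    exact Nat.le_of_mul_le_mul_left h5 (by positivity)
  refine le_trans (Nat.mul_le_mul_left _ (Set.ncard_le_ncard ?_ ?_)) h3
  · rintro r ⟨hr, hnb⟩
    refine ⟨hr, ?_⟩
    by_contra hcon
    push Not at hcon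
    refine hnb ?_
    rw [hval]
    have h4 : (qs.map fun q => some (rpa V ρ n r q)) = (answers A qs).map some := by
      unfold answers
      rw [List.map_map]
      refine List.map_congr_left fun q hq => ?_
      simp only [Function.comp_apply, Option.some.injEq]
      by_cases hqA : q ∈ A
      · rw [decide_eq_true hqA]
        obtain ⟨i, hi1, hi2⟩ := hcon q hq hqA
        unfold rpa
        rw [List.any_eq_true]
        refine ⟨i, List.mem_range.2 hi1, ?_⟩
        rw [decide_eq_true_eq]
        by_contra hv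
        refine hi2 ⟨?_, hv⟩
        have h6 : (i + 1) * B ≤ 2 * n * B := Nat.mul_le_mul_right _ hi1
        have h7 : (i + 1) * B = i * B + B := by ring
        have h8 : ρ.eval q.length ≤ B := eval_mono ρ (hlen q hq)
        rw [List.length_take, List.length_drop, hr]
        omega
      · rw [decide_eq_false hqA]
        unfold rpa
        rw [List.any_eq_false]
        intro i hi
        rw [decide_eq_true_eq]
        refine hA2 q hqA _ ?_
        have hi1 := List.mem_range.1 hi
        have h6 : (i + 1) * B ≤ 2 * n * B := Nat.mul_le_mul_right _ hi1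
        have h7 : (i + 1) * B = i * B + B := by ring
        have h8 : ρ.eval q.length ≤ B := eval_mono ρ (hlen q hq)
        rw [List.length_take, List.length_drop, hr, ← hB]
        omega
    rw [h4]
    exact beats_self hδ hqs
  · exact (str_finite (2 * n * B)).subset fun r hr => hr.1

theorem RandFullyPredictable.randPredictable {δ : ℝ} {A : Set (List Bool)}
    (h : RandFullyPredictable δ A) (ε : ℝ) : RandPredictable δ ε A := by
  classical
  obtain ⟨g, ρ, hg, hX⟩ := h
  refine ⟨g, ρ, 2, hg, fun qs hqs _ => ?_⟩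
  have h1 := hX qs hqs
  set n : ℕ := (bits qs).length with hn
  set Bad : Set (List Bool) := {r : List Bool | r.length = ρ.eval n ∧
    ¬ (Beats δ A qs (g (pairBits (bits qs) r)) ∧
      ∀ a ∈ g (pairBits (bits qs) r), a ≠ none)} with hBad
  have hn1 : 1 ≤ n := by
    rw [hn, bits_length]
    have := length_lt_sz qs
    omega
  have h2 : 2 * Bad.ncard ≤ 2 ^ ρ.eval n := by
    refine le_trans (Nat.mul_le_mul_right _ ?_) h1
    calc 2 = 2 ^ 1 := rfl
      _ ≤ 2 ^ n := Nat.pow_le_pow_right (by norm_num) hn1
  have hsub : {r : List Bool | r.length = ρ.eval n} ⊆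
      {r : List Bool | r.length = ρ.eval n ∧ Beats δ A qs (g (pairBits (bits qs) r))} ∪ Bad := by
    intro r hr
    by_cases hb : Beats δ A qs (g (pairBits (bits qs) r))
    · exact Or.inl ⟨hr, hb⟩
    · exact Or.inr ⟨hr, fun h => hb h.1⟩
  have h3 := (Set.ncard_le_ncard hsub (((str_finite _).subset fun r hr => hr.1).union
    ((str_finite _).subset fun r hr => hr.1))).trans (Set.ncard_union_le _ _)
  have h4 : {r : List Bool | r.length = ρ.eval n}.ncard = 2 ^ ρ.eval n := str_ncard _
  rw [h4] at h3
  simp only [Polynomial.eval_ofNat]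
  omega

end Pool.Agent.W920.NL
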