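import Pool.Agent.W920.NL.LawR2

/-!
# The law of random prediction: sets with random predictors, and `BPP`
-/

set_option autoImplicit false

namespace Pool.Agent.W920.NL

open Pool.Agent.NPC Pool.Agent.H251R5.PQ Pool.Agent.W901.AT Pool.Agent.H579R2.Spt
open Pool.Agent.W920.LN (Tb lk good_of_beats)

/-- Below the threshold every set is randomly predictable. -/
theorem randPredictable_of_nonpos {δ : ℝ} (hδ : δ ≤ 0) (ε : ℝ) (A : Set (List Bool)) :
    RandPredictable δ ε A := by
  classical
  obtain ⟨X, q, g, b, hq, hg, h⟩ := fully_of_nonpos hδ A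
  have hgp : NPC.Poly g := poly_of_bits' hg
  have hkp : NPC.Poly (fun z : List Bool => b * (Nat.bits (ky z).length).length) := by
    have h1 : NPC.Poly (fun z : List Bool => (ky z).length) := NPC.Poly.length ky_poly
    exact (UPoly.mul (UPoly.const b) (UPoly.length (NPC.Poly.natBits h1))).toPoly
  have hg' : NPC.Poly (fun z : List Bool =>
      g (pairBits (ky z) ((unpair z).2.take (b * (Nat.bits (ky z).length).length)))) :=
    hgp.comp (H622R2.poly_pairBits ky_poly (take_poly' (NPC.Poly.snd poly_unpair) hkp))
  refine ⟨fun z => g (pairBits (ky z) ((unpair z).2.take (b * (Nat.bits (ky z).length).length))),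
    Polynomial.C b * (Polynomial.X + 1), (Polynomial.C 2 * Polynomial.X) ^ b, polyTime_bits hg',
    fun qs hqs _ => ?_⟩
  have h1 := (h qs hqs).1
  set n : ℕ := (bits qs).length with hn
  have hn0 : 0 < n := enu_pos qs
  set k : ℕ := b * (Nat.log 2 n + 1) with hk
  have hke : b * (Nat.bits n).length = k := by rw [hk, ← enu_size hn0]
  set t : List Bool := adaptive X q (bits qs) k with ht
  have htl : t.length = k := enu_adaptive X q (bits qs) k
  have hkρ : k ≤ (Polynomial.C b * (Polynomial.X + 1)).eval n := by
    simp only [Polynomial.eval_mul, Polynomial.eval_C, Polynomial.eval_add, Polynomial.eval_X,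
      Polynomial.eval_one]
    exact Nat.mul_le_mul_left _ ((enu_log_le hn0).trans (Nat.le_succ n))
  set R : ℕ := (Polynomial.C b * (Polynomial.X + 1)).eval n with hR
  have h2 : 2 ^ (R - k) ≤ {r : List Bool | r.length = R ∧ Beats δ A qs
      (g (pairBits (ky (pairBits (bits qs) r)) ((unpair (pairBits (bits qs) r)).2.take
        (b * (Nat.bits (ky (pairBits (bits qs) r)).length).length))))}.ncard := by
    rw [← str_ncard (R - k)]
    refine Set.ncard_le_ncard_of_injOn (fun r => t ++ r) ?_ ?_
      ((str_finite R).subset fun r hr => hr.1)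
    · intro r hr
      have hr' : r.length = R - k := hr
      refine ⟨by rw [List.length_append, htl, hr']; omega, ?_⟩
      unfold ky
      rw [unpair_pairBits]
      simp only
      rw [← hn, hke, ← htl, List.take_left]
      exact h1
    · intro r _ r' _ hrr
      exact List.append_cancel_left hrr
  have h3 : 2 ^ k ≤ (2 * n) ^ b := by
    calc 2 ^ k = (2 ^ (Nat.log 2 n + 1)) ^ b := by rw [hk, ← pow_mul, mul_comm]
      _ ≤ (2 * n) ^ b := by
          apply Nat.pow_le_pow_left
          rw [pow_succ, mul_comm]
          exact Nat.mul_le_mul_left 2 (Nat.pow_log_le_self 2 (by omega))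
  calc 2 ^ R = 2 ^ k * 2 ^ (R - k) := by rw [← pow_add]; congr 1; omega
    _ ≤ (2 * n) ^ b * 2 ^ (R - k) := Nat.mul_le_mul_right _ h3
    _ ≤ _ := by
        simp only [Polynomial.eval_pow, Polynomial.eval_mul, Polynomial.eval_C, Polynomial.eval_X]
        exact Nat.mul_le_mul_left _ h2

end Pool.Agent.W920.NL
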