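import Pool.Agent.H251R5.PQ.Fin

/-!
# One level of the algorithm of `Pool.Agent.H251R5.PQ`, with correct candidates for one state only
-/

set_option autoImplicit false

namespace Pool.Agent.W920.NL

open Pool.Agent.NPC Pool.Agent.H251R5.PQ

theorem find' (D : Ver) (E : List (List Bool) → List (List Bool)) (s : St)
    (hE : tru D s ∈ E (qlist D s)) (hp : (sp s).Prime) (X : Finset (List Bool))
    (hX : ∀ w, w ∈ X ↔ IsW D s w) (hne : X.Nonempty) (hcard : X.card * D.n s.1 ≤ sp s) :
    test D E s = true := by
  classical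
  have hEV : S_EV := t_EV
  have hTRU : S_TRU := t_TRU
  obtain ⟨w, hw⟩ := hne
  have hwW := (hX w).1 hw
  set n := D.n s.1 with hn
  set p := sp s with hpd
  have hn1 : 1 ≤ n := D.pos s.1
  have hp0 : 0 < p := hp.pos
  -- a position at which `w` differs from all other survivors
  have hA : ∃ a, a < p ∧ ∀ w' ∈ X, ev p a w' = ev p a w → w' = w := by
    by_contra hcon
    push Not at hcon
    have hsub : Finset.range p ⊆ (X.erase w).biUnion
        (fun w' => (Finset.range p).filter (fun a => ev p a w = ev p a w')) := by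
      intro a ha
      obtain ⟨w', h1, h2, h3⟩ := hcon a (Finset.mem_range.1 ha)
      exact Finset.mem_biUnion.2 ⟨w', Finset.mem_erase.2 ⟨h3, h1⟩, Finset.mem_filter.2 ⟨ha, h2.symm⟩⟩
    have h1 := (Finset.card_le_card hsub).trans Finset.card_biUnion_le
    rw [Finset.card_range] at h1
    have h2 : ∑ w' ∈ X.erase w, ((Finset.range p).filter (fun a => ev p a w = ev p a w')).card ≤
        (X.erase w).card * (n - 1) := by
      rw [← smul_eq_mul]
      refine Finset.sum_le_card_nsmul _ _ _ fun w' hw' => ?_
      rw [Finset.mem_erase] at hw'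
      have h3 := hEV p n hp hn1 w w' hwW.1 ((hX w').1 hw'.2).1 hw'.1.symm
      omega
    rw [Finset.card_erase_of_mem hw] at h2
    have h3 : 1 ≤ X.card := Finset.card_pos.2 ⟨w, hw⟩
    have h4 : (X.card - 1) * (n - 1) ≤ (X.card - 1) * n := Nat.mul_le_mul_left _ (Nat.sub_le _ _)
    have h5 : X.card * n = (X.card - 1) * n + n := by
      obtain ⟨c, hc⟩ : ∃ c, X.card = c + 1 := ⟨X.card - 1, by omega⟩
      rw [hc, Nat.add_sub_cancel]
      ring
    omega
  obtain ⟨a, ha, huniq⟩ := hA
  set y := ev p a w with hy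
  have hyp : y < p := find_ev_lt hp0 a w
  have hval : ∀ b, b ≤ n → val n p (tru D s) a y b = w.getD b true := by
    intro b hb
    have h1 := hTRU D s a y b ha hyp hb
    rw [Bool.eq_iff_iff]
    refine h1.trans ⟨?_, fun h => ⟨w, hwW, rfl, h⟩⟩
    rintro ⟨w', h2, h3, h4⟩
    rw [huniq w' ((hX w').2 h2) h3] at h4
    exact h4
  have hdec : dec n p (tru D s) a y = w := by
    unfold dec
    apply List.ext_getElem
    · rw [List.length_map, List.length_range, hwW.1]
    · intro i h1 h2
      rw [List.getElem_map, List.getElem_range]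
      have h3 : i < n := by
        rw [List.length_map, List.length_range] at h1
        exact h1
      rw [hval i h3.le, List.getD_eq_getElem _ _ h2]
  unfold test
  rw [List.any_eq_true]
  refine ⟨tru D s, hE, ?_⟩
  rw [List.any_eq_true]
  refine ⟨a, List.mem_range.2 ha, ?_⟩
  rw [List.any_eq_true]
  refine ⟨y, List.mem_range.2 hyp, ?_⟩
  rw [← hn, ← hpd, hdec]
  exact hwW.2.1

theorem lev' (D : Ver) (E : List (List Bool) → List (List Bool)) (s : St)
    (hE : tru D s ∈ E (qlist D s)) (hp : (sp s).Prime) (h8 : 8 * D.n s.1 ≤ sp s)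
    (h2 : 2 * (s.2.2.map List.length).sum ≤ sp s) (hw : ∃ w, IsW D s w)
    (htest : test D E s = false) : ∃ w, IsW D (nxt D E s) w := by
  have hTRU : S_TRU := t_TRU
  have hSPA : S_SPA := c_SPA
  have hGR : S_GR := t_GR
  have hn := D.pos s.1
  have hmem : tru D s ∈ E (qlist D s) := hE
  by_cases hc : 32 * D.n s.1 * ((pts s).filter (hit (D.n s.1) (sp s) (tru D s))).length <
      (pts s).length
  · exfalso
    -- the finset of the surviving witnesses
    have hfin : {w : List Bool | IsW D s w}.Finite :=
      (List.finite_length_eq Bool (D.n s.1)).subset fun w hw => hw.1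
    have hX : ∀ w, w ∈ hfin.toFinset ↔ IsW D s w := fun w => hfin.mem_toFinset
    have h3 := hSPA D s hp h8 h2 hc hfin.toFinset fun w hw => (hX w).1 hw
    obtain ⟨w, hw⟩ := hw
    have h4 := find' D E s hE hp hfin.toFinset hX ⟨w, (hX w).2 hw⟩ (by
      refine (Nat.mul_le_mul_right _ h3).trans ?_
      have h5 : sp s / (16 * D.n s.1) * (16 * D.n s.1) ≤ sp s := Nat.div_mul_le_self _ _
      nlinarith [Nat.zero_le (sp s / (16 * D.n s.1) * D.n s.1)])
    rw [htest] at h4
    exact Bool.false_ne_true h4
  · push Not at hc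
    have hheavy : tru D s ∈ heavy D E s := by
      unfold heavy
      rw [List.mem_filter]
      exact ⟨hmem, decide_eq_true hc⟩
    obtain ⟨g1, g2, _⟩ := hGR (hit (D.n s.1) (sp s)) (32 * D.n s.1) (pts s) (heavy D E s)
      (by omega) (lev_pts_ne s hp.pos h2) (by
        intro h hh
        unfold heavy at hh
        rw [List.mem_filter] at hh
        exact of_decide_eq_true hh.2)
    obtain ⟨q, hq, hqt⟩ := g2 _ hheavy
    have hqp := (lev_mem_pts s q).1 (g1 q hq)
    obtain ⟨w, hw1, hw2, _⟩ := (hTRU D s q.1 q.2 (D.n s.1) hqp.1.1 hqp.1.2 le_rfl).1 hqt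
    refine ⟨w, hw1.1, hw1.2.1, ?_⟩
    show Pass (sp s) (s.2.2 ++ [block D E s]) w = true
    unfold Pass
    rw [List.all_append, Bool.and_eq_true]
    refine ⟨hw1.2.2, ?_⟩
    rw [List.all_cons, List.all_nil, Bool.and_true, List.any_eq_true]
    exact ⟨q, hq, decide_eq_true hw2⟩

/-- The invariant is preserved if the list of candidates is not too long. -/
theorem good_nxt (D : Ver) (x : List Bool) (u i : ℕ) (hu : 1 ≤ u) (hnu : D.n x ≤ u)
    (E : List (List Bool) → List (List Bool)) (s : St) (hs : Good x u i s)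
    (hlen : 32 * (Nat.log 2 (E (qlist D s)).length + 1) ≤ u) :
    Good x u (i + 1) (nxt D E s) := by
  obtain ⟨g1, g2, g3, g4, g5⟩ := hs
  have hsu : su s = u := by
    unfold su
    rw [g2, List.length_replicate]
  have hsp : sp s = pr u := by
    unfold sp
    rw [hsu]
  obtain ⟨b1, b2⟩ := inv_block_mem t_GR D E s
  have hbl : (block D E s).length ≤ u ^ 2 := by
    refine b2.trans ?_
    calc 32 * D.n s.1 * (Nat.log 2 (E (qlist D s)).length + 1)
        = D.n x * (32 * (Nat.log 2 (E (qlist D s)).length + 1)) := by rw [g1]; ring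
      _ ≤ u * u := Nat.mul_le_mul hnu hlen
      _ = u ^ 2 := (sq u).symm
  refine ⟨g1, g2, ?_, ?_, ?_⟩
  · change (s.2.2 ++ [block D E s]).length = i + 1
    rw [List.length_append, g3]
    rfl
  · change (s.2.2 ++ [block D E s]).Pairwise _
    rw [List.pairwise_append]
    refine ⟨g4, List.pairwise_singleton _ _, ?_⟩
    intro P hP P' hP' q hq q' hq'
    rw [List.mem_singleton] at hP'
    subst hP'
    exact (inv_mem_pts (b1 q' hq')).2.2 P hP q hq
  · intro P hP
    change P ∈ s.2.2 ++ [block D E s] at hP
    rw [List.mem_append, List.mem_singleton] at hP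
    rcases hP with hP | rfl
    · exact g5 P hP
    · refine ⟨hbl, fun q hq => ?_⟩
      have h := inv_mem_pts (b1 q hq)
      rw [hsp] at h
      exact ⟨h.1, h.2.1⟩

/-- The size of a good state. -/
theorem good_size : ∃ S : Polynomial ℕ, ∀ (x : List Bool) (u i : ℕ) (s : St), x.length ≤ u →
    1 ≤ u → i ≤ u ^ 3 + 1 → Good x u i s → sz s ≤ S.eval u := by
  obtain ⟨S, hS⟩ := t_SZ
  refine ⟨S, fun x u i s hx hu hi hs => ?_⟩
  obtain ⟨g1, g2, g3, g4, g5⟩ := hs
  have hpr := t_PR u hu
  refine hS s u (by rw [g1]; exact hx) (by rw [g2, List.length_replicate])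
    (by rw [g3]; exact hi) ?_
  intro P hP
  refine ⟨(g5 P hP).1, fun q hq => ?_⟩
  have := (g5 P hP).2 q hq
  omega

/-! ### The step in polynomial time, with an additional argument -/

/-- the verifier which ignores the second component of the input -/
def dup (D : Ver) : Ver where
  n x := D.n (unpair x).1
  V x w := D.V (unpair x).1 w
  hn := D.hn.comp (NPC.Poly.fst poly_unpair)
  hV := by
    have h := D.hV.comp (NPC.Poly.pair (NPC.Poly.fst (poly_unpair.comp
      (NPC.Poly.fst (NPC.Poly.id (α := List Bool × List Bool))))) (NPC.Poly.snd NPC.Poly.id))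
    exact h
  pos x := D.pos _

/-- the state with an additional component of the input -/
def emb (tc : List Bool) (s : St) : St := (pairBits s.1 tc, (s.2.1, s.2.2))

/-- remove the additional component -/
def strp (t : St × ℕ) : St × ℕ := (((unpair t.1.1).1, (t.1.2.1, t.1.2.2)), t.2)

/-- remove the additional component in the code of a query -/
def strpB (q : List Bool) : List Bool := (unbits (St × ℕ) q).elim [] fun t => bits (strp t)

/-- the additional component of the queries -/
def xtra (qs : List (List Bool)) : List Bool :=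
  (unbits (St × ℕ) (qs.head?.getD [])).elim [] fun t => (unpair t.1.1).2

/-- the enumerator which finds its additional argument in the queries -/
def EE (F : List Bool × List (List Bool) → List (List Bool)) (qs : List (List Bool)) :
    List (List Bool) := F (xtra qs, qs.map strpB)

theorem strp_poly : NPC.Poly strp := by
  have e1 : NPC.Poly (fun t : St × ℕ => t.1) := NPC.Poly.fst NPC.Poly.id
  exact NPC.Poly.pair (NPC.Poly.pair (NPC.Poly.fst (poly_unpair.comp (NPC.Poly.fst e1)))
    (NPC.Poly.pair (NPC.Poly.fst (NPC.Poly.snd e1)) (NPC.Poly.snd (NPC.Poly.snd e1))))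
    (NPC.Poly.snd NPC.Poly.id)

theorem strpB_poly : NPC.Poly strpB := by
  refine (NPC.Poly.optCases (o := fun q : List Bool => unbits (St × ℕ) q) (g := fun _ => [])
    (h := fun _ t => bits (strp t)) poly_unbits (NPC.Poly.const [])
    (pql_bits.comp (strp_poly.comp (NPC.Poly.snd NPC.Poly.id)))).congr fun q => ?_
  unfold strpB
  cases unbits (St × ℕ) q <;> rfl

theorem xtra_poly : NPC.Poly xtra := by
  refine (NPC.Poly.optCases (o := fun qs : List (List Bool) => unbits (St × ℕ) (qs.head?.getD []))
    (g := fun _ => []) (h := fun _ t => (unpair t.1.1).2)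
    (poly_unbits.comp (NPC.Poly.head?_getD NPC.Poly.id [])) (NPC.Poly.const [])
    (NPC.Poly.snd (poly_unpair.comp (NPC.Poly.fst (NPC.Poly.fst
      (NPC.Poly.snd NPC.Poly.id)))))).congr fun q => ?_
  unfold xtra
  cases unbits (St × ℕ) (q.head?.getD []) <;> rfl

theorem ee_poly {F : List Bool × List (List Bool) → List (List Bool)} (hF : NPC.Poly F) :
    NPC.Poly (EE F) := by
  refine hF.comp (NPC.Poly.pair xtra_poly ?_)
  exact NPC.Poly.map (l := fun qs : List (List Bool) => qs) (F := fun _ q => strpB q)
    NPC.Poly.id (strpB_poly.comp (NPC.Poly.snd NPC.Poly.id))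

theorem pr_pos (u : ℕ) : 0 < pr u := by
  rcases Nat.eq_zero_or_pos u with rfl | hu
  · decide
  · exact (t_PR u hu).1.pos

theorem qlist_emb (D : Ver) (tc : List Bool) (s : St) :
    (qlist (dup D) (emb tc s)).map strpB = qlist D s := by
  have hn : (dup D).n (emb tc s).1 = D.n s.1 := by
    change D.n (unpair (pairBits s.1 tc)).1 = _
    rw [unpair_pairBits]
  have hs : sp (emb tc s) = sp s := rfl
  unfold qlist
  rw [List.map_map, hn, hs]
  refine List.map_congr_left fun i _ => ?_
  simp only [Function.comp, strpB, unbits_bits, Option.elim]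
  congr 1
  simp only [strp, addp, emb, unpair_pairBits]

theorem xtra_emb (D : Ver) (tc : List Bool) (s : St) :
    xtra (qlist (dup D) (emb tc s)) = tc := by
  have h0 : 0 < sp (emb tc s) := pr_pos _
  have h1 : 0 < sp (emb tc s) * sp (emb tc s) * ((dup D).n (emb tc s).1 + 1) := by positivity
  obtain ⟨m, hm⟩ : ∃ m, sp (emb tc s) * sp (emb tc s) * ((dup D).n (emb tc s).1 + 1) = m + 1 :=
    ⟨_, (Nat.succ_pred_eq_of_pos h1).symm⟩
  unfold xtra qlist
  rw [hm, List.range_succ_eq_map, List.map_cons]
  simp only [List.head?_cons, Option.getD_some, unbits_bits, Option.elim]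
  simp only [addp, emb, unpair_pairBits]

theorem ee_emb (D : Ver) (F : List Bool × List (List Bool) → List (List Bool)) (tc : List Bool)
    (s : St) : EE F (qlist (dup D) (emb tc s)) = F (tc, qlist D s) := by
  unfold EE
  rw [qlist_emb, xtra_emb]

theorem test_emb (D : Ver) (F : List Bool × List (List Bool) → List (List Bool)) (tc : List Bool)
    (s : St) : test (dup D) (EE F) (emb tc s) = test D (fun qs => F (tc, qs)) s := by
  have hn : (dup D).n (emb tc s).1 = D.n s.1 := by
    change D.n (unpair (pairBits s.1 tc)).1 = _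
    rw [unpair_pairBits]
  have hV : (dup D).V (emb tc s).1 = D.V s.1 := by
    change D.V (unpair (pairBits s.1 tc)).1 = _
    rw [unpair_pairBits]
  have hs : sp (emb tc s) = sp s := rfl
  unfold test
  rw [ee_emb, hn, hs, hV]

theorem block_emb (D : Ver) (F : List Bool × List (List Bool) → List (List Bool))
    (tc : List Bool) (s : St) :
    block (dup D) (EE F) (emb tc s) = block D (fun qs => F (tc, qs)) s := by
  have hn : (dup D).n (emb tc s).1 = D.n s.1 := by
    change D.n (unpair (pairBits s.1 tc)).1 = _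
    rw [unpair_pairBits]
  have hs : sp (emb tc s) = sp s := rfl
  have hp : pts (emb tc s) = pts s := rfl
  unfold block heavy
  rw [ee_emb, hn, hs, hp]

theorem emb_poly {α : Type} [TEnc α] {tc : α → List Bool} {s : α → St} (ht : NPC.Poly tc)
    (hs : NPC.Poly s) : NPC.Poly (fun a => emb (tc a) (s a)) :=
  NPC.Poly.pair (H622R2.poly_pairBits (NPC.Poly.fst hs) ht)
    (NPC.Poly.pair (NPC.Poly.fst (NPC.Poly.snd hs)) (NPC.Poly.snd (NPC.Poly.snd hs)))

theorem testT_poly (D : Ver) {F : List Bool × List (List Bool) → List (List Bool)}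
    (hF : NPC.Poly F) : NPC.Poly (fun q : List Bool × St => test D (fun qs => F (q.1, qs)) q.2) := by
  have h := (t_PTE c_PRP c_PQL (dup D) (EE F) (ee_poly hF)).comp
    (emb_poly (NPC.Poly.fst (NPC.Poly.id (α := List Bool × St))) (NPC.Poly.snd NPC.Poly.id))
  exact h.congr fun q => test_emb D F q.1 q.2

theorem blockT_poly (D : Ver) {F : List Bool × List (List Bool) → List (List Bool)}
    (hF : NPC.Poly F) :
    NPC.Poly (fun q : List Bool × St => block D (fun qs => F (q.1, qs)) q.2) := by
  have h := (t_PBL c_PRP c_PQL (dup D) (EE F) (ee_poly hF)).comp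
    (emb_poly (NPC.Poly.fst (NPC.Poly.id (α := List Bool × St))) (NPC.Poly.snd NPC.Poly.id))
  exact h.congr fun q => block_emb D F q.1 q.2

end Pool.Agent.W920.NL
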