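import Pool.Agent.W920.NL.Lev
import Pool.Agent.W920.NL.Par
import Pool.Agent.W920.LN.Red

/-!
# The guessed run of the algorithm
-/

set_option autoImplicit false

namespace Pool.Agent.W920.NL

open Pool.Agent.NPC Pool.Agent.H251R5.PQ
open Pool.Agent.W920.LN (Tb lk lk_map)

section

variable (D : Ver) (F : Tc × List (List Bool) → List (List Bool))
  (Ks : List (List Bool) → List (List Bool)) (W : Rd)

/-- the next state -/
def nx (tc : Tc) (s : St) : St := nxt D (fun qs => F (tc, qs)) s

/-- The table has witnesses for all keys of the state, and no witness of the input is found. -/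
def chk (tc : Tc) (s : St) : Bool :=
  (Ks (qlist D s)).all (fun z => valid W tc z) && !(test D (fun qs => F (tc, qs)) s)

/-- All levels are fine. -/
def ok (θ : List (List Bool)) : List Tb → St → Bool
  | [], _ => true
  | tb :: tbs, s => chk D F Ks W (θ, tb) s && ok θ tbs (nx D F (θ, tb) s)

/-- One step of the verifier. -/
def stp (θ : List (List Bool)) (p : Bool × St) (tb : Tb) : Bool × St :=
  (p.1 && chk D F Ks W (θ, tb) p.2, nx D F (θ, tb) p.2)

theorem foldl_stp (θ : List (List Bool)) : ∀ (tbs : List Tb) (b : Bool) (s : St),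
    (tbs.foldl (stp D F Ks W θ) (b, s)).1 = (b && ok D F Ks W θ tbs s) := by
  intro tbs
  induction tbs with
  | nil => intro b s; simp [ok]
  | cons tb tbs ih =>
    intro b s
    rw [List.foldl_cons]
    change (tbs.foldl (stp D F Ks W θ) (b && chk D F Ks W (θ, tb) s, nx D F (θ, tb) s)).1 = _
    rw [ih]
    simp only [ok, Bool.and_assoc]

variable {D F Ks W}

theorem good_sp {x : List Bool} {u i : ℕ} {s : St} (h : Good x u i s) : sp s = pr u := by
  unfold sp su
  rw [h.2.1, List.length_replicate]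

theorem ok_sound {x : List Bool} {u : ℕ} (hu2 : 2 ≤ u) (hn3 : 3 * D.n x ≤ u)
    (θ : List (List Bool))
    (hlen : ∀ tc i s, i ≤ u ^ 3 + 1 → Good x u i s →
      32 * (Nat.log 2 (F (tc, qlist D s)).length + 1) ≤ u)
    (hans : ∀ tb i s, i ≤ u ^ 3 + 1 → Good x u i s →
      (∀ z ∈ Ks (qlist D s), valid W (θ, tb) z = true) → tru D s ∈ F ((θ, tb), qlist D s)) :
    ∀ (tbs : List Tb) (i : ℕ) (s : St), Good x u i s → (∃ w, IsW D s w) → tbs ≠ [] →
      i + tbs.length = u ^ 3 + 1 → ok D F Ks W θ tbs s = false := by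
  obtain ⟨hp1, hp2, _⟩ := t_PR u (by omega)
  have hpow : 32 * u ≤ u ^ 6 := by
    calc 32 * u = 2 ^ 5 * u := by norm_num
      _ ≤ u ^ 5 * u := Nat.mul_le_mul_right _ (Nat.pow_le_pow_left hu2 5)
      _ = u ^ 6 := by ring
  intro tbs
  induction tbs with
  | nil => intro i s _ _ h; exact absurd rfl h
  | cons tb tbs ih =>
    intro i s hg hw _ hi
    rw [List.length_cons] at hi
    unfold ok
    by_contra hcon
    rw [Bool.not_eq_false, Bool.and_eq_true] at hcon
    obtain ⟨h1, h2⟩ := hcon
    unfold chk at h1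
    rw [Bool.and_eq_true, List.all_eq_true, Bool.not_eq_true'] at h1
    obtain ⟨hv, ht⟩ := h1
    have htru := hans tb i s (by omega) hg hv
    have hs := good_sp hg
    by_cases hnil : tbs = []
    · subst hnil
      have hiu : i = u ^ 3 := by simpa using hi
      have hfin : {w | IsW D s w}.Finite :=
        (List.finite_length_eq Bool (D.n s.1)).subset (fun v hv => hv.1)
      have hX := c_FIL D x u i s hu2 hn3 hiu hg hfin.toFinset (fun v hv => by simpa using hv)
      obtain ⟨w, hw⟩ := hw
      have hfind := find' D (fun qs => F ((θ, tb), qs)) s htru (by rw [hs]; exact hp1)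
        hfin.toFinset (fun v => by simp) ⟨w, by simpa using hw⟩ (by
        rw [hs, hg.1]
        have h1 : hfin.toFinset.card * D.n x ≤ 2 * u ^ 2 * D.n x := Nat.mul_le_mul_right _ hX
        have h2 : 2 * u ^ 2 * D.n x ≤ u ^ 2 * u := by nlinarith [Nat.zero_le (u ^ 2)]
        have h3 : u ^ 2 * u ≤ u ^ 6 := by
          calc u ^ 2 * u = u ^ 3 := by ring
            _ ≤ u ^ 6 := Nat.pow_le_pow_right (by omega) (by omega)
        omega)
      rw [ht] at hfind
      exact Bool.false_ne_true hfind
    · have hlt : i < u ^ 3 := by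
        have := List.length_pos_iff.2 hnil
        omega
      have hw' := lev' D (fun qs => F ((θ, tb), qs)) s htru (by rw [hs]; exact hp1)
        (by rw [hs, hg.1]; omega) (by
          rw [hs]
          have h1 := cor_sum s.2.2 (u ^ 2) (fun P hP => (hg.2.2.2.2 P hP).1)
          rw [hg.2.2.1] at h1
          have h2 : i * u ^ 2 ≤ u ^ 3 * u ^ 2 := Nat.mul_le_mul_right _ (by omega)
          have h3 : 2 * (u ^ 3 * u ^ 2) ≤ u ^ 6 := by
            calc 2 * (u ^ 3 * u ^ 2) ≤ u * (u ^ 3 * u ^ 2) := Nat.mul_le_mul_right _ hu2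
              _ = u ^ 6 := by ring
          omega) hw ht
      have hg' := good_nxt D x u i (by omega) (by omega) (fun qs => F ((θ, tb), qs)) s hg
        (hlen (θ, tb) i s (by omega) hg)
      have h3 := ih (i + 1) (nx D F (θ, tb) s) hg' hw' hnil (by omega)
      rw [h2] at h3
      exact Bool.false_ne_true h3.symm

theorem ok_complete {x : List Bool} {u : ℕ} (hu : 1 ≤ u) (hnu : D.n x ≤ u)
    (θ : List (List Bool))
    (hlen : ∀ tc i s, i ≤ u ^ 3 + 1 → Good x u i s →
      32 * (Nat.log 2 (F (tc, qlist D s)).length + 1) ≤ u)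
    (hno : ∀ w : List Bool, w.length = D.n x → D.V x w = false) (Bd : ℕ)
    (htot : ∀ i s, i ≤ u ^ 3 + 1 → Good x u i s →
      ∃ tb : Tb, sz tb ≤ Bd ∧ ∀ z ∈ Ks (qlist D s), valid W (θ, tb) z = true) :
    ∀ (k i : ℕ) (s : St), Good x u i s → i + k ≤ u ^ 3 + 1 →
      ∃ tbs : List Tb, tbs.length = k ∧ (∀ tb ∈ tbs, sz tb ≤ Bd) ∧
        ok D F Ks W θ tbs s = true := by
  intro k
  induction k with
  | zero => intro i s _ _; exact ⟨[], rfl, by simp, rfl⟩
  | succ k ih =>
    intro i s hg hi
    obtain ⟨tb, htb1, htb2⟩ := htot i s (by omega) hg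
    have hg' := good_nxt D x u i hu hnu (fun qs => F ((θ, tb), qs)) s hg
      (hlen (θ, tb) i s (by omega) hg)
    obtain ⟨tbs, h1, h2, h3⟩ := ih (i + 1) (nx D F (θ, tb) s) hg' (by omega)
    refine ⟨tb :: tbs, by rw [List.length_cons, h1], ?_, ?_⟩
    · intro tb' htb'
      rcases List.mem_cons.1 htb' with rfl | h
      · exact htb1
      · exact h2 _ h
    · unfold ok
      rw [h3, Bool.and_true]
      unfold chk
      rw [Bool.and_eq_true, List.all_eq_true, Bool.not_eq_true']
      refine ⟨htb2, ?_⟩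
      by_contra hcon
      rw [Bool.not_eq_false] at hcon
      obtain ⟨w, hw1, hw2⟩ := cor_test D _ s hcon
      rw [hg.1] at hw1 hw2
      rw [hno w hw1] at hw2
      exact Bool.false_ne_true hw2

end

theorem good_ini (D : Ver) (u0 : ℕ) (x : List Bool) : Good x (par D u0 x) 0 (ini D u0 x) := by
  refine ⟨rfl, rfl, rfl, List.Pairwise.nil, ?_⟩
  intro P hP
  simp [ini] at hP

/-- Tables. -/
theorem table_of_tot {W : Rd} {p0 : Polynomial ℕ} {θ : List (List Bool)} {N : ℕ}
    (htot : ∀ z : List Bool, z.length ≤ N → ∃ w : List Bool, w.length ≤ p0.eval z.length ∧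
      (W (θ, (z, w))).isSome = true) (l : List (List Bool)) (M : ℕ) (hM : sz l ≤ M)
    (hMN : M ≤ N) : ∃ tb : Tb, sz tb ≤ M * (M + 4 * p0.eval M + 3) + 1 ∧
      ∀ z ∈ l, valid W (θ, tb) z = true := by
  classical
  have h0 : ∀ z ∈ l, z.length ≤ N := by
    intro z hz
    have e1 := sz_le_of_mem hz
    have e2 := length_lt_sz z
    omega
  have h1 : ∀ z : List Bool, ∃ w : List Bool, w.length ≤ p0.eval z.length ∧
      (z ∈ l → (W (θ, (z, w))).isSome = true) := by
    intro z
    by_cases hz : z ∈ l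
    · obtain ⟨w, hw1, hw2⟩ := htot z (h0 z hz)
      exact ⟨w, hw1, fun _ => hw2⟩
    · exact ⟨[], Nat.zero_le _, fun h => absurd h hz⟩
  choose w hw1 hw2 using h1
  refine ⟨l.map fun z => (z, w z), ?_, fun z hz => ?_⟩
  · have e2 := length_lt_sz l
    refine (sz_le_length_mul _ (M + 4 * p0.eval M + 2) ?_).trans ?_
    · intro e he
      obtain ⟨y, hy, rfl⟩ := List.mem_map.1 he
      have e3 := sz_le_of_mem hy
      have e4 := sz_listBool_ge y
      have e5 := sz_listBool_le (w y)
      have e6 := (hw1 y).trans (eval_mono p0 (show y.length ≤ M by omega))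
      rw [sz_pair]
      omega
    · rw [List.length_map]
      have e3 : l.length * (M + 4 * p0.eval M + 2 + 1) ≤ M * (M + 4 * p0.eval M + 3) :=
        Nat.mul_le_mul (by omega) (by omega)
      omega
  · unfold valid go
    rw [lk_map w l hz]
    exact hw2 z hz

end Pool.Agent.W920.NL
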